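import Mathlib
import Pool.Agent.D0H51.DZ.Grp
import Pool.Agent.D0H51.DR.Low

/-!
# Lower bounds for sums of S-unit germs: a class with nonzero sum
-/

set_option autoImplicit false

namespace Pool.Agent.D0H51.AP

open Filter Topology Pool.Agent.TH932.Germs Pool.Agent.TH551.SU Pool.Agent.Y724.Vj
open Pool.Agent.D0H51.DZ (lbg)

variable {L : ℕ → ℝ}

/-- **A sum of `S`-unit germs with negligible coefficients is not smaller than the unit of a class
with nonzero sum.** -/
theorem lbc {s : ℕ} (b : Fin s → ℕ) (hb : ∀ v, (b v).Prime) (hbi : Function.Injective b)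
    (hL : Tendsto L atTop atTop) {ι : Type} [Fintype ι] [DecidableEq ι] (u : ι → GG)
    (hu : ∀ i, GSU b (u i)) (hbd : ∀ i j, Bd L (u i / u j)) (v0 : Option (Fin s)) (i0 : ι)
    (c : ι → KK L hL) (A : Finset ι) (hA : ∀ i, i ∈ A ↔ u i / u i0 ∈ KK L hL)
    (hne : ∑ i ∈ A, (c i : GG) * u i ≠ 0) :
    (OO L hL (wv b hb v0)).valuation (u i0) ≤
      (OO L hL (wv b hb v0)).valuation (∑ i, (c i : GG) * u i) := by
  have hu0 : ∀ i, u i ≠ 0 := fun i => gsu_ne_zero hb (hu i)
  have hi0A : i0 ∈ A := by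
    rw [hA, div_self (hu0 i0)]
    exact (KK L hL).one_mem
  -- the coefficient of the class
  have hK : (∑ i ∈ A, (c i : GG) * u i) / u i0 ∈ KK L hL := by
    rw [Finset.sum_div]
    refine (KK L hL).sum_mem fun i hi => ?_
    rw [mul_div_assoc]
    exact (KK L hL).mul_mem (c i).2 ((hA i).1 hi)
  set c0 : KK L hL := ⟨_, hK⟩ with hc0
  have hc0ne : c0 ≠ 0 := by
    intro h
    have h1 := congrArg Subtype.val h
    rw [hc0] at h1
    simp only [ZeroMemClass.coe_zero] at h1
    rw [div_eq_zero_iff] at h1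
    exact h1.elim hne (hu0 i0)
  set T : Finset ι := insert i0 (Finset.univ \ A) with hT
  have hi0 : i0 ∉ Finset.univ \ A := by
    rw [Finset.mem_sdiff]
    exact fun h => h.2 hi0A
  set c' : ι → KK L hL := Function.update c i0 c0 with hc'
  have key := lbg b hb hbi hL u hu hbd v0 i0 T.card T rfl (Finset.mem_insert_self _ _) c'
    (by rw [hc', Function.update_self]; exact hc0ne)
    (fun i hi hii => by
      rw [hT, Finset.mem_insert] at hi
      rcases hi with h | h
      · exact absurd h hii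
      · rw [Finset.mem_sdiff, hA] at h
        exact h.2)
  have hsum : ∑ i ∈ T, (c' i : GG) * u i = ∑ i, (c i : GG) * u i := by
    rw [hT, Finset.sum_insert hi0, hc', Function.update_self]
    have h1 : ∑ i ∈ Finset.univ \ A, ((Function.update c i0 c0 i : KK L hL) : GG) * u i =
        ∑ i ∈ Finset.univ \ A, (c i : GG) * u i := by
      refine Finset.sum_congr rfl fun i hi => ?_
      have h2 : i ≠ i0 := by
        rintro rfl
        exact hi0 hi
      rw [Function.update_of_ne h2]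
    rw [h1, hc0]
    simp only
    rw [div_mul_cancel₀ _ (hu0 i0), add_comm]
    exact Finset.sum_sdiff (Finset.subset_univ A)
  rw [hsum] at key
  exact key

open Pool.Agent.D0H51.DZ (bp bp_prime bp_inj)
open Pool.Agent.D0H51.DR (uQ isSU_uQ)

/-- the exponent of the prime number `l` in the denominator of the unit -/
def ex {d : ℕ} (l : ℕ) (s y : Fin d → ℕ) : ℕ := ∑ k, s k * (y k).factorization l

lemma wv_uQ {d M : ℕ} (v : Fin (DZ.np M)) {y : Fin d → ℕ} (hy : ∀ k, 1 ≤ y k) (s : Fin d → ℕ) :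
    wv (bp M) (bp_prime M) (some v) (uQ s y) = (bp M v : ℝ) ^ (ex (bp M v) s y) := by
  have hp := bp_prime M v
  have := Fact.mk hp
  change Rat.AbsoluteValue.padic (bp M v) (uQ s y) = _
  have h1 : ∀ k, Rat.AbsoluteValue.padic (bp M v) (y k : ℚ) =
      ((bp M v : ℝ) ^ ((y k).factorization (bp M v)))⁻¹ := by
    intro k
    have hy0 : (y k : ℚ) ≠ 0 := by
      have := hy k
      have h2 : y k ≠ 0 := by omega
      exact_mod_cast h2
    rw [Rat.AbsoluteValue.padic_eq_padicNorm, padicNorm.eq_zpow_of_nonzero hy0, padicValRat.of_nat,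
      Nat.factorization_def _ hp, zpow_neg, zpow_natCast]
    push_cast
    rfl
  unfold uQ ex
  rw [map_inv₀, map_prod, ← Finset.prod_pow_eq_pow_sum, ← Finset.prod_inv_distrib]
  refine Finset.prod_congr rfl fun k _ => ?_
  rw [map_pow, h1, inv_pow, inv_inv, ← pow_mul, mul_comm]

/-- the exponents of equivalent units -/
theorem ex_close {d M : ℕ} (hL : Tendsto L atTop atTop) {y y' : Fin d → ℕ} (hy : ∀ k, 1 ≤ y k ∧ y k ≤ M)
    (hy' : ∀ k, 1 ≤ y' k ∧ y' k ≤ M) (s s' : ℕ → Fin d → ℕ)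
    (h : gm (fun n => uQ (s n) y) / gm (fun n => uQ (s' n) y') ∈ KK L hL) (v : Fin (DZ.np M))
    (ε : ℝ) (hε : 0 < ε) :
    ∀ᶠ n in (UU : Filter ℕ), (ex (bp M v) (s n) y : ℝ) ≤ ex (bp M v) (s' n) y' + ε * L n ∧
      (ex (bp M v) (s' n) y' : ℝ) ≤ ex (bp M v) (s n) y + ε * L n := by
  have hg : gm (fun n => uQ (s n) y) ≠ 0 :=
    gsu_ne_zero (bp_prime M) ⟨_, rfl, fun n => isSU_uQ hy _⟩
  have hg' : gm (fun n => uQ (s' n) y') ≠ 0 :=
    gsu_ne_zero (bp_prime M) ⟨_, rfl, fun n => isSU_uQ hy' _⟩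
  have h1 := val_eq_of_div (hL := hL) (pl_wv (bp M) (bp_prime M) (some v)) hg' hg h
  have hl : (1 : ℝ) / 2 ≤ Real.log (bp M v) := by
    have h2 : (2 : ℝ) ≤ bp M v := by exact_mod_cast (bp_prime M v).two_le
    have h3 := Real.log_le_log (by norm_num) h2
    have h4 := Real.log_two_gt_d9
    linarith
  have hb0 : (0 : ℝ) < bp M v := by exact_mod_cast (bp_prime M v).pos
  have hstep : ∀ a b : ℕ, ∀ T : ℝ, 0 ≤ T → (bp M v : ℝ) ^ a ≤ (bp M v : ℝ) ^ b * Real.exp (T / 2) →
      (a : ℝ) ≤ b + T := by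
    intro a b T hT h
    have h2 := Real.log_le_log (pow_pos hb0 _) h
    rw [Real.log_mul (pow_pos hb0 _).ne' (Real.exp_pos _).ne', Real.log_exp, Real.log_pow,
      Real.log_pow] at h2
    by_contra hcon
    push Not at hcon
    have h3 : ((a : ℝ) - b) * Real.log (bp M v) ≤ T / 2 := by linarith
    have h4 : ((a : ℝ) - b) * (1 / 2) ≤ ((a : ℝ) - b) * Real.log (bp M v) := by
      apply mul_le_mul_of_nonneg_left hl
      linarith
    linarith
  filter_upwards [val_le hL (wv (bp M) (bp_prime M) (some v)) h1.le (ε / 2) (by positivity),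
    val_le hL (wv (bp M) (bp_prime M) (some v)) h1.ge (ε / 2) (by positivity), L_nonneg hL]
    with n h2 h3 h4
  rw [wv_uQ v (fun k => (hy k).1), wv_uQ v (fun k => (hy' k).1)] at h2 h3
  have e1 : ε / 2 * L n = ε * L n / 2 := by ring
  rw [e1] at h2 h3
  exact ⟨hstep _ _ _ (by positivity) h2, hstep _ _ _ (by positivity) h3⟩

end Pool.Agent.D0H51.AP
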