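import Mathlib
import Pool.Agent.D0H51.DR.Low

/-!
# Decreasing tuples with entries at least two, of variable length
-/

set_option autoImplicit false

namespace Pool.Agent.D0H51.AP

open Finset
open Pool.Agent.D0H51.DR (un)

/-- decreasing tuples `y_0 > ... > y_{r-1} ≥ 2` with entries at most `M`, followed by ones -/
def DY : (d r M : ℕ) → Finset (Fin d → ℕ)
  | _, 0, _ => {fun _ => 1}
  | 0, _ + 1, _ => ∅
  | d + 1, r + 1, M => (Ico 2 (M + 1)).biUnion fun j =>
      (DY d r (j - 1)).image fun y => (Fin.cons j y : Fin (d + 1) → ℕ)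

lemma mem_DY_zero {d M : ℕ} {y : Fin d → ℕ} : y ∈ DY d 0 M ↔ y = fun _ => 1 := by
  cases d <;> rw [DY, mem_singleton]

lemma mem_DY_succ {d r M : ℕ} {y : Fin (d + 1) → ℕ} : y ∈ DY (d + 1) (r + 1) M ↔
    2 ≤ y 0 ∧ y 0 ≤ M ∧ (fun k => y (Fin.succ k)) ∈ DY d r (y 0 - 1) := by
  rw [DY, mem_biUnion]
  constructor
  · rintro ⟨j, hj, hx⟩
    rw [mem_image] at hx
    obtain ⟨y', hy, rfl⟩ := hx
    rw [mem_Ico] at hj
    simp only [Fin.cons_zero, Fin.cons_succ]
    exact ⟨hj.1, by omega, hy⟩
  · rintro ⟨h1, h2, h3⟩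
    refine ⟨y 0, mem_Ico.2 ⟨h1, by omega⟩, mem_image.2 ⟨_, h3, ?_⟩⟩
    exact Fin.cons_self_tail y

lemma mem_DY : ∀ {d r M : ℕ} {y : Fin d → ℕ}, y ∈ DY d r M ↔
    r ≤ d ∧ (∀ k : Fin d, (k : ℕ) < r → 2 ≤ y k ∧ y k ≤ M) ∧ (∀ k : Fin d, r ≤ (k : ℕ) → y k = 1) ∧
    (∀ k k' : Fin d, k < k' → (k' : ℕ) < r → y k' < y k) := by
  intro d
  induction d with
  | zero =>
    intro r M y
    cases r with
    | zero =>
      rw [mem_DY_zero]
      constructor
      · intro _
        exact ⟨le_rfl, fun k => k.elim0, fun k => k.elim0, fun k => k.elim0⟩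
      · intro _
        funext k
        exact k.elim0
    | succ r =>
      rw [DY]
      constructor
      · intro h
        exact absurd h (notMem_empty _)
      · rintro ⟨h, -⟩
        omega
  | succ d ih =>
    intro r M y
    cases r with
    | zero =>
      rw [mem_DY_zero]
      constructor
      · rintro rfl
        exact ⟨Nat.zero_le _, fun k hk => absurd hk (Nat.not_lt_zero _), fun k _ => rfl,
          fun k k' _ hk => absurd hk (Nat.not_lt_zero _)⟩
      · rintro ⟨_, _, h, _⟩
        funext k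
        exact h k (Nat.zero_le _)
    | succ r =>
      rw [mem_DY_succ, ih]
      constructor
      · rintro ⟨h1, h2, h3, h4, h5, h6⟩
        refine ⟨by omega, fun k => ?_, fun k => ?_, fun k k' => ?_⟩
        · refine Fin.cases ?_ (fun k => ?_) k
          · intro _
            exact ⟨h1, h2⟩
          · intro hk
            rw [Fin.val_succ] at hk
            have := h4 k (by omega)
            exact ⟨this.1, by omega⟩
        · refine Fin.cases ?_ (fun k => ?_) k
          · intro hk
            simp at hk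
          · intro hk
            rw [Fin.val_succ] at hk
            exact h5 k (by omega)
        · refine Fin.cases ?_ (fun k' => ?_) k'
          · intro h
            exact absurd h (Fin.not_lt_zero _)
          · refine Fin.cases ?_ (fun k => ?_) k
            · intro _ hk
              rw [Fin.val_succ] at hk
              have := (h4 k' (by omega)).2
              omega
            · intro hkk hk
              rw [Fin.val_succ] at hk
              exact h6 k k' (Fin.succ_lt_succ_iff.1 hkk) (by omega)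
      · rintro ⟨h1, h2, h3, h4⟩
        have h5 := h2 0 (by simp)
        refine ⟨h5.1, h5.2, by omega, fun k hk => ?_, fun k hk => ?_, fun k k' hkk hk => ?_⟩
        · have e1 := h2 k.succ (by rw [Fin.val_succ]; omega)
          have e2 := h4 0 k.succ (Fin.succ_pos k) (by rw [Fin.val_succ]; omega)
          exact ⟨e1.1, by omega⟩
        · exact h3 k.succ (by rw [Fin.val_succ]; omega)
        · exact h4 k.succ k'.succ (Fin.succ_lt_succ_iff.2 hkk) (by rw [Fin.val_succ]; omega)

/-- truncated sums over `m > n_1 > ... > n_r ≥ 2` -/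
noncomputable def tr2 : List ℕ → ℕ → ℝ
  | [], _ => 1
  | s :: l, m => ∑ j ∈ Ico 2 m, tr2 l j / (j : ℝ) ^ s

/-- truncated sums over `m > n_1 > ... > n_r ≥ 1` -/
noncomputable def trunc : List ℕ → ℕ → ℝ
  | [], _ => 1
  | s :: l, m => ∑ j ∈ Ico 1 m, trunc l j / (j : ℝ) ^ s

/-- multiple zeta values -/
noncomputable def mzv : List ℕ → ℝ
  | [] => 1
  | s :: l => ∑' m : ℕ, trunc l (m + 1) / ((m + 1 : ℕ) : ℝ) ^ s

/-- the list as a function, with zeros -/
def pad (d : ℕ) (l : List ℕ) : Fin d → ℕ := fun k => l.getD k 0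

lemma pad_cons_zero (d s : ℕ) (l : List ℕ) : pad (d + 1) (s :: l) 0 = s := rfl

lemma pad_cons_succ (d s : ℕ) (l : List ℕ) (k : Fin d) : pad (d + 1) (s :: l) k.succ = pad d l k := rfl

lemma tr2_eq : ∀ (l : List ℕ) (d M : ℕ), l.length ≤ d →
    tr2 l (M + 1) = ∑ y ∈ DY d l.length M, un (pad d l) y := by
  intro l
  induction l with
  | nil =>
    intro d M _
    have h1 : DY d ([] : List ℕ).length M = {fun _ => 1} := by
      cases d <;> rw [List.length_nil, DY]
    rw [h1, sum_singleton, tr2, un]
    simp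
  | cons s l ih =>
    intro d M hd
    obtain ⟨d, rfl⟩ : ∃ d', d = d' + 1 := ⟨d - 1, by rw [List.length_cons] at hd; omega⟩
    rw [List.length_cons] at hd ⊢
    rw [tr2, DY, sum_biUnion]
    · refine sum_congr rfl fun j hj => ?_
      rw [mem_Ico] at hj
      rw [sum_image]
      · have h1 := ih d (j - 1) (by omega)
        rw [Nat.sub_add_cancel (by omega)] at h1
        rw [h1, sum_div]
        refine sum_congr rfl fun y _ => ?_
        rw [DR.un_cons]
        simp only [Fin.cons_zero, Fin.cons_succ]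
        rfl
      · intro y _ y' _ h
        exact (Fin.cons_injective2 (α := fun _ => ℕ) h).2
    · intro j _ j' _ hjj'
      rw [Function.onFun, disjoint_left]
      intro x hx hx'
      rw [mem_image] at hx hx'
      obtain ⟨y, _, rfl⟩ := hx
      obtain ⟨y', _, h⟩ := hx'
      exact hjj' (Fin.cons_injective2 (α := fun _ => ℕ) h).1.symm

lemma trunc_one {l : List ℕ} (hl : l ≠ []) {m : ℕ} (hm : m ≤ 1) : trunc l m = 0 := by
  cases l with
  | nil => exact absurd rfl hl
  | cons s l =>
    rw [trunc]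
    apply sum_eq_zero
    intro j hj
    rw [mem_Ico] at hj
    omega

lemma trunc_eq_tr2 : ∀ (l : List ℕ), l ≠ [] → ∀ m, 2 ≤ m →
    trunc l m = tr2 l m + tr2 l.dropLast m := by
  intro l
  induction l with
  | nil => intro h; exact absurd rfl h
  | cons s l ih =>
    intro _ m hm
    rw [trunc, tr2]
    have h0 : ∑ j ∈ Ico 1 m, trunc l j / (j : ℝ) ^ s =
        trunc l 1 + ∑ j ∈ Ico 2 m, trunc l j / (j : ℝ) ^ s := by
      rw [Finset.sum_eq_sum_Ico_succ_bot (by omega)]
      simp
    rw [h0]
    by_cases hl : l = []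
    · subst hl
      rw [trunc, List.dropLast_singleton, tr2]
      have h1 : ∀ j ∈ Ico 2 m, trunc [] j / (j : ℝ) ^ s = tr2 [] j / (j : ℝ) ^ s := by
        intro j _
        rw [trunc, tr2]
      rw [sum_congr rfl h1, add_comm]
    · rw [trunc_one hl le_rfl, zero_add, List.dropLast_cons_of_ne_nil hl, tr2, ← sum_add_distrib]
      refine sum_congr rfl fun j hj => ?_
      rw [mem_Ico] at hj
      rw [ih hl j hj.1, add_div]

lemma trunc_eq_trF : ∀ (l : List ℕ) (m : ℕ), trunc l m = DR.trF l.length l.get m := by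
  intro l
  induction l with
  | nil =>
    intro m
    rw [trunc]
    change _ = DR.trF 0 ([] : List ℕ).get m
    rw [DR.trF]
  | cons s l ih =>
    intro m
    rw [trunc]
    change _ = DR.trF (l.length + 1) (s :: l).get m
    rw [DR.trF]
    refine sum_congr rfl fun j _ => ?_
    rw [ih]
    rfl

/-- the truncation error -/
lemma mzv_err (l : List ℕ) (hl : l ≠ []) (h2 : ∀ s ∈ l, 2 ≤ s) (M : ℕ) (N : ℕ)
    (hN : ∀ s ∈ l, N ≤ s) :
    |mzv l - trunc l (M + 1)| ≤ 2 * DR.CC l.length * (((M : ℝ) + 1) ^ 2 / ((M : ℝ) + 1) ^ N) := by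
  cases l with
  | nil => exact absurd rfl hl
  | cons s l =>
    have e1 : mzv (s :: l) = DR.mzF l.length (s :: l).get := by
      rw [mzv, DR.mzF]
      refine tsum_congr fun m => ?_
      rw [trunc_eq_trF]
      rfl
    have e2 : trunc (s :: l) (M + 1) = ∑ x ∈ DR.DF (l.length + 1) (M + 1), un (s :: l).get x := by
      rw [trunc_eq_trF]
      exact DR.trF_eq _ _ _
    have e3 : ∀ k, 2 ≤ (s :: l).get k := fun k => h2 _ (List.get_mem _ _)
    have e4 := DR.trunc_err (R := l.length) (s := (s :: l).get) e3 M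
    rw [e1, e2]
    refine e4.trans ?_
    have e5 : DR.vv l.length (fun k => (s :: l).get k.succ) ≤ 1 := by
      unfold DR.vv
      apply DR.un_le_one
      intro k
      have := k.isLt
      omega
    have e6 := DR.vv_pos l.length (fun k => (s :: l).get k.succ)
    have e7 : ((M : ℝ) + 1) ^ N ≤ ((M : ℝ) + 1) ^ ((s :: l).get 0) :=
      pow_le_pow_right₀ (by linarith [Nat.cast_nonneg (α := ℝ) M]) (hN _ (List.get_mem _ _))
    have e8 : (DR.CC l.length : ℝ) ≤ DR.CC (s :: l).length := by
      have : DR.CC l.length ≤ DR.CC (l.length + 1) := by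
        rw [DR.CC]
        nlinarith [DR.CC_pos l.length, Nat.zero_le (l.length ^ 2 * DR.CC l.length),
          Nat.zero_le (l.length * DR.CC l.length)]
      exact_mod_cast this
    calc 2 * DR.CC l.length * DR.vv l.length (fun k => (s :: l).get k.succ) *
          (((M : ℝ) + 1) ^ 2 / ((M : ℝ) + 1) ^ ((s :: l).get 0))
        ≤ 2 * DR.CC (s :: l).length * 1 * (((M : ℝ) + 1) ^ 2 / ((M : ℝ) + 1) ^ N) := by gcongr
      _ = _ := by ring

end Pool.Agent.D0H51.AP
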