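import Mathlib
import Pool.Agent.D0H51.AP.Tup2
import Pool.Agent.D0H51.AP.Cls

/-!
# The class of a tuple of primes
-/

set_option autoImplicit false

namespace Pool.Agent.D0H51.AP

open Finset
open Pool.Agent.D0H51.DZ (np bp bp_prime bp_inj)

/-- the number of the prime factors -/
noncomputable def om (M y : ℕ) : ℕ := ∑ v : Fin (np M), y.factorization (bp M v)

lemma exists_bp {M l : ℕ} (hl : l.Prime) (hlM : l ≤ M) : ∃ v : Fin (np M), bp M v = l := by
  have h : l ∈ (range (M + 1)).filter Nat.Prime := by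
    rw [mem_filter, mem_range]
    exact ⟨by omega, hl⟩
  refine ⟨((range (M + 1)).filter Nat.Prime).equivFin ⟨l, h⟩, ?_⟩
  unfold bp
  rw [Equiv.symm_apply_apply]

lemma om_mul {M a b : ℕ} (ha : a ≠ 0) (hb : b ≠ 0) : om M (a * b) = om M a + om M b := by
  unfold om
  rw [← sum_add_distrib]
  refine sum_congr rfl fun v _ => ?_
  rw [Nat.factorization_mul ha hb]
  rfl

lemma om_prime {M l : ℕ} (hl : l.Prime) (hlM : l ≤ M) : om M l = 1 := by
  obtain ⟨v, hv⟩ := exists_bp hl hlM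
  unfold om
  rw [sum_eq_single v]
  · rw [hv, hl.factorization_self]
  · intro w _ hw
    apply Nat.factorization_eq_zero_of_not_dvd
    intro h
    have h1 := (Nat.prime_dvd_prime_iff_eq (bp_prime M w) hl).1 h
    exact hw (bp_inj M (h1.trans hv.symm))
  · intro h
    exact absurd (mem_univ _) h

lemma om_pos {M y : ℕ} (hy : 2 ≤ y) (hyM : y ≤ M) : 1 ≤ om M y := by
  have hl := Nat.minFac_prime (n := y) (by omega)
  obtain ⟨c, hc⟩ := Nat.minFac_dvd y
  have hc0 : c ≠ 0 := by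
    rintro rfl
    omega
  have hlM : y.minFac ≤ M := (Nat.minFac_le (by omega)).trans hyM
  have h1 := om_mul (M := M) hl.ne_zero hc0
  rw [← hc, om_prime hl hlM] at h1
  omega

lemma prime_of_om {M y : ℕ} (hy : 2 ≤ y) (hyM : y ≤ M) (h : om M y ≤ 1) : y.Prime := by
  have hl := Nat.minFac_prime (n := y) (by omega)
  obtain ⟨c, hc⟩ := Nat.minFac_dvd y
  have hc0 : c ≠ 0 := by
    rintro rfl
    omega
  have hlM : y.minFac ≤ M := (Nat.minFac_le (by omega)).trans hyM
  have h1 := om_mul (M := M) hl.ne_zero hc0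
  rw [← hc, om_prime hl hlM] at h1
  by_cases hc1 : c = 1
  · rw [hc1, mul_one] at hc
    rw [hc]
    exact hl
  · have h2 : 2 ≤ c := by omega
    have h3 : c ≤ M := by
      have : c ∣ y := ⟨y.minFac, by rw [mul_comm]; exact hc⟩
      exact (Nat.le_of_dvd (by omega) this).trans hyM
    have := om_pos h2 h3
    omega

lemma sum_ex {d M : ℕ} (b y : Fin d → ℕ) : ∑ v : Fin (np M), ex (bp M v) b y = ∑ k, b k * om M (y k) := by
  unfold ex om
  rw [sum_comm]
  refine sum_congr rfl fun k _ => ?_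
  rw [mul_sum]

lemma ex_self {d r M : ℕ} {y : Fin d → ℕ} (hy : y ∈ DY d r M)
    (hp : ∀ k : Fin d, (k : ℕ) < r → (y k).Prime) (b : Fin d → ℕ) {k : Fin d} (hk : (k : ℕ) < r) :
    ex (y k) b y = b k := by
  rw [mem_DY] at hy
  obtain ⟨_, _, h3, h4⟩ := hy
  unfold ex
  rw [sum_eq_single k]
  · rw [(hp k hk).factorization_self, mul_one]
  · intro j _ hj
    by_cases hjr : (j : ℕ) < r
    · have h5 : y j ≠ y k := by
        rcases lt_or_gt_of_ne hj with h | h
        · exact (h4 j k h hk).ne'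
        · exact (h4 k j h hjr).ne
      rw [Nat.factorization_eq_zero_of_not_dvd, mul_zero]
      intro h
      exact h5 ((Nat.prime_dvd_prime_iff_eq (hp k hk) (hp j hjr)).1 h).symm
    · rw [h3 j (by omega)]
      simp
  · intro h
    exact absurd (mem_univ _) h

/-- the set of the entries -/
def ent {d : ℕ} (r : ℕ) (y : Fin d → ℕ) : Finset ℕ := (univ.filter fun k : Fin d => (k : ℕ) < r).image y

lemma mem_ent {d r : ℕ} {y : Fin d → ℕ} {a : ℕ} : a ∈ ent r y ↔ ∃ k : Fin d, (k : ℕ) < r ∧ y k = a := by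
  unfold ent
  rw [mem_image]
  simp only [mem_filter, mem_univ, true_and]

lemma rank {d r M : ℕ} {y : Fin d → ℕ} (hy : y ∈ DY d r M) {k : Fin d} (hk : (k : ℕ) < r) :
    ((ent r y).filter fun a => y k < a).card = k := by
  rw [mem_DY] at hy
  obtain ⟨_, _, _, h4⟩ := hy
  have h1 : (ent r y).filter (fun a => y k < a) = (Iio k).image y := by
    ext a
    rw [mem_filter, mem_ent, mem_image]
    constructor
    · rintro ⟨⟨j, hj, rfl⟩, hlt⟩
      refine ⟨j, ?_, rfl⟩
      rw [mem_Iio]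
      by_contra hcon
      rw [not_lt] at hcon
      rcases hcon.eq_or_lt with h | h
      · rw [h] at hlt
        exact lt_irrefl _ hlt
      · have := h4 k j h hj
        omega
    · rintro ⟨j, hj, rfl⟩
      rw [mem_Iio] at hj
      have hjk : (j : ℕ) < k := hj
      exact ⟨⟨j, by omega, rfl⟩, h4 j k hj hk⟩
  rw [h1, card_image_of_injOn, Fin.card_Iio]
  intro i hi j hj hij
  rw [coe_Iio, Set.mem_Iio] at hi hj
  have hik : (i : ℕ) < k := hi
  have hjk : (j : ℕ) < k := hj
  by_contra hne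
  rcases lt_or_gt_of_ne hne with h | h
  · have := h4 i j h (by omega)
    omega
  · have := h4 j i h (by omega)
    omega

lemma eq_of_ent {d r r' M : ℕ} {y x : Fin d → ℕ} (hy : y ∈ DY d r M) (hx : x ∈ DY d r' M)
    (h : ent r y = ent r' x) : r = r' ∧ y = x := by
  have h1 : ∀ k : Fin d, (k : ℕ) < r → (k : ℕ) < r' ∧ y k = x k := by
    intro k hk
    have h2 : y k ∈ ent r' x := by
      rw [← h, mem_ent]
      exact ⟨k, hk, rfl⟩
    rw [mem_ent] at h2
    obtain ⟨j, hj, hjk⟩ := h2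
    have e1 := rank hy hk
    have e2 := rank hx hj
    rw [h, ← hjk, e2] at e1
    have e3 : j = k := Fin.ext e1
    subst e3
    exact ⟨hj, hjk.symm⟩
  have h2 : ∀ k : Fin d, (k : ℕ) < r' → (k : ℕ) < r := by
    intro k hk
    have h2 : x k ∈ ent r y := by
      rw [h, mem_ent]
      exact ⟨k, hk, rfl⟩
    rw [mem_ent] at h2
    obtain ⟨j, hj, hjk⟩ := h2
    have e1 := rank hx hk
    have e2 := rank hy hj
    rw [← h, ← hjk, e2] at e1
    have e3 : j = k := Fin.ext e1
    rw [← e3]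
    exact hj
  have hy' := mem_DY.1 hy
  have hx' := mem_DY.1 hx
  have hrr : r = r' := by
    by_contra hne
    rcases lt_or_gt_of_ne hne with h3 | h3
    · have := h2 ⟨r, by omega⟩ h3
      simp only at this
      omega
    · have := (h1 ⟨r', by omega⟩ h3).1
      simp only at this
      omega
  refine ⟨hrr, ?_⟩
  funext k
  by_cases hk : (k : ℕ) < r
  · exact (h1 k hk).2
  · rw [hy'.2.2.1 k (by omega), hx'.2.2.1 k (by omega)]

/-- **The class of a tuple of primes.** -/
theorem class_eq {d r r0 M N : ℕ} {y x0 b b0 : Fin d → ℕ} (hy : y ∈ DY d r M) (hx : x0 ∈ DY d r0 M)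
    (hp : ∀ k : Fin d, (k : ℕ) < r0 → (x0 k).Prime)
    (hb : ∀ k : Fin d, (k : ℕ) < r → N ≤ b k) (hb' : ∀ k : Fin d, r ≤ (k : ℕ) → b k = 0)
    (hb0 : ∀ k : Fin d, (k : ℕ) < r0 → N ≤ b0 k) (hb0' : ∀ k : Fin d, r0 ≤ (k : ℕ) → b0 k = 0)
    (hw : ∑ k, b0 k ≤ ∑ k, b k) (τ : ℝ) (hτ0 : 0 ≤ τ) (hτ : ((np M : ℝ) + 1) * τ < N)
    (hcl : ∀ v : Fin (np M), (ex (bp M v) b y : ℝ) ≤ ex (bp M v) b0 x0 + τ ∧
      (ex (bp M v) b0 x0 : ℝ) ≤ ex (bp M v) b y + τ) :
    r = r0 ∧ y = x0 ∧ ∀ k, (b k : ℝ) ≤ b0 k + τ ∧ (b0 k : ℝ) ≤ b k + τ := by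
  have hy' := mem_DY.1 hy
  have hx' := mem_DY.1 hx
  have hnp : (0 : ℝ) ≤ np M := Nat.cast_nonneg _
  have hτN : τ < N := by nlinarith
  -- the entries of y are primes
  have h1 : ∑ k, (b k : ℝ) * om M (y k) ≤ ∑ k, (b0 k : ℝ) * om M (x0 k) + np M * τ := by
    have e1 : ∀ b y : Fin d → ℕ, ∑ k, (b k : ℝ) * om M (y k) = ∑ v : Fin (np M), (ex (bp M v) b y : ℝ) := by
      intro b y
      have := sum_ex (M := M) b y
      have h2 : ((∑ v : Fin (np M), ex (bp M v) b y : ℕ) : ℝ) = ((∑ k, b k * om M (y k) : ℕ) : ℝ) := by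
        rw [this]
      push_cast at h2
      exact h2.symm
    rw [e1, e1]
    calc ∑ v : Fin (np M), (ex (bp M v) b y : ℝ) ≤ ∑ v : Fin (np M), ((ex (bp M v) b0 x0 : ℝ) + τ) :=
          sum_le_sum fun v _ => (hcl v).1
      _ = _ := by
          rw [sum_add_distrib, sum_const, card_univ, Fintype.card_fin, nsmul_eq_mul]
  have h2 : ∑ k, (b0 k : ℝ) * om M (x0 k) = ∑ k, (b0 k : ℝ) := by
    refine sum_congr rfl fun k _ => ?_
    by_cases hk : (k : ℕ) < r0
    · rw [om_prime (hp k hk) (hx'.2.1 k hk).2, Nat.cast_one, mul_one]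
    · rw [hb0' k (by omega)]
      simp
  have h3 : ∑ k, (b0 k : ℝ) ≤ ∑ k, (b k : ℝ) := by exact_mod_cast hw
  have h4 : ∀ k : Fin d, (k : ℕ) < r → (y k).Prime := by
    intro k0 hk0
    apply prime_of_om (hy'.2.1 k0 hk0).1 (hy'.2.1 k0 hk0).2
    by_contra hcon
    push Not at hcon
    have e1 : ∑ k, (b k : ℝ) + N ≤ ∑ k, (b k : ℝ) * om M (y k) := by
      have e2 : ∑ k, (b k : ℝ) + N = ∑ k, ((b k : ℝ) + if k = k0 then (N : ℝ) else 0) := by
        rw [sum_add_distrib]
        congr 1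
        rw [sum_ite_eq' univ k0 (fun _ => (N : ℝ)), if_pos (mem_univ _)]
      rw [e2]
      refine sum_le_sum fun k _ => ?_
      by_cases hk : (k : ℕ) < r
      · have e3 := om_pos (hy'.2.1 k hk).1 (hy'.2.1 k hk).2
        have e4 : (1 : ℝ) ≤ om M (y k) := by exact_mod_cast e3
        have e5 : (0 : ℝ) ≤ b k := Nat.cast_nonneg _
        split_ifs with h
        · subst h
          have e6 : (2 : ℝ) ≤ om M (y k) := by exact_mod_cast hcon
          have e7 : (N : ℝ) ≤ b k := by exact_mod_cast hb k hk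
          nlinarith
        · nlinarith
      · have hne : k ≠ k0 := by
          rintro rfl
          exact hk hk0
        rw [hb' k (by omega), if_neg hne]
        simp
    nlinarith
  -- the entries are the same
  have h5 : ent r y = ent r0 x0 := by
    ext a
    rw [mem_ent, mem_ent]
    constructor
    · rintro ⟨k, hk, rfl⟩
      obtain ⟨v, hv⟩ := exists_bp (h4 k hk) (hy'.2.1 k hk).2
      have e1 := (hcl v).1
      rw [hv, ex_self hy h4 b hk] at e1
      have e2 : (N : ℝ) ≤ b k := by exact_mod_cast hb k hk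
      have e3 : ex (y k) b0 x0 ≠ 0 := by
        intro h
        rw [h, Nat.cast_zero] at e1
        linarith
      unfold ex at e3
      rw [Ne, sum_eq_zero_iff] at e3
      push Not at e3
      obtain ⟨j, _, hj⟩ := e3
      rw [Nat.mul_ne_zero_iff] at hj
      have hjr : (j : ℕ) < r0 := by
        by_contra hcon
        exact hj.1 (hb0' j (by omega))
      refine ⟨j, hjr, ?_⟩
      have e4 := Nat.dvd_of_factorization_pos hj.2
      exact ((Nat.prime_dvd_prime_iff_eq (h4 k hk) (hp j hjr)).1 e4).symm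
    · rintro ⟨k, hk, rfl⟩
      obtain ⟨v, hv⟩ := exists_bp (hp k hk) (hx'.2.1 k hk).2
      have e1 := (hcl v).2
      rw [hv, ex_self hx hp b0 hk] at e1
      have e2 : (N : ℝ) ≤ b0 k := by exact_mod_cast hb0 k hk
      have e3 : ex (x0 k) b y ≠ 0 := by
        intro h
        rw [h, Nat.cast_zero] at e1
        linarith
      unfold ex at e3
      rw [Ne, sum_eq_zero_iff] at e3
      push Not at e3
      obtain ⟨j, _, hj⟩ := e3
      rw [Nat.mul_ne_zero_iff] at hj
      have hjr : (j : ℕ) < r := by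
        by_contra hcon
        exact hj.1 (hb' j (by omega))
      refine ⟨j, hjr, ?_⟩
      have e4 := Nat.dvd_of_factorization_pos hj.2
      exact ((Nat.prime_dvd_prime_iff_eq (hp k hk) (h4 j hjr)).1 e4).symm
  obtain ⟨hr, hyx⟩ := eq_of_ent hy hx h5
  refine ⟨hr, hyx, fun k => ?_⟩
  by_cases hk : (k : ℕ) < r
  · obtain ⟨v, hv⟩ := exists_bp (h4 k hk) (hy'.2.1 k hk).2
    have e1 := hcl v
    rw [hv] at e1
    have e2 : ex (y k) b0 x0 = b0 k := by
      rw [hyx]
      exact ex_self hx hp b0 (by omega)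
    rw [ex_self hy h4 b hk, e2] at e1
    exact e1
  · rw [hb' k (by omega), hb0' k (by omega)]
    simp [hτ0]

end Pool.Agent.D0H51.AP
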