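import Mathlib

/-!
# A separated grid of prime numbers
-/

set_option autoImplicit false

namespace Pool.Agent.D0H51.AP

open Finset

/-- a fast growing sequence of primes -/
theorem exists_seq (ρ : ℝ) : ∃ f : ℕ → ℕ, (∀ n, (f n).Prime) ∧ (∀ n, f n < f (n + 1)) ∧
    ∀ n, Real.log (f n) + 2 * ρ ≤ Real.log (f (n + 1)) := by
  have h : ∀ a : ℕ, ∃ b : ℕ, b.Prime ∧ a < b ∧ (0 < a → Real.log a + 2 * ρ ≤ Real.log b) := by
    intro a
    obtain ⟨K, hK⟩ := exists_nat_ge (Real.exp (2 * ρ))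
    obtain ⟨b, hb, hbp⟩ := Nat.exists_infinite_primes (a * K + a + 2)
    refine ⟨b, hbp, by nlinarith [Nat.zero_le (a * K)], fun ha => ?_⟩
    have ha0 : (0 : ℝ) < a := by exact_mod_cast ha
    have h1 : Real.log a + 2 * ρ = Real.log (a * Real.exp (2 * ρ)) := by
      rw [Real.log_mul ha0.ne' (Real.exp_pos _).ne', Real.log_exp]
    rw [h1]
    apply Real.log_le_log (by positivity)
    have h2 : (a : ℝ) * Real.exp (2 * ρ) ≤ a * K := by gcongr
    refine h2.trans ?_
    have h3 : a * K ≤ b := by omega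
    exact_mod_cast h3
  choose g hg1 hg2 hg3 using h
  refine ⟨fun n => Nat.rec 2 (fun _ a => g a) n, fun n => ?_, fun n => hg2 _, fun n => ?_⟩
  · cases n with
    | zero => exact Nat.prime_two
    | succ n => exact hg1 _
  · apply hg3
    cases n with
    | zero => exact Nat.two_pos
    | succ n => exact (hg1 _).pos

/-- **The grid.** -/
theorem exists_grid (d Q : ℕ) (ρ : ℝ) (hρ : 0 ≤ ρ) : ∃ G : Fin d → Finset ℕ,
    (∀ k, ∀ x ∈ G k, Nat.Prime x) ∧ (∀ k, Q < (G k).card) ∧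
    (∀ k, ∀ x ∈ G k, ∀ x' ∈ G k, x ≠ x' → 2 * ρ ≤ |Real.log x - Real.log x'|) ∧
    (∀ k k', k < k' → ∀ x ∈ G k, ∀ x' ∈ G k', x' < x) := by
  obtain ⟨f, hf1, hf2, hf3⟩ := exists_seq ρ
  have hmono : StrictMono f := strictMono_nat_of_lt_succ hf2
  have hsep : ∀ n n', n < n' → Real.log (f n) + 2 * ρ ≤ Real.log (f n') := by
    intro n n' h
    refine (hf3 n).trans ?_
    have h1 : f (n + 1) ≤ f n' := hmono.monotone h
    apply Real.log_le_log
    · exact_mod_cast (hf1 _).pos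
    · exact_mod_cast h1
  refine ⟨fun k => (Ico ((d - (k : ℕ)) * (Q + 1)) ((d - (k : ℕ) + 1) * (Q + 1))).image f,
    fun k x hx => ?_, fun k => ?_, fun k x hx x' hx' hne => ?_, fun k k' hkk x hx x' hx' => ?_⟩
  · rw [mem_image] at hx
    obtain ⟨n, _, rfl⟩ := hx
    exact hf1 n
  · rw [card_image_of_injective _ hmono.injective, Nat.card_Ico]
    have : (d - (k : ℕ) + 1) * (Q + 1) = (d - (k : ℕ)) * (Q + 1) + (Q + 1) := by ring
    omega
  · rw [mem_image] at hx hx'
    obtain ⟨n, _, rfl⟩ := hx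
    obtain ⟨n', _, rfl⟩ := hx'
    rcases lt_trichotomy n n' with h | h | h
    · have := hsep n n' h
      rw [abs_sub_comm, abs_of_nonneg (by linarith)]
      linarith
    · exact absurd (by rw [h]) hne
    · have := hsep n' n h
      rw [abs_of_nonneg (by linarith)]
      linarith
  · rw [mem_image] at hx hx'
    obtain ⟨n, hn, rfl⟩ := hx
    obtain ⟨n', hn', rfl⟩ := hx'
    rw [mem_Ico] at hn hn'
    apply hmono
    have h1 : d - (k' : ℕ) + 1 ≤ d - (k : ℕ) := by
      have h2 : (k : ℕ) < k' := hkk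
      have := k'.isLt
      omega
    have h2 := Nat.mul_le_mul_right (Q + 1) h1
    omega

end Pool.Agent.D0H51.AP
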