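import Mathlib

/-!
# Nonvanishing of sums over boundedly many progressions of exponent vectors
-/

set_option autoImplicit false

namespace Pool.Agent.D0H51.AP

open Finset

/-- points of a separated grid avoid the neighbourhoods of finitely many affine hyperplanes -/
theorem avoid (ρ : ℝ) : ∀ (d : ℕ) (S : Fin d → Finset ℝ) (H : Finset (ℝ × (Fin d → ℤ))),
    (∀ k, ∀ s ∈ S k, ∀ s' ∈ S k, s ≠ s' → 2 * ρ ≤ |s - s'|) → (∀ k, H.card < (S k).card) →
    ∃ z : Fin d → ℝ, (∀ k, z k ∈ S k) ∧
      ∀ h ∈ H, h.2 ≠ 0 → ρ ≤ |h.1 + ∑ k, (h.2 k : ℝ) * z k| := by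
  intro d
  induction d with
  | zero =>
    intro S H _ _
    refine ⟨fun k => k.elim0, fun k => k.elim0, fun h _ hh => ?_⟩
    exact absurd (funext fun k => k.elim0) hh
  | succ d ih =>
    intro S H hS hc
    classical
    -- the first coordinate
    obtain ⟨z0, hz0, hz0'⟩ : ∃ z0 ∈ S 0, ∀ h ∈ H, h.2 0 ≠ 0 → (fun k : Fin d => h.2 k.succ) = 0 →
        ρ ≤ |h.1 + (h.2 0 : ℝ) * z0| := by
      by_contra hcon
      push Not at hcon
      choose! g hg1 hg2 hg3 hg4 using hcon
      have hinj : Set.InjOn g (S 0) := by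
        intro s hs s' hs' hss
        by_contra hne
        have h1 := hS 0 s hs s' hs' hne
        have h2 := hg4 s hs
        have h3 := hg4 s' hs'
        rw [← hss] at h3
        have h4 : (1 : ℝ) ≤ |((g s).2 0 : ℝ)| := by
          have := Int.one_le_abs (hg2 s hs)
          exact_mod_cast this
        have h5 : |((g s).2 0 : ℝ)| * |s - s'| < 2 * ρ := by
          rw [← abs_mul]
          have e1 : ((g s).2 0 : ℝ) * (s - s') =
              ((g s).1 + ((g s).2 0 : ℝ) * s) - ((g s).1 + ((g s).2 0 : ℝ) * s') := by ring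
          rw [e1]
          refine (abs_sub _ _).trans_lt ?_
          linarith
        have h6 : |s - s'| ≤ |((g s).2 0 : ℝ)| * |s - s'| :=
          le_mul_of_one_le_left (abs_nonneg _) h4
        linarith
      have h1 := Finset.card_le_card_of_injOn g (fun s hs => hg1 s hs) hinj
      have h2 := hc 0
      omega
    obtain ⟨z, hz1, hz2⟩ := ih (fun k => S k.succ)
      (H.image fun h => (h.1 + (h.2 0 : ℝ) * z0, fun k : Fin d => h.2 k.succ))
      (fun k => hS k.succ) (fun k => lt_of_le_of_lt card_image_le (hc k.succ))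
    refine ⟨Fin.cons z0 z, fun k => ?_, fun h hh hne => ?_⟩
    · refine Fin.cases ?_ (fun k => ?_) k
      · exact hz0
      · exact hz1 k
    · rw [Fin.sum_univ_succ]
      simp only [Fin.cons_zero, Fin.cons_succ]
      by_cases ht : (fun k : Fin d => h.2 k.succ) = 0
      · have h1 : ∑ k : Fin d, (h.2 k.succ : ℝ) * z k = 0 := by
          refine sum_eq_zero fun k _ => ?_
          have := congrFun ht k
          simp only [Pi.zero_apply] at this
          rw [this]
          simp
        rw [h1, add_zero]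
        refine hz0' h hh ?_ ht
        intro h0
        apply hne
        funext k
        refine Fin.cases ?_ (fun k => ?_) k
        · exact h0
        · exact congrFun ht k
      · rw [← add_assoc]
        exact hz2 _ (mem_image_of_mem _ hh) ht

/-- a geometric sum over a set of nonzero natural numbers -/
lemma geom_le {q : ℝ} (hq : 0 ≤ q) (hq2 : q ≤ 1 / 2) (A : Finset ℕ) (h0 : 0 ∉ A) :
    ∑ i ∈ A, q ^ i ≤ 2 * q := by
  have h1 : A ⊆ (range (A.sup id + 1)).erase 0 := by
    intro i hi
    rw [mem_erase, mem_range]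
    refine ⟨fun h => h0 (h ▸ hi), ?_⟩
    have := Finset.le_sup (f := id) hi
    simp only [id] at this
    omega
  refine (sum_le_sum_of_subset_of_nonneg h1 fun i _ _ => by positivity).trans ?_
  set n := A.sup id
  have h2 : ∑ i ∈ (range (n + 1)).erase 0, q ^ i + q ^ 0 = ∑ i ∈ range (n + 1), q ^ i :=
    sum_erase_add _ _ (by rw [mem_range]; omega)
  have h3 : (∑ i ∈ range (n + 1), q ^ i) * (1 - q) = 1 - q ^ (n + 1) := by
    have := geom_sum_mul q (n + 1)
    linarith
  have h4 : 0 ≤ q ^ (n + 1) := by positivity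
  rw [pow_zero] at h2
  set T := ∑ i ∈ (range (n + 1)).erase 0, q ^ i with hT
  have hT0 : 0 ≤ T := sum_nonneg fun i _ => by positivity
  rw [← h2] at h3
  nlinarith

/-- **Nonvanishing.** -/
theorem nv (d m B : ℕ) (ρ : ℝ) (hρ : 4 * (m : ℝ) + 8 * B + 2 ≤ Real.exp ρ) (S : Fin d → Finset ℝ)
    (hS : ∀ k, ∀ s ∈ S k, ∀ s' ∈ S k, s ≠ s' → 2 * ρ ≤ |s - s'|)
    (hcard : ∀ k, 4 * m * m + m < (S k).card) (U : Finset (Fin d → ℕ)) (c : (Fin d → ℕ) → ℤ)
    (lab : (Fin d → ℕ) → Fin m) (V : Fin m → Fin d → ℤ) (hc : ∀ u ∈ U, c u ≠ 0)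
    (hB : ∀ u ∈ U, ∀ u' ∈ U, lab u = lab u' → |c u'| ≤ B * |c u|)
    (hcol : ∀ u ∈ U, ∀ u' ∈ U, lab u = lab u' → ∃ i : ℤ, ∀ k, (u k : ℤ) = u' k + i * V (lab u) k)
    (hU : U.Nonempty) :
    ∃ z : Fin d → ℝ, (∀ k, z k ∈ S k) ∧
      ∑ u ∈ U, (c u : ℝ) * Real.exp (-∑ k, (u k : ℝ) * z k) ≠ 0 := by
  classical
  -- the fibres
  set Ut : Fin m → Finset (Fin d → ℕ) := fun t => U.filter fun u => lab u = t with hUt
  have hmemUt : ∀ t u, u ∈ Ut t ↔ u ∈ U ∧ lab u = t := by
    intro t u
    rw [hUt]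
    simp only [mem_filter]
  -- the end points
  have hends : ∀ t, (Ut t).Nonempty → ∃ a ∈ Ut t, ∃ b ∈ Ut t, ∀ u ∈ Ut t, ∃ i j : ℕ,
      (∀ k, (u k : ℤ) = a k + i * V t k) ∧ (∀ k, (u k : ℤ) = b k - j * V t k) := by
    intro t ht
    obtain ⟨u0, hu0⟩ := ht
    have hi : ∀ u ∈ Ut t, ∃ i : ℤ, ∀ k, (u k : ℤ) = u0 k + i * V t k := by
      intro u hu
      rw [hmemUt] at hu hu0
      obtain ⟨i, hi⟩ := hcol u hu.1 u0 hu0.1 (by rw [hu.2, hu0.2])
      refine ⟨i, ?_⟩
      rw [hu.2] at hi
      exact hi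
    choose! i hi using hi
    obtain ⟨a, ha, hamin⟩ := (Ut t).exists_min_image i ⟨u0, hu0⟩
    obtain ⟨b, hb, hbmax⟩ := (Ut t).exists_max_image i ⟨u0, hu0⟩
    refine ⟨a, ha, b, hb, fun u hu => ⟨(i u - i a).toNat, (i b - i u).toNat, fun k => ?_, fun k => ?_⟩⟩
    · rw [Int.toNat_of_nonneg (by have := hamin u hu; omega), hi u hu k, hi a ha k]
      ring
    · rw [Int.toNat_of_nonneg (by have := hbmax u hu; omega), hi u hu k, hi b hb k]
      ring
  choose! a ha b hb hab using hends
  -- the conditions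
  set E : Finset (Fin d → ℕ) := (univ.image a) ∪ (univ.image b) with hE
  have hEcard : E.card ≤ 2 * m := by
    refine (card_union_le _ _).trans ?_
    have h1 : (univ.image a).card ≤ m := card_image_le.trans (by simp)
    have h2 : (univ.image b).card ≤ m := card_image_le.trans (by simp)
    omega
  set H : Finset (ℝ × (Fin d → ℤ)) := ((E ×ˢ E).image fun p =>
      (Real.log |(c p.1 : ℝ)| - Real.log |(c p.2 : ℝ)|, fun k => (p.2 k : ℤ) - p.1 k)) ∪
      univ.image (fun t => ((0 : ℝ), V t)) with hH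
  have hHcard : H.card ≤ 4 * m * m + m := by
    refine (card_union_le _ _).trans ?_
    have h1 : ((E ×ˢ E).image fun p =>
      (Real.log |(c p.1 : ℝ)| - Real.log |(c p.2 : ℝ)|, fun k => (p.2 k : ℤ) - p.1 k)).card ≤
        4 * m * m := by
      refine card_image_le.trans ?_
      rw [card_product]
      calc E.card * E.card ≤ (2 * m) * (2 * m) := Nat.mul_le_mul hEcard hEcard
        _ = 4 * m * m := by ring
    have h2 : (univ.image (fun t => ((0 : ℝ), V t))).card ≤ m := card_image_le.trans (by simp)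
    omega
  obtain ⟨z, hz1, hz2⟩ := avoid ρ d S H hS (fun k => lt_of_le_of_lt hHcard (hcard k))
  refine ⟨z, hz1, ?_⟩
  -- the sizes
  set g : (Fin d → ℕ) → ℝ := fun u => ∑ k, (u k : ℝ) * z k with hg
  set T : (Fin d → ℕ) → ℝ := fun u => |(c u : ℝ)| * Real.exp (-(g u)) with hT
  have hq : Real.exp (-ρ) * (4 * (m : ℝ) + 8 * B + 2) ≤ 1 := by
    rw [Real.exp_neg, inv_mul_le_iff₀ (Real.exp_pos _), mul_one]
    exact hρ
  have hqpos : 0 < Real.exp (-ρ) := Real.exp_pos _
  have hm0 : (0 : ℝ) ≤ m := Nat.cast_nonneg _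
  have hB0 : (0 : ℝ) ≤ B := Nat.cast_nonneg _
  have hq2 : Real.exp (-ρ) ≤ 1 / 2 := by nlinarith
  have hqB : Real.exp (-ρ) * (8 * B) ≤ 1 := by nlinarith
  have hqm : Real.exp (-ρ) * (4 * m) ≤ 1 := by nlinarith
  -- one fibre
  have hfib : ∀ t, (Ut t).Nonempty → ∃ w ∈ Ut t, (w = a t ∨ w = b t) ∧
      |∑ u ∈ Ut t, (c u : ℝ) * Real.exp (-(g u)) - (c w : ℝ) * Real.exp (-(g w))| ≤ 1 / 4 * T w := by
    intro t ht
    have hzt : V t ≠ 0 → ρ ≤ |∑ k, (V t k : ℝ) * z k| := by
      intro hV
      have h1 := hz2 ((0 : ℝ), V t) (by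
        rw [hH, mem_union]
        exact Or.inr (mem_image_of_mem _ (mem_univ t))) hV
      simp only [zero_add] at h1
      exact h1
    set v := ∑ k, (V t k : ℝ) * z k with hv
    -- the general estimate
    have key : ∀ w ∈ Ut t, ∀ i : (Fin d → ℕ) → ℕ, (∀ u ∈ Ut t, g u = g w + i u * |v|) →
        (∀ u ∈ Ut t, ∀ u' ∈ Ut t, i u = i u' → u = u') → (i w = 0) →
        (∀ u ∈ Ut t, u ≠ w → ρ ≤ |v|) →
        |∑ u ∈ Ut t, (c u : ℝ) * Real.exp (-(g u)) - (c w : ℝ) * Real.exp (-(g w))| ≤
          1 / 4 * T w := by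
      intro w hw i hi hinj hiw hvρ
      rw [← add_sum_erase _ _ hw, add_sub_cancel_left]
      by_cases hne : ((Ut t).erase w).Nonempty
      · obtain ⟨u1, hu1⟩ := hne
        rw [mem_erase] at hu1
        have hvρ' := hvρ u1 hu1.2 hu1.1
        have hr : Real.exp (-|v|) ≤ Real.exp (-ρ) := Real.exp_le_exp.2 (by linarith)
        have hTw : T w = |(c w : ℝ)| * Real.exp (-(g w)) := rfl
        calc |∑ u ∈ (Ut t).erase w, (c u : ℝ) * Real.exp (-(g u))|
            ≤ ∑ u ∈ (Ut t).erase w, |(c u : ℝ) * Real.exp (-(g u))| := abs_sum_le_sum_abs _ _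
          _ ≤ ∑ u ∈ (Ut t).erase w, (B * T w) * (Real.exp (-|v|)) ^ (i u) := by
              refine sum_le_sum fun u hu => ?_
              rw [mem_erase] at hu
              have h1 := (hmemUt t u).1 hu.2
              have h2 := (hmemUt t w).1 hw
              have h3 := hB w h2.1 u h1.1 (by rw [h1.2, h2.2])
              have h4 : |(c u : ℝ)| ≤ B * |(c w : ℝ)| := by exact_mod_cast h3
              rw [abs_mul, abs_of_pos (Real.exp_pos _), hi u hu.2, hTw]
              have h5 : Real.exp (-(g w + i u * |v|)) = Real.exp (-(g w)) * Real.exp (-|v|) ^ (i u) := by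
                rw [← Real.exp_nat_mul, ← Real.exp_add]
                congr 1
                ring
              rw [h5]
              have h6 : 0 < Real.exp (-(g w)) := Real.exp_pos _
              have h7 : 0 < Real.exp (-|v|) ^ (i u) := by positivity
              calc |(c u : ℝ)| * (Real.exp (-(g w)) * Real.exp (-|v|) ^ (i u))
                  ≤ (B * |(c w : ℝ)|) * (Real.exp (-(g w)) * Real.exp (-|v|) ^ (i u)) := by gcongr
                _ = _ := by ring
          _ = (B * T w) * ∑ j ∈ ((Ut t).erase w).image i, (Real.exp (-|v|)) ^ j := by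
              rw [← mul_sum, sum_image]
              intro u hu u' hu' h
              exact hinj u (mem_of_mem_erase hu) u' (mem_of_mem_erase hu') h
          _ ≤ (B * T w) * (2 * Real.exp (-|v|)) := by
              have hTw0 : 0 ≤ T w := by rw [hTw]; positivity
              refine mul_le_mul_of_nonneg_left (geom_le (Real.exp_pos _).le (hr.trans hq2) _ ?_)
                (by positivity)
              rw [mem_image]
              rintro ⟨u, hu, hu0⟩
              rw [mem_erase] at hu
              exact hu.1 (hinj u hu.2 w hw (by rw [hu0, hiw]))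
          _ ≤ (B * T w) * (2 * Real.exp (-ρ)) := by
              have hTw0 : 0 ≤ T w := by rw [hTw]; positivity
              gcongr
          _ ≤ 1 / 4 * T w := by
              have hTw0 : 0 ≤ T w := by rw [hTw]; positivity
              nlinarith
      · rw [not_nonempty_iff_eq_empty] at hne
        rw [hne, sum_empty, abs_zero]
        have : 0 ≤ T w := by
          change 0 ≤ |(c w : ℝ)| * Real.exp (-(g w))
          positivity
        positivity
    have hgi : ∀ u w : Fin d → ℕ, ∀ i : ℤ, (∀ k, (u k : ℤ) = w k + i * V t k) →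
        g u = g w + i * v := by
      intro u w i h
      rw [hg, hv]
      simp only
      rw [mul_sum, ← sum_add_distrib]
      refine sum_congr rfl fun k _ => ?_
      have h1 : (u k : ℝ) = w k + i * V t k := by exact_mod_cast h k
      rw [h1]
      ring
    have huw : ∀ u ∈ Ut t, ∀ w ∈ Ut t, u ≠ w → V t ≠ 0 := by
      intro u hu w hw huw hV
      obtain ⟨i, j, h1, h2⟩ := hab t ht u hu
      obtain ⟨i', j', h1', h2'⟩ := hab t ht w hw
      apply huw
      funext k
      have e1 := h1 k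
      have e2 := h1' k
      rw [hV] at e1 e2
      simp only [Pi.zero_apply, mul_zero, add_zero] at e1 e2
      omega
    by_cases hV : V t = 0
    · have hall : ∀ u ∈ Ut t, u = a t := by
        intro u hu
        by_contra hne
        exact huw u hu _ (ha t ht) hne hV
      refine ⟨a t, ha t ht, Or.inl rfl, key (a t) (ha t ht) (fun _ => 0) ?_ ?_ rfl ?_⟩
      · intro u hu
        rw [hall u hu]
        simp
      · intro u hu u' hu' _
        rw [hall u hu, hall u' hu']
      · intro u hu hne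
        exact absurd (hall u hu) hne
    choose! i j hij1 hij2 using hab t ht
    have hzero : ∀ n : ℕ, (∀ k, ((n : ℤ)) * V t k = 0) → n = 0 := by
      intro n hn
      by_contra hne
      apply hV
      funext k
      rcases mul_eq_zero.1 (hn k) with h4 | h4
      · exact absurd (by exact_mod_cast h4) hne
      · exact h4
    rcases le_total 0 v with hv0 | hv0
    · refine ⟨a t, ha t ht, Or.inl rfl, key (a t) (ha t ht) i ?_ ?_ ?_ ?_⟩
      · intro u hu
        rw [abs_of_nonneg hv0, hgi u (a t) (i u) (by exact_mod_cast hij1 u hu)]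
        push_cast
        rfl
      · intro u hu u' hu' h
        funext k
        have e1 := hij1 u hu k
        have e2 := hij1 u' hu' k
        rw [h, ← e2] at e1
        exact_mod_cast e1
      · apply hzero
        intro k
        have h1 := hij1 (a t) (ha t ht) k
        linarith
      · intro u hu hne
        exact hzt (huw u hu _ (ha t ht) hne)
    · refine ⟨b t, hb t ht, Or.inr rfl, key (b t) (hb t ht) j ?_ ?_ ?_ ?_⟩
      · intro u hu
        rw [abs_of_nonpos hv0, hgi u (b t) (-(j u : ℤ)) (by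
          intro k
          rw [hij2 u hu k]
          ring)]
        push_cast
        ring
      · intro u hu u' hu' h
        funext k
        have e1 := hij2 u hu k
        have e2 := hij2 u' hu' k
        rw [h, ← e2] at e1
        exact_mod_cast e1
      · apply hzero
        intro k
        have h1 := hij2 (b t) (hb t ht) k
        linarith
      · intro u hu hne
        exact hzt (huw u hu _ (hb t ht) hne)
  choose! w hw hwab hwT using hfib
  -- the largest fibre
  set J : Finset (Fin m) := univ.filter fun t => (Ut t).Nonempty with hJ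
  have hJne : J.Nonempty := by
    obtain ⟨u, hu⟩ := hU
    exact ⟨lab u, by rw [hJ, mem_filter]; exact ⟨mem_univ _, u, by rw [hmemUt]; exact ⟨hu, rfl⟩⟩⟩
  obtain ⟨t0, ht0, hmax⟩ := J.exists_max_image (fun t => T (w t)) hJne
  have hJmem : ∀ t, t ∈ J ↔ (Ut t).Nonempty := by
    intro t
    rw [hJ]
    simp only [mem_filter, mem_univ, true_and]
  have hTpos : ∀ t ∈ J, 0 < T (w t) := by
    intro t ht
    have h1 := (hmemUt t _).1 (hw t ((hJmem t).1 ht))
    change 0 < |(c (w t) : ℝ)| * Real.exp (-(g (w t)))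
    have h2 : (c (w t) : ℝ) ≠ 0 := by exact_mod_cast hc _ h1.1
    positivity
  have hwE : ∀ t ∈ J, w t ∈ E := by
    intro t ht
    rw [hE, mem_union]
    rcases hwab t ((hJmem t).1 ht) with h | h
    · rw [h]; exact Or.inl (mem_image_of_mem _ (mem_univ t))
    · rw [h]; exact Or.inr (mem_image_of_mem _ (mem_univ t))
  have hlogT : ∀ t ∈ J, Real.log (T (w t)) = Real.log |(c (w t) : ℝ)| - g (w t) := by
    intro t ht
    have h1 := (hmemUt t _).1 (hw t ((hJmem t).1 ht))
    have h2 : (c (w t) : ℝ) ≠ 0 := by exact_mod_cast hc _ h1.1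
    change Real.log (|(c (w t) : ℝ)| * Real.exp (-(g (w t)))) = _
    rw [Real.log_mul (abs_ne_zero.2 h2) (Real.exp_pos _).ne', Real.log_exp]
    ring
  have hsep : ∀ t ∈ J, t ≠ t0 → T (w t) ≤ Real.exp (-ρ) * T (w t0) := by
    intro t ht hne
    have h1 := (hmemUt t _).1 (hw t ((hJmem t).1 ht))
    have h2 := (hmemUt t0 _).1 (hw t0 ((hJmem t0).1 ht0))
    have h3 := hz2 (Real.log |(c (w t0) : ℝ)| - Real.log |(c (w t) : ℝ)|,
      fun k => (w t k : ℤ) - w t0 k) (by
        rw [hH, mem_union]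
        exact Or.inl (mem_image.2 ⟨(w t0, w t), mem_product.2 ⟨hwE t0 ht0, hwE t ht⟩, rfl⟩)) (by
        intro h0
        apply hne
        have h4 : w t = w t0 := by
          funext k
          have := congrFun h0 k
          simp only [Pi.zero_apply] at this
          omega
        rw [← h1.2, h4, h2.2])
    have h5 : Real.log |(c (w t0) : ℝ)| - Real.log |(c (w t) : ℝ)| +
        ∑ k, (((w t k : ℤ) - w t0 k : ℤ) : ℝ) * z k = Real.log (T (w t0)) - Real.log (T (w t)) := by
      rw [hlogT t ht, hlogT t0 ht0, hg]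
      simp only
      have h6 : ∑ k, (((w t k : ℤ) - w t0 k : ℤ) : ℝ) * z k =
          ∑ k, (w t k : ℝ) * z k - ∑ k, (w t0 k : ℝ) * z k := by
        rw [← sum_sub_distrib]
        refine sum_congr rfl fun k _ => ?_
        push_cast
        ring
      rw [h6]
      ring
    simp only at h3
    rw [h5] at h3
    have h7 := Real.log_le_log (hTpos t ht) (hmax t ht)
    rw [abs_of_nonneg (by linarith)] at h3
    have h8 : Real.log (T (w t)) ≤ Real.log (T (w t0)) - ρ := by linarith
    rw [← Real.exp_log (hTpos t ht)]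
    conv_rhs => rw [← Real.exp_log (hTpos t0 ht0)]
    rw [← Real.exp_add]
    apply Real.exp_le_exp.2
    linarith
  -- the sum
  have hsum : ∑ u ∈ U, (c u : ℝ) * Real.exp (-∑ k, (u k : ℝ) * z k) =
      ∑ t ∈ J, ∑ u ∈ Ut t, (c u : ℝ) * Real.exp (-(g u)) := by
    rw [← sum_fiberwise_of_maps_to (s := U) (t := J) (g := lab) (fun u hu => by
      rw [hJmem]
      exact ⟨u, by rw [hmemUt]; exact ⟨hu, rfl⟩⟩)]
  rw [hsum, ← add_sum_erase _ _ ht0]
  intro hzero
  have hT0 := hTpos t0 ht0
  have h1 := hwT t0 ((hJmem t0).1 ht0)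
  have h2 : 3 / 4 * T (w t0) ≤ |∑ u ∈ Ut t0, (c u : ℝ) * Real.exp (-(g u))| := by
    have h3 : |(c (w t0) : ℝ) * Real.exp (-(g (w t0)))| = T (w t0) := by
      rw [abs_mul, abs_of_pos (Real.exp_pos _)]
    have h4 : |(c (w t0) : ℝ) * Real.exp (-(g (w t0)))| ≤
        |∑ u ∈ Ut t0, (c u : ℝ) * Real.exp (-(g u))| +
        |∑ u ∈ Ut t0, (c u : ℝ) * Real.exp (-(g u)) - (c (w t0) : ℝ) * Real.exp (-(g (w t0)))| := by
      have h5 : (c (w t0) : ℝ) * Real.exp (-(g (w t0))) = ∑ u ∈ Ut t0, (c u : ℝ) * Real.exp (-(g u)) -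
          (∑ u ∈ Ut t0, (c u : ℝ) * Real.exp (-(g u)) -
            (c (w t0) : ℝ) * Real.exp (-(g (w t0)))) := by ring
      calc |(c (w t0) : ℝ) * Real.exp (-(g (w t0)))| = |∑ u ∈ Ut t0, (c u : ℝ) * Real.exp (-(g u)) -
          (∑ u ∈ Ut t0, (c u : ℝ) * Real.exp (-(g u)) -
            (c (w t0) : ℝ) * Real.exp (-(g (w t0))))| := by rw [← h5]
        _ ≤ _ := abs_sub _ _
    rw [h3] at h4
    linarith
  have h3 : |∑ t ∈ J.erase t0, ∑ u ∈ Ut t, (c u : ℝ) * Real.exp (-(g u))| ≤ 1 / 2 * T (w t0) := by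
    refine (abs_sum_le_sum_abs _ _).trans ?_
    have h4 : ∀ t ∈ J.erase t0, |∑ u ∈ Ut t, (c u : ℝ) * Real.exp (-(g u))| ≤
        2 * (Real.exp (-ρ) * T (w t0)) := by
      intro t ht
      rw [mem_erase] at ht
      have h5 := hwT t ((hJmem t).1 ht.2)
      have h6 := hsep t ht.2 ht.1
      have h7 := hTpos t ht.2
      have h8 : |(c (w t) : ℝ) * Real.exp (-(g (w t)))| = T (w t) := by
        rw [abs_mul, abs_of_pos (Real.exp_pos _)]
      have h9 : |∑ u ∈ Ut t, (c u : ℝ) * Real.exp (-(g u))| ≤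
          |∑ u ∈ Ut t, (c u : ℝ) * Real.exp (-(g u)) - (c (w t) : ℝ) * Real.exp (-(g (w t)))| +
          |(c (w t) : ℝ) * Real.exp (-(g (w t)))| := by
        have h10 := abs_add_le (∑ u ∈ Ut t, (c u : ℝ) * Real.exp (-(g u)) -
          (c (w t) : ℝ) * Real.exp (-(g (w t)))) ((c (w t) : ℝ) * Real.exp (-(g (w t))))
        rw [sub_add_cancel] at h10
        exact h10
      rw [h8] at h9
      linarith
    refine (sum_le_sum h4).trans ?_
    rw [sum_const, nsmul_eq_mul]
    have h5 : ((J.erase t0).card : ℝ) ≤ m := by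
      have : (J.erase t0).card ≤ m := by
        refine (card_le_univ _).trans ?_
        simp
      exact_mod_cast this
    calc ((J.erase t0).card : ℝ) * (2 * (Real.exp (-ρ) * T (w t0)))
        ≤ m * (2 * (Real.exp (-ρ) * T (w t0))) := by gcongr
      _ = (Real.exp (-ρ) * (4 * m)) * (1 / 2 * T (w t0)) := by ring
      _ ≤ 1 * (1 / 2 * T (w t0)) := by gcongr
      _ = _ := one_mul _
  have h4 : ∑ u ∈ Ut t0, (c u : ℝ) * Real.exp (-(g u)) =
      -∑ t ∈ J.erase t0, ∑ u ∈ Ut t, (c u : ℝ) * Real.exp (-(g u)) := by linarith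
  rw [h4, abs_neg] at h2
  linarith

end Pool.Agent.D0H51.AP
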