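import Mathlib
import Pool.Agent.D0H51.AP.Cmb
import Pool.Agent.D0H51.AP.NV
import Pool.Agent.D0H51.AP.Grid

/-!
# The lower bound for truncated sums (subspace theorem)
-/

set_option autoImplicit false

namespace Pool.Agent.D0H51.AP

open Finset Filter Topology Pool.Agent.TH932.Germs Pool.Agent.TH551.SU Pool.Agent.Y724.Vj
open Pool.Agent.D0H51.DZ (np bp bp_prime bp_inj gm_sum)
open Pool.Agent.D0H51.DR (un uQ isSU_uQ un_cast)

/-- labelled data: a finite set of indices with coefficients, labels, directions, depths -/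
structure Dat (d m : ℕ) where
  N : ℕ
  U : Finset (Fin d → ℕ)
  c : (Fin d → ℕ) → ℤ
  lab : (Fin d → ℕ) → Fin m
  V : Fin m → Fin d → ℤ
  r : Fin m → ℕ

/-- the conditions -/
structure Ok {d m : ℕ} (B K : ℕ) (δ : ℝ) (D : Dat d m) : Prop where
  hr : ∀ t, D.r t ≤ d
  lo : ∀ u ∈ D.U, ∀ k : Fin d, (k : ℕ) < D.r (D.lab u) → D.N ≤ u k
  up : ∀ u ∈ D.U, ∀ k, u k ≤ K * D.N
  ze : ∀ u ∈ D.U, ∀ k : Fin d, D.r (D.lab u) ≤ k → u k = 0
  ne : ∀ u ∈ D.U, D.c u ≠ 0
  cb : ∀ u ∈ D.U, |(D.c u : ℝ)| ≤ Real.exp (δ * D.N)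
  rt : ∀ u ∈ D.U, ∀ u' ∈ D.U, D.lab u = D.lab u' → |D.c u'| ≤ B * |D.c u|
  cl : ∀ u ∈ D.U, ∀ u' ∈ D.U, D.lab u = D.lab u' → ∀ k, (u k : ℝ) ≤ u' k + δ * D.N
  co : ∀ u ∈ D.U, ∀ u' ∈ D.U, D.lab u = D.lab u' →
    ∃ i : ℤ, ∀ k, (u k : ℤ) = u' k + i * D.V (D.lab u) k
  cd : (D.U.card : ℝ) ≤ Real.exp (δ * D.N)
  nn : D.U.Nonempty

/-- the truncated sum -/
noncomputable def Dat.S {d m : ℕ} (D : Dat d m) (M : ℕ) : ℝ :=
  ∑ u ∈ D.U, (D.c u : ℝ) * ∑ y ∈ DY d (D.r (D.lab u)) M, un u y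

lemma DY_bd {d r M : ℕ} (hM : 1 ≤ M) {y : Fin d → ℕ} (hy : y ∈ DY d r M) (k : Fin d) :
    1 ≤ y k ∧ y k ≤ M := by
  rw [mem_DY] at hy
  by_cases hk : (k : ℕ) < r
  · have := hy.2.1 k hk
    omega
  · rw [hy.2.2.1 k (by omega)]
    omega

lemma uQ_ne {d : ℕ} {y : Fin d → ℕ} (hy : ∀ k, 1 ≤ y k) (s : Fin d → ℕ) : uQ s y ≠ 0 := by
  unfold uQ
  refine inv_ne_zero (prod_ne_zero_iff.2 fun k _ => pow_ne_zero _ ?_)
  have := hy k
  have h2 : y k ≠ 0 := by omega
  exact_mod_cast h2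

/-- negligible sequences -/
lemma negl_of {L : ℕ → ℝ} (hL : Tendsto L atTop atTop) (m : ℕ → ℤ) (A : ℝ)
    (h : ∀ᶠ n in (UU : Filter ℕ), |(m n : ℝ)| ≤ Real.exp (A * (L n / ((n : ℝ) + 1)))) : Negl L m := by
  intro ε hε
  have hev : ∀ᶠ n : ℕ in atTop, A / ε ≤ (n : ℝ) + 1 := by
    obtain ⟨J, hJ⟩ := exists_nat_ge (A / ε)
    filter_upwards [eventually_ge_atTop J] with n hn
    have : (J : ℝ) ≤ n := by exact_mod_cast hn
    linarith
  filter_upwards [h, ev_of_atTop hev, L_nonneg hL] with n h1 h2 h3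
  refine h1.trans (Real.exp_le_exp.2 ?_)
  rw [div_le_iff₀ hε] at h2
  have h4 : (0 : ℝ) < (n : ℝ) + 1 := by positivity
  rw [mul_div_assoc', div_le_iff₀ h4]
  nlinarith

/-- quotients of units of the same tuple with nearby exponents are negligible -/
lemma quot_mem {d M : ℕ} {L : ℕ → ℝ} (hL : Tendsto L atTop atTop) {x : Fin d → ℕ}
    (hx : ∀ k, 1 ≤ x k ∧ x k ≤ M) (b b0 : ℕ → Fin d → ℕ)
    (h : ∀ ε : ℝ, 0 < ε → ∀ᶠ n in (UU : Filter ℕ), ∀ k, (b n k : ℝ) ≤ b0 n k + ε * L n ∧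
      (b0 n k : ℝ) ≤ b n k + ε * L n) :
    gm (fun n => uQ (b n) x) / gm (fun n => uQ (b0 n) x) ∈ KK L hL := by
  have hM : 1 ≤ M ∨ d = 0 := by
    by_cases hd : d = 0
    · exact Or.inr hd
    · left
      have := hx ⟨0, Nat.pos_of_ne_zero hd⟩
      omega
  have hxZ : ∀ k, (x k : ℤ) ≠ 0 := by
    intro k
    have := (hx k).1
    have h2 : x k ≠ 0 := by omega
    exact_mod_cast h2
  have hnegl : ∀ a a0 : ℕ → Fin d → ℕ, (∀ ε : ℝ, 0 < ε → ∀ᶠ n in (UU : Filter ℕ), ∀ k,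
      (a n k : ℝ) ≤ a0 n k + ε * L n) →
      Negl L (fun n => ∏ k, (x k : ℤ) ^ (a n k - a0 n k)) := by
    intro a a0 ha ε hε
    have hD : 0 < (d : ℝ) * (M : ℝ) + 1 := by positivity
    filter_upwards [ha (ε / (d * M + 1)) (by positivity), L_nonneg hL] with n h1 h2
    push_cast
    rw [abs_of_nonneg (by positivity)]
    have e1 : ∏ k, (x k : ℝ) ^ (a n k - a0 n k) ≤ ∏ _k : Fin d, Real.exp (M * (ε / (d * M + 1) * L n)) := by
      refine prod_le_prod (fun k _ => by positivity) fun k _ => ?_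
      have hx0 : (0 : ℝ) < x k := by exact_mod_cast (hx k).1
      rw [← Real.exp_log (pow_pos hx0 _), Real.log_pow]
      apply Real.exp_le_exp.2
      have e2 : ((a n k - a0 n k : ℕ) : ℝ) ≤ ε / (d * M + 1) * L n := by
        rcases le_total (a n k) (a0 n k) with h3 | h3
        · rw [Nat.sub_eq_zero_of_le h3, Nat.cast_zero]
          positivity
        · rw [Nat.cast_sub h3]
          linarith [h1 k]
      have e3 : Real.log (x k) ≤ M := by
        have e4 : (x k : ℝ) ≤ M := by exact_mod_cast (hx k).2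
        have e5 := Real.log_le_sub_one_of_pos hx0
        linarith
      have e4 : 0 ≤ Real.log (x k) := Real.log_natCast_nonneg _
      have e5 : (0 : ℝ) ≤ ((a n k - a0 n k : ℕ) : ℝ) := Nat.cast_nonneg _
      calc ((a n k - a0 n k : ℕ) : ℝ) * Real.log (x k) ≤ (ε / (d * M + 1) * L n) * M := by gcongr
        _ = _ := by ring
    refine e1.trans ?_
    rw [prod_const, card_univ, Fintype.card_fin, ← Real.exp_nat_mul]
    apply Real.exp_le_exp.2
    have e6 : (d : ℝ) * (M * (ε / (d * M + 1) * L n)) = (d * M) / (d * M + 1) * (ε * L n) := by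
      field_simp
    rw [e6]
    have e7 : (d * M : ℝ) / (d * M + 1) ≤ 1 := by
      rw [div_le_one hD]
      linarith
    have e8 : 0 ≤ ε * L n := by positivity
    nlinarith
  refine ⟨fun n => ∏ k, (x k : ℤ) ^ (b0 n k - b n k), fun n => ∏ k, (x k : ℤ) ^ (b n k - b0 n k),
    hnegl b0 b (fun ε hε => ?_), hnegl b b0 (fun ε hε => ?_), ?_, ?_⟩
  · filter_upwards [h ε hε] with n hn k using (hn k).2
  · filter_upwards [h ε hε] with n hn k using (hn k).1
  · exact Eventually.of_forall fun n => prod_ne_zero_iff.2 fun k _ => pow_ne_zero _ (hxZ k)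
  · rw [gm_div]
    congr 1
    funext n
    unfold uQ
    rw [inv_div_inv, div_eq_div_iff]
    · push_cast
      rw [← prod_mul_distrib, ← prod_mul_distrib]
      refine prod_congr rfl fun k _ => ?_
      rw [← pow_add, ← pow_add]
      congr 1
      omega
    · refine prod_ne_zero_iff.2 fun k _ => pow_ne_zero _ ?_
      exact_mod_cast hxZ k
    · push_cast
      refine prod_ne_zero_iff.2 fun k _ => pow_ne_zero _ ?_
      exact_mod_cast hxZ k

/-- the rational sum over the indices with label `t` at the tuple `y` -/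
def gQ {d m : ℕ} (D : Dat d m) (t : Fin m) (y : Fin d → ℕ) : ℚ :=
  ∑ u ∈ D.U.filter (fun u => D.lab u = t), (D.c u : ℚ) * uQ u y

/-- the coefficients are negligible -/
lemma coef_mem {d m B K M : ℕ} (hM : 1 ≤ M) (D : ℕ → Dat d m) {L : ℕ → ℝ}
    (hL : Tendsto L atTop atTop) (hLN : ∀ n, L n = (D n).N)
    (hOk : ∀ n : ℕ, Ok B K (1 / ((n : ℝ) + 1)) (D n)) (t : Fin m) (b : ℕ → Fin d → ℕ)
    (hb : ∀ᶠ n in (UU : Filter ℕ), b n ∈ (D n).U ∧ (D n).lab (b n) = t) {y : Fin d → ℕ}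
    (hy : ∀ k, 1 ≤ y k ∧ y k ≤ M) :
    gm (fun n => gQ (D n) t y / uQ (b n) y) ∈ KK L hL := by
  set W : ℕ → ℕ := fun n => (D n).N / (n + 1) with hW
  have hWle : ∀ n, (W n : ℝ) ≤ L n / ((n : ℝ) + 1) := by
    intro n
    rw [hLN, hW]
    have := Nat.cast_div_le (α := ℝ) (m := (D n).N) (n := n + 1)
    push_cast at this
    exact this
  have hM1 : (1 : ℝ) ≤ M := by exact_mod_cast hM
  have hyZ : ∀ k, (y k : ℤ) ≠ 0 := by
    intro k
    have := (hy k).1
    have h2 : y k ≠ 0 := by omega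
    exact_mod_cast h2
  have hyR : ∀ k, (1 : ℝ) ≤ y k := by
    intro k
    exact_mod_cast (hy k).1
  have hdist : ∀ᶠ n in (UU : Filter ℕ), ∀ u ∈ (D n).U, (D n).lab u = t → ∀ k,
      u k ≤ b n k + W n ∧ b n k ≤ u k + W n := by
    filter_upwards [hb] with n hn u hu hut k
    have e1 := (hOk n).cl u hu (b n) hn.1 (by rw [hut, hn.2]) k
    have e2 := (hOk n).cl (b n) hn.1 u hu (by rw [hut, hn.2]) k
    have hpos : (0 : ℝ) < (n : ℝ) + 1 := by positivity
    have e3 : ∀ a a' : ℕ, (a : ℝ) ≤ a' + 1 / ((n : ℝ) + 1) * (D n).N → a ≤ a' + W n := by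
      intro a a' h
      rcases le_total a a' with h1 | h1
      · omega
      · obtain ⟨e, rfl⟩ := Nat.exists_eq_add_of_le h1
        have h2 : (e : ℝ) ≤ 1 / ((n : ℝ) + 1) * (D n).N := by
          push_cast at h
          linarith
        rw [one_div, inv_mul_eq_div, le_div_iff₀ hpos] at h2
        have h3 : e * (n + 1) ≤ (D n).N := by exact_mod_cast h2
        have h4 : e ≤ W n := (Nat.le_div_iff_mul_le (Nat.succ_pos n)).2 h3
        omega
    exact ⟨e3 _ _ e1, e3 _ _ e2⟩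
  refine ⟨fun n => ∑ u ∈ (D n).U.filter (fun u => (D n).lab u = t),
      (D n).c u * ∏ k, (y k : ℤ) ^ (W n + b n k - u k), fun n => ∏ k, (y k : ℤ) ^ (W n), ?_, ?_, ?_, ?_⟩
  · apply negl_of hL _ (1 + 1 + 2 * (d * Real.log M))
    filter_upwards [hdist, hb, L_nonneg hL] with n h1 h2 h3
    have hO := hOk n
    push_cast
    have hpos : (0 : ℝ) < (n : ℝ) + 1 := by positivity
    have e1 : ∀ u ∈ (D n).U.filter (fun u => (D n).lab u = t),
        |((D n).c u : ℝ) * ∏ k, (y k : ℝ) ^ (W n + b n k - u k)| ≤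
        Real.exp (1 / ((n : ℝ) + 1) * (D n).N) * ((M : ℝ) ^ (2 * W n)) ^ d := by
      intro u hu
      rw [mem_filter] at hu
      rw [abs_mul, abs_of_nonneg (a := ∏ k, _) (by positivity)]
      refine mul_le_mul (hO.cb u hu.1) ?_ (by positivity) (Real.exp_pos _).le
      have e2 : ((M : ℝ) ^ (2 * W n)) ^ d = ∏ _k : Fin d, (M : ℝ) ^ (2 * W n) := by
        rw [prod_const, card_univ, Fintype.card_fin]
      rw [e2]
      refine prod_le_prod (fun k _ => by positivity) fun k _ => ?_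
      have e3 : (y k : ℝ) ≤ M := by exact_mod_cast (hy k).2
      have e4 := h1 u hu.1 hu.2 k
      calc (y k : ℝ) ^ (W n + b n k - u k) ≤ (M : ℝ) ^ (W n + b n k - u k) := by gcongr
        _ ≤ (M : ℝ) ^ (2 * W n) := pow_le_pow_right₀ hM1 (by omega)
    have e2 : |∑ u ∈ (D n).U.filter (fun u => (D n).lab u = t),
        ((D n).c u : ℝ) * ∏ k, (y k : ℝ) ^ (W n + b n k - u k)| ≤
        Real.exp (1 / ((n : ℝ) + 1) * (D n).N) *
          (Real.exp (1 / ((n : ℝ) + 1) * (D n).N) * ((M : ℝ) ^ (2 * W n)) ^ d) := by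
      refine (abs_sum_le_sum_abs _ _).trans ((sum_le_sum e1).trans ?_)
      rw [sum_const, nsmul_eq_mul]
      have e3 : (((D n).U.filter (fun u => (D n).lab u = t)).card : ℝ) ≤ (D n).U.card := by
        exact_mod_cast card_le_card (filter_subset _ _)
      exact mul_le_mul_of_nonneg_right (e3.trans hO.cd) (by positivity)
    refine e2.trans ?_
    have e3 : ((M : ℝ) ^ (2 * W n)) ^ d = Real.exp (2 * (d * Real.log M) * W n) := by
      rw [← pow_mul, ← Real.exp_log (pow_pos (show (0 : ℝ) < M by linarith) _), Real.log_pow]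
      congr 1
      push_cast
      ring
    rw [e3, ← Real.exp_add, ← Real.exp_add]
    apply Real.exp_le_exp.2
    rw [← hLN]
    have e4 := hWle n
    have e5 : 0 ≤ Real.log M := Real.log_nonneg hM1
    have e6 : 2 * (d * Real.log M) * W n ≤ 2 * (d * Real.log M) * (L n / ((n : ℝ) + 1)) := by
      gcongr
    have e7 : 1 / ((n : ℝ) + 1) * L n = L n / ((n : ℝ) + 1) := by ring
    rw [e7]
    linarith
  · apply negl_of hL _ (d * Real.log M)
    refine Eventually.of_forall fun n => ?_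
    push_cast
    rw [abs_of_nonneg (by positivity)]
    have e2 : ∏ k, (y k : ℝ) ^ (W n) ≤ ((M : ℝ) ^ (W n)) ^ d := by
      have e2 : ((M : ℝ) ^ (W n)) ^ d = ∏ _k : Fin d, (M : ℝ) ^ (W n) := by
        rw [prod_const, card_univ, Fintype.card_fin]
      rw [e2]
      refine prod_le_prod (fun k _ => by positivity) fun k _ => ?_
      have e3 : (y k : ℝ) ≤ M := by exact_mod_cast (hy k).2
      gcongr
    refine e2.trans ?_
    rw [← pow_mul, ← Real.exp_log (pow_pos (show (0 : ℝ) < M by linarith) _), Real.log_pow]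
    apply Real.exp_le_exp.2
    push_cast
    have e4 := hWle n
    have e5 : 0 ≤ Real.log M := Real.log_nonneg hM1
    calc (W n : ℝ) * d * Real.log M = (d * Real.log M) * W n := by ring
      _ ≤ _ := by gcongr
  · exact Eventually.of_forall fun n => prod_ne_zero_iff.2 fun k _ => pow_ne_zero _ (hyZ k)
  · rw [gm_eq]
    filter_upwards [hdist] with n h1
    have hu0 := uQ_ne (fun k => (hy k).1) (b n)
    have hd0 : ((∏ k, (y k : ℤ) ^ (W n) : ℤ) : ℚ) ≠ 0 := by
      have h2 : (∏ k, (y k : ℤ) ^ (W n) : ℤ) ≠ 0 :=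
        prod_ne_zero_iff.2 fun k _ => pow_ne_zero _ (hyZ k)
      exact_mod_cast h2
    rw [div_eq_div_iff hu0 hd0]
    unfold gQ
    push_cast
    rw [sum_mul, sum_mul]
    refine sum_congr rfl fun u hu => ?_
    rw [mem_filter] at hu
    rw [mul_assoc, mul_assoc]
    congr 1
    unfold uQ
    rw [← Finset.prod_inv_distrib, ← Finset.prod_inv_distrib, ← prod_mul_distrib, ← prod_mul_distrib]
    refine prod_congr rfl fun k _ => ?_
    have hyk : (y k : ℚ) ≠ 0 := by exact_mod_cast hyZ k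
    have e4 := h1 u hu.1 hu.2 k
    rw [inv_mul_eq_div, ← div_eq_mul_inv, div_eq_div_iff (pow_ne_zero _ hyk) (pow_ne_zero _ hyk),
      ← pow_add, ← pow_add]
    congr 1
    omega

end Pool.Agent.D0H51.AP
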