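import Mathlib
import Pool.Agent.D0H51.AP.Seq

/-!
# The lower bound for truncated sums along a sequence of data
-/

set_option autoImplicit false

namespace Pool.Agent.D0H51.AP

open Finset Filter Topology Pool.Agent.TH932.Germs Pool.Agent.TH551.SU Pool.Agent.Y724.Vj
open Pool.Agent.TH551.SU.SUI
open Pool.Agent.D0H51.DZ (np bp bp_prime bp_inj gm_sum)
open Pool.Agent.D0H51.DR (un uQ isSU_uQ un_cast)

/-- the truncated sum in terms of the labels -/
lemma sum_eq {d m M : ℕ} (D : Dat d m) (J : Finset (Fin m)) (r : Fin m → ℕ)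
    (hJ : ∀ t, t ∈ J ↔ ∃ u ∈ D.U, D.lab u = t) (hr : D.r = r)
    (T : Finset (Fin m × (Fin d → ℕ))) (hT : ∀ p, p ∈ T ↔ p.1 ∈ J ∧ p.2 ∈ DY d (r p.1) M) :
    ((∑ p ∈ T, gQ D p.1 p.2 : ℚ) : ℝ) = D.S M := by
  classical
  have h1 : ∑ p ∈ T, gQ D p.1 p.2 = ∑ t ∈ J, ∑ y ∈ DY d (r t) M, gQ D t y := by
    rw [Finset.sum_sigma']
    refine Finset.sum_bij' (fun p _ => (⟨p.1, p.2⟩ : (_ : Fin m) × (Fin d → ℕ)))
      (fun q _ => (q.1, q.2)) ?_ ?_ ?_ ?_ ?_
    · intro p hp
      rw [hT] at hp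
      rw [mem_sigma]
      exact hp
    · intro q hq
      rw [mem_sigma] at hq
      rw [hT]
      exact hq
    · intro p _
      rfl
    · intro q _
      rfl
    · intro p _
      rfl
  rw [h1]
  unfold gQ Dat.S
  push_cast
  rw [← sum_fiberwise_of_maps_to (s := D.U) (t := J) (g := D.lab) (fun u hu => by
    rw [hJ]
    exact ⟨u, hu, rfl⟩)]
  refine sum_congr rfl fun t _ => ?_
  rw [sum_comm]
  refine sum_congr rfl fun u hu => ?_
  rw [mem_filter] at hu
  rw [hr, hu.2, mul_sum]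
  refine sum_congr rfl fun y _ => ?_
  rw [un_cast]

/-- padding with ones -/
def padx {d : ℕ} (r : ℕ) (x : Fin d → ℕ) : Fin d → ℕ := fun k => if (k : ℕ) < r then x k else 1

theorem seq_main {d m B K : ℕ} (ρ : ℝ) (hρ : 4 * (m : ℝ) + 8 * B + 2 ≤ Real.exp ρ)
    (G : Fin d → Finset ℕ) (hG1 : ∀ k, ∀ x ∈ G k, Nat.Prime x)
    (hG2 : ∀ k, 4 * m * m + m < (G k).card)
    (hG3 : ∀ k, ∀ x ∈ G k, ∀ x' ∈ G k, x ≠ x' → 2 * ρ ≤ |Real.log x - Real.log x'|)
    (hG4 : ∀ k k', k < k' → ∀ x ∈ G k, ∀ x' ∈ G k', x' < x) (X M : ℕ) (hX1 : 1 ≤ X) (hXM : X ≤ M)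
    (hGX : ∀ k, ∀ x ∈ G k, x ≤ X) (D : ℕ → Dat d m) (hN : ∀ n, n ≤ (D n).N)
    (hOk : ∀ n : ℕ, Ok B K (1 / ((n : ℝ) + 1)) (D n)) (ε : ℝ) (hε : 0 < ε) :
    ∀ᶠ n in (UU : Filter ℕ), 1 / ((X : ℝ) ^ (d * K)) ^ (D n).N ≤
      |(D n).S M| * Real.exp (ε * (D n).N) := by
  classical
  set L : ℕ → ℝ := fun n => (D n).N with hLd
  have hLN : ∀ n, L n = (D n).N := fun n => rfl
  have hL : Tendsto L atTop atTop :=
    tendsto_atTop_mono (fun n => (by rw [hLN]; exact_mod_cast hN n : (n : ℝ) ≤ L n))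
      tendsto_natCast_atTop_atTop
  have hM1 : 1 ≤ M := hX1.trans hXM
  -- constant depths
  obtain ⟨r', hr'⟩ := const_of_ev (ι := Fin m → Fin (d + 1))
    (p := fun r n => ∀ t, (D n).r t = (r t : ℕ)) (Eventually.of_forall fun n =>
      ⟨fun t => ⟨(D n).r t, by have := (hOk n).hr t; omega⟩, fun t => rfl⟩)
  set r : Fin m → ℕ := fun t => (r' t : ℕ) with hr
  have hrev : ∀ᶠ n in (UU : Filter ℕ), (D n).r = r := by
    filter_upwards [hr'] with n hn
    funext t
    exact hn t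
  -- the set of the labels
  obtain ⟨J, hJ⟩ := const_of_ev (ι := Finset (Fin m))
    (p := fun J n => ∀ t, t ∈ J ↔ ∃ u ∈ (D n).U, (D n).lab u = t) (Eventually.of_forall fun n =>
      ⟨(D n).U.image (D n).lab, fun t => by rw [mem_image]⟩)
  -- the bases
  have hbex : ∀ (n : ℕ) (t : Fin m), ∃ w : Fin d → ℕ, (∃ u ∈ (D n).U, (D n).lab u = t) →
      w ∈ (D n).U ∧ (D n).lab w = t := by
    intro n t
    by_cases h : ∃ u ∈ (D n).U, (D n).lab u = t
    · obtain ⟨u, hu, hut⟩ := h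
      exact ⟨u, fun _ => ⟨hu, hut⟩⟩
    · exact ⟨fun _ => 0, fun h' => absurd h' h⟩
  choose b hb using hbex
  have hbev : ∀ t ∈ J, ∀ᶠ n in (UU : Filter ℕ), b n t ∈ (D n).U ∧ (D n).lab (b n t) = t := by
    intro t ht
    filter_upwards [hJ] with n hn
    exact hb n t ((hn t).1 ht)
  -- the label of least weight
  obtain ⟨t0, ht0⟩ := const_of_ev (ι := Fin m)
    (p := fun t n => t ∈ J ∧ ∀ t' ∈ J, ∑ k, b n t k ≤ ∑ k, b n t' k) (by
      filter_upwards [hJ] with n hn
      have hJne : J.Nonempty := by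
        obtain ⟨u, hu⟩ := (hOk n).nn
        exact ⟨(D n).lab u, (hn _).2 ⟨u, hu, rfl⟩⟩
      obtain ⟨t, ht, hmin⟩ := J.exists_min_image (fun t => ∑ k, b n t k) hJne
      exact ⟨t, ht, hmin⟩)
  have ht0J : t0 ∈ J := by
    obtain ⟨n, hn⟩ := ht0.exists
    exact hn.1
  -- the cluster
  set C : Finset (Fin m) := J.filter fun t => r t = r t0 ∧ ∀ ε : ℝ, 0 < ε →
    ∀ᶠ n in (UU : Filter ℕ), ∀ k, (b n t k : ℝ) ≤ b n t0 k + ε * L n ∧
      (b n t0 k : ℝ) ≤ b n t k + ε * L n with hC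
  have ht0C : t0 ∈ C := by
    rw [hC, mem_filter]
    refine ⟨ht0J, rfl, fun ε hε => ?_⟩
    filter_upwards [L_nonneg hL] with n hn k
    constructor <;> linarith [mul_nonneg hε.le hn]
  -- the tuple of primes
  obtain ⟨x', hx'⟩ := const_of_ev (ι := {x : Fin d → ℕ // x ∈ Fintype.piFinset G})
    (p := fun x n => ∑ u ∈ (D n).U.filter (fun u => (D n).lab u ∈ C),
      ((D n).c u : ℝ) * un u (padx (r t0) x.1) ≠ 0) (by
      filter_upwards [hrev, hbev t0 ht0J] with n h1 h2
      have hO := hOk n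
      obtain ⟨z, hz1, hz2⟩ := nv d m B ρ hρ (fun k => (G k).image fun x : ℕ => Real.log x) (by
          intro k s hs s' hs' hne
          rw [mem_image] at hs hs'
          obtain ⟨x, hx, rfl⟩ := hs
          obtain ⟨x', hx', rfl⟩ := hs'
          exact hG3 k x hx x' hx' (fun h => hne (by rw [h]))) (by
          intro k
          rw [card_image_of_injOn]
          · exact hG2 k
          · intro x hx x' hx' h
            have e1 : (0 : ℝ) < x := by exact_mod_cast (hG1 k x hx).pos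
            have e2 : (0 : ℝ) < x' := by exact_mod_cast (hG1 k x' hx').pos
            have e3 := Real.log_injOn_pos (Set.mem_Ioi.2 e1) (Set.mem_Ioi.2 e2) h
            exact_mod_cast e3)
        ((D n).U.filter (fun u => (D n).lab u ∈ C)) (D n).c (D n).lab (D n).V
        (fun u hu => hO.ne u (mem_filter.1 hu).1)
        (fun u hu u' hu' h => hO.rt u (mem_filter.1 hu).1 u' (mem_filter.1 hu').1 h)
        (fun u hu u' hu' h => hO.co u (mem_filter.1 hu).1 u' (mem_filter.1 hu').1 h)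
        ⟨b n t0, by rw [mem_filter, h2.2]; exact ⟨h2.1, ht0C⟩⟩
      have hz3 : ∀ k, ∃ x ∈ G k, Real.log (x : ℕ) = z k := by
        intro k
        have := hz1 k
        rw [mem_image] at this
        exact this
      choose x hx hxz using hz3
      refine ⟨⟨x, by rw [Fintype.mem_piFinset]; exact hx⟩, ?_⟩
      intro h0
      apply hz2
      rw [← h0]
      refine sum_congr rfl fun u hu => ?_
      rw [mem_filter] at hu
      congr 1
      unfold un
      rw [Real.exp_neg, Real.exp_sum]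
      congr 1
      refine prod_congr rfl fun k _ => ?_
      unfold padx
      have hrl : (D n).r ((D n).lab u) = r t0 := by
        rw [h1]
        have := hu.2
        rw [hC, mem_filter] at this
        exact this.2.1
      split_ifs with hk
      · have e1 : (0 : ℝ) < x k := by exact_mod_cast (hG1 k _ (hx k)).pos
        rw [← hxz k, Real.exp_nat_mul, Real.exp_log e1]
      · have e2 := hO.ze u hu.1 k (by rw [hrl]; omega)
        rw [e2]
        simp)
  obtain ⟨x, hxG⟩ := x'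
  rw [Fintype.mem_piFinset] at hxG
  simp only at hx'
  set x0 := padx (r t0) x with hx0
  have hrt0 : r t0 ≤ d := by
    rw [hr]
    have := (r' t0).isLt
    simp only
    omega
  have hx0p : ∀ k : Fin d, (k : ℕ) < r t0 → (x0 k).Prime := by
    intro k hk
    rw [hx0, padx, if_pos hk]
    exact hG1 k _ (hxG k)
  have hx0DY : x0 ∈ DY d (r t0) M := by
    rw [mem_DY]
    refine ⟨hrt0, fun k hk => ?_, fun k hk => ?_, fun k k' hkk hk' => ?_⟩
    · refine ⟨(hx0p k hk).two_le, ?_⟩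
      rw [hx0, padx, if_pos hk]
      exact (hGX k _ (hxG k)).trans hXM
    · rw [hx0, padx, if_neg (by omega)]
    · have h1 : (k : ℕ) < k' := hkk
      rw [hx0, padx, padx, if_pos hk', if_pos (by omega)]
      exact hG4 k k' hkk _ (hxG k) _ (hxG k')
  have hx0X : ∀ k, x0 k ≤ X := by
    intro k
    rw [hx0, padx]
    split_ifs
    · exact hGX k _ (hxG k)
    · exact hX1
  have hx0bd : ∀ k, 1 ≤ x0 k ∧ x0 k ≤ M := DY_bd hM1 hx0DY
  -- the index set
  set T : Finset (Fin m × (Fin d → ℕ)) := J.biUnion fun t => (DY d (r t) M).image (Prod.mk t) with hT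
  have hTmem : ∀ p, p ∈ T ↔ p.1 ∈ J ∧ p.2 ∈ DY d (r p.1) M := by
    intro p
    rw [hT, mem_biUnion]
    constructor
    · rintro ⟨t, ht, hp⟩
      rw [mem_image] at hp
      obtain ⟨y, hy, rfl⟩ := hp
      exact ⟨ht, hy⟩
    · rintro ⟨h1, h2⟩
      exact ⟨p.1, h1, mem_image.2 ⟨p.2, h2, rfl⟩⟩
  set ι := {p : Fin m × (Fin d → ℕ) // p ∈ T} with hι
  have hbd : ∀ p : ι, ∀ k, 1 ≤ p.1.2 k ∧ p.1.2 k ≤ M := fun p => DY_bd hM1 ((hTmem _).1 p.2).2
  set u : ι → GG := fun p => gm (fun n => uQ (b n p.1.1) p.1.2) with hu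
  have hGSU : ∀ i, GSU (bp M) (u i) := fun i => ⟨_, rfl, fun n => isSU_uQ (hbd i) _⟩
  have hne0 : ∀ (z : ι) (n : ℕ), (∏ k, (z.1.2 k : ℤ) ^ (b n z.1.1 k) : ℤ) ≠ 0 := by
    intro z n
    refine prod_ne_zero_iff.2 fun k _ => pow_ne_zero _ ?_
    have := (hbd z k).1
    have h0 : z.1.2 k ≠ 0 := by omega
    exact_mod_cast h0
  have hquo : ∀ x y : ι, u x / u y = gm (fun n =>
      ((∏ k, (y.1.2 k : ℤ) ^ (b n y.1.1 k) : ℤ) : ℚ) / ((∏ k, (x.1.2 k : ℤ) ^ (b n x.1.1 k) : ℤ) : ℚ)) := by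
    intro x y
    rw [hu]
    simp only
    rw [gm_div]
    congr 1
    funext n
    unfold uQ
    push_cast
    rw [inv_div_inv]
  have hM0 : (0 : ℝ) < M := by exact_mod_cast hM1
  have hM1R : (1 : ℝ) ≤ M := by exact_mod_cast hM1
  have hBd : ∀ i j, Bd L (u i / u j) := by
    intro x y
    have hsz : ∀ z : ι, ∀ᶠ n in (UU : Filter ℕ),
        |((∏ k, (z.1.2 k : ℤ) ^ (b n z.1.1 k) : ℤ) : ℝ)| ≤
          Real.exp ((d * (K * Real.log M)) * L n) := by
      intro z
      filter_upwards [hbev z.1.1 ((hTmem _).1 z.2).1] with n hn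
      push_cast
      rw [abs_of_nonneg (by positivity)]
      have e1 : ∏ k, (z.1.2 k : ℝ) ^ (b n z.1.1 k) ≤ ∏ _k : Fin d, Real.exp ((K * Real.log M) * L n) := by
        refine prod_le_prod (fun k _ => by positivity) fun k _ => ?_
        have e2 : (z.1.2 k : ℝ) ≤ M := by exact_mod_cast (hbd z k).2
        have e3 : (b n z.1.1 k : ℝ) ≤ K * (D n).N := by exact_mod_cast (hOk n).up _ hn.1 k
        calc (z.1.2 k : ℝ) ^ (b n z.1.1 k) ≤ (M : ℝ) ^ (b n z.1.1 k) := by gcongr
          _ = Real.exp ((b n z.1.1 k : ℝ) * Real.log M) := by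
              rw [← Real.exp_log (pow_pos hM0 _), Real.log_pow]
          _ ≤ _ := by
              apply Real.exp_le_exp.2
              have e4 : 0 ≤ Real.log M := Real.log_nonneg hM1R
              calc (b n z.1.1 k : ℝ) * Real.log M ≤ (K * (D n).N) * Real.log M := by gcongr
                _ = _ := by rw [hLN]; ring
      refine e1.trans (le_of_eq ?_)
      rw [prod_const, card_univ, Fintype.card_fin, ← Real.exp_nat_mul]
      congr 1
      ring
    exact ⟨_, _, _, hsz y, hsz x, Eventually.of_forall (hne0 x), hquo x y⟩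
  have hcK : ∀ p : ι, gm (fun n => gQ (D n) p.1.1 p.1.2 / uQ (b n p.1.1) p.1.2) ∈ KK L hL :=
    fun p => coef_mem hM1 D hL hLN hOk p.1.1 (fun n => b n p.1.1)
      (hbev p.1.1 ((hTmem _).1 p.2).1) (hbd p)
  set i0 : ι := ⟨(t0, x0), (hTmem _).2 ⟨ht0J, hx0DY⟩⟩ with hi0
  set A : Finset ι := univ.filter fun i => u i / u i0 ∈ KK L hL with hA
  have hAmem : ∀ i, i ∈ A ↔ u i / u i0 ∈ KK L hL := by
    intro i
    rw [hA, mem_filter]
    simp only [mem_univ, true_and]
  have hcu : ∀ p : ι, ((⟨_, hcK p⟩ : KK L hL) : GG) * u p = gm (fun n => gQ (D n) p.1.1 p.1.2) := by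
    intro p
    change gm (fun n => gQ (D n) p.1.1 p.1.2 / uQ (b n p.1.1) p.1.2) * gm _ = _
    rw [gm_mul]
    congr 1
    funext n
    rw [div_mul_cancel₀ _ (uQ_ne (fun k => (hbd p k).1) _)]
  -- the class
  have hclass : ∀ p : ι, p ∈ A ↔ p.1.1 ∈ C ∧ p.1.2 = x0 := by
    intro p
    rw [hAmem]
    have hp := (hTmem _).1 p.2
    constructor
    · intro hK'
      have hcl := fun v ε hε => ex_close (M := M) hL (hbd p) hx0bd (fun n => b n p.1.1)
        (fun n => b n t0) hK' v ε hε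
      have hkey : ∀ ε : ℝ, 0 < ε → ((np M : ℝ) + 1) * ε < 1 → ∀ᶠ n in (UU : Filter ℕ),
          r p.1.1 = r t0 ∧ p.1.2 = x0 ∧ ∀ k, (b n p.1.1 k : ℝ) ≤ b n t0 k + ε * L n ∧
            (b n t0 k : ℝ) ≤ b n p.1.1 k + ε * L n := by
        intro ε hε hε1
        have hL1 : ∀ᶠ n in (UU : Filter ℕ), (1 : ℝ) ≤ L n := ev_of_atTop (hL.eventually_ge_atTop 1)
        filter_upwards [eventually_all.2 fun v => hcl v ε hε, hbev _ hp.1, hbev t0 ht0J, ht0, hrev,
          hL1] with n e1 e2 e3 e4 e5 e6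
        have hO := hOk n
        refine class_eq (N := (D n).N) hp.2 hx0DY hx0p ?_ ?_ ?_ ?_ (e4.2 _ hp.1) (ε * L n)
          (by positivity) ?_ e1
        · intro k hk
          apply hO.lo _ e2.1
          rw [e2.2, e5]
          exact hk
        · intro k hk
          apply hO.ze _ e2.1
          rw [e2.2, e5]
          exact hk
        · intro k hk
          apply hO.lo _ e3.1
          rw [e3.2, e5]
          exact hk
        · intro k hk
          apply hO.ze _ e3.1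
          rw [e3.2, e5]
          exact hk
        · rw [← hLN]
          nlinarith
      have hη : 0 < 1 / (2 * ((np M : ℝ) + 1)) := by positivity
      have hη1 : ((np M : ℝ) + 1) * (1 / (2 * ((np M : ℝ) + 1))) < 1 := by
        have : (0 : ℝ) < (np M : ℝ) + 1 := by positivity
        field_simp
        norm_num
      obtain ⟨n, hn⟩ := (hkey _ hη hη1).exists
      refine ⟨?_, hn.2.1⟩
      rw [hC, mem_filter]
      refine ⟨hp.1, hn.1, fun ε hε => ?_⟩
      have hε' : 0 < min ε (1 / (2 * ((np M : ℝ) + 1))) := lt_min hε hη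
      have hε1 : ((np M : ℝ) + 1) * min ε (1 / (2 * ((np M : ℝ) + 1))) < 1 := by
        refine lt_of_le_of_lt ?_ hη1
        gcongr
        exact min_le_right _ _
      filter_upwards [hkey _ hε' hε1, L_nonneg hL] with n hn hn2 k
      have e1 := hn.2.2 k
      have e2 : min ε (1 / (2 * ((np M : ℝ) + 1))) * L n ≤ ε * L n := by
        gcongr
        exact min_le_left _ _
      constructor <;> linarith [e1.1, e1.2]
    · rintro ⟨h1, h2⟩
      rw [hC, mem_filter] at h1
      rw [hu]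
      simp only
      rw [h2, hi0]
      exact quot_mem hL hx0bd (fun n => b n p.1.1) (fun n => b n t0) h1.2.2
  have hsumA : ∀ n, ∑ p ∈ A, gQ (D n) p.1.1 p.1.2 = ∑ t ∈ C, gQ (D n) t x0 := by
    intro n
    refine Finset.sum_bij' (fun p _ => p.1.1)
      (fun t ht => ⟨(t, x0), (hTmem _).2 ⟨(mem_filter.1 ht).1, by
        have := (mem_filter.1 ht).2.1
        simp only
        rw [this]
        exact hx0DY⟩⟩) ?_ ?_ ?_ ?_ ?_
    · intro p hp
      exact ((hclass p).1 hp).1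
    · intro t ht
      rw [hclass]
      exact ⟨ht, rfl⟩
    · intro p hp
      have := ((hclass p).1 hp).2
      apply Subtype.ext
      exact Prod.ext rfl this.symm
    · intro t _
      rfl
    · intro p hp
      rw [((hclass p).1 hp).2]
  have hFne : ∑ p ∈ A, ((⟨_, hcK p⟩ : KK L hL) : GG) * u p ≠ 0 := by
    rw [Finset.sum_congr rfl fun p _ => hcu p, gm_sum, gm_ne_zero]
    filter_upwards [hx'] with n hn
    rw [hsumA n]
    intro h0
    apply hn
    have h1 : ∑ u ∈ (D n).U.filter (fun u => (D n).lab u ∈ C), ((D n).c u : ℝ) * un u x0 =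
        ((∑ t ∈ C, gQ (D n) t x0 : ℚ) : ℝ) := by
      unfold gQ
      push_cast
      rw [← sum_fiberwise_of_maps_to (s := (D n).U.filter (fun u => (D n).lab u ∈ C)) (t := C)
        (g := (D n).lab) (fun u hu => (mem_filter.1 hu).2)]
      refine sum_congr rfl fun t ht => ?_
      rw [filter_filter]
      refine sum_congr ?_ fun u _ => by rw [un_cast]
      ext u
      simp only [mem_filter]
      constructor
      · rintro ⟨h2, _, h4⟩
        exact ⟨h2, h4⟩
      · rintro ⟨h2, h4⟩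
        exact ⟨h2, by rw [h4]; exact ht, h4⟩
    rw [h1, h0, Rat.cast_zero]
  have key := lbc (bp M) (bp_prime M) (bp_inj M) hL u hGSU hBd none i0
    (fun p => ⟨_, hcK p⟩) A hAmem hFne
  rw [Finset.sum_congr rfl fun p _ => hcu p, gm_sum] at key
  have key2 := val_le hL (wv (bp M) (bp_prime M) none) key ε hε
  filter_upwards [key2, hrev, hJ, hbev t0 ht0J] with n hn h1 h2 h3
  have hw : ∀ y : ℚ, wv (bp M) (bp_prime M) none y = |(y : ℝ)| := by
    intro y
    change Rat.AbsoluteValue.real y = _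
    rw [Rat.AbsoluteValue.real_eq_abs]
    push_cast
    rfl
  rw [hw, hw] at hn
  have h4 : ∑ i : ι, gQ (D n) i.1.1 i.1.2 = ∑ p ∈ T, gQ (D n) p.1 p.2 :=
    Finset.sum_coe_sort T (fun p => gQ (D n) p.1 p.2)
  rw [h4, sum_eq (D n) J r h2 h1 T hTmem, hLN] at hn
  refine le_trans ?_ hn
  rw [← un_cast, abs_of_nonneg (DR.un_nonneg _ _)]
  unfold un
  rw [← one_div]
  have hX0 : (1 : ℝ) ≤ X := by exact_mod_cast hX1
  apply one_div_le_one_div_of_le
  · refine prod_pos fun k _ => pow_pos ?_ _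
    exact_mod_cast (hx0bd k).1
  · have e1 : ∏ k, (x0 k : ℝ) ^ (b n t0 k) ≤ ∏ _k : Fin d, (X : ℝ) ^ (K * (D n).N) := by
      refine prod_le_prod (fun k _ => by positivity) fun k _ => ?_
      have e2 : (x0 k : ℝ) ≤ X := by exact_mod_cast hx0X k
      calc (x0 k : ℝ) ^ (b n t0 k) ≤ (X : ℝ) ^ (b n t0 k) := by gcongr
        _ ≤ _ := pow_le_pow_right₀ hX0 ((hOk n).up _ h3.1 k)
    refine e1.trans (le_of_eq ?_)
    rw [prod_const, card_univ, Fintype.card_fin, ← pow_mul, ← pow_mul]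
    congr 1
    ring

end Pool.Agent.D0H51.AP
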