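import Mathlib
import Pool.Agent.D0H51.AP.SeqM

/-!
# The lower bound for truncated sums over families of progressions
-/

set_option autoImplicit false

namespace Pool.Agent.D0H51.AP

open Finset Filter Topology Pool.Agent.TH932.Germs
open Pool.Agent.D0H51.DR (un)
open Pool.Agent.D0H51.DZ (ev_small)

/-- the finite version -/
theorem fin (d m B K : ℕ) : ∃ X : ℕ, 1 ≤ X ∧ ∀ M : ℕ, X ≤ M → ∀ H : ℝ, (X : ℝ) ^ (d * K) < H →
    ∃ δ : ℝ, 0 < δ ∧ ∃ P : ℕ, ∀ D : Dat d m, P ≤ D.N → Ok B K δ D → 1 / H ^ D.N < |D.S M| := by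
  set ρ : ℝ := Real.log (4 * (m : ℝ) + 8 * B + 2) with hρd
  have hρ0 : (0 : ℝ) < 4 * (m : ℝ) + 8 * B + 2 := by positivity
  have hρ : 4 * (m : ℝ) + 8 * B + 2 ≤ Real.exp ρ := by
    rw [hρd, Real.exp_log hρ0]
  have hρnn : 0 ≤ ρ := by
    apply Real.log_nonneg
    have e1 : (0 : ℝ) ≤ m := Nat.cast_nonneg _
    have e2 : (0 : ℝ) ≤ B := Nat.cast_nonneg _
    linarith
  obtain ⟨G, hG1, hG2, hG3, hG4⟩ := exists_grid d (4 * m * m + m) ρ hρnn
  set X : ℕ := 1 + ∑ k, ∑ x ∈ G k, x with hX
  have hGX : ∀ k, ∀ x ∈ G k, x ≤ X := by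
    intro k x hx
    have e1 : x ≤ ∑ x ∈ G k, x := single_le_sum (f := fun x : ℕ => x) (fun _ _ => Nat.zero_le _) hx
    have e2 : ∑ x ∈ G k, x ≤ ∑ k, ∑ x ∈ G k, x :=
      single_le_sum (f := fun k => ∑ x ∈ G k, x) (fun _ _ => Nat.zero_le _) (mem_univ k)
    omega
  refine ⟨X, by omega, fun M hM H hH => ?_⟩
  have hX1 : (1 : ℝ) ≤ X := by
    have : 1 ≤ X := by omega
    exact_mod_cast this
  have hXK : (0 : ℝ) < (X : ℝ) ^ (d * K) := by positivity
  have hH0 : 0 < H := hXK.trans hH
  by_contra hno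
  push Not at hno
  have h := fun n : ℕ => hno (1 / ((n : ℝ) + 1)) (by positivity) n
  choose D h1 h2 h3 using h
  set ε : ℝ := Real.log (H / (X : ℝ) ^ (d * K)) / 2 with hεd
  have hε : 0 < ε := by
    have : 0 < Real.log (H / (X : ℝ) ^ (d * K)) := by
      apply Real.log_pos
      rw [one_lt_div hXK]
      exact hH
    positivity
  have h4 := seq_main (B := B) (K := K) ρ hρ G hG1 hG2 hG3 hG4 X M (by omega) hM hGX D h1 h2 ε hε
  have hL : Tendsto (fun n => ((D n).N : ℝ)) atTop atTop :=
    tendsto_atTop_mono (fun n => (by exact_mod_cast h1 n : (n : ℝ) ≤ (D n).N))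
      tendsto_natCast_atTop_atTop
  have h5 : ∀ᶠ n in (UU : Filter ℕ), False := by
    filter_upwards [h4, ev_of_atTop (hL.eventually_ge_atTop 1)] with n e1 e2
    have e3 := h3 n
    have e4 : 1 / ((X : ℝ) ^ (d * K)) ^ (D n).N ≤ 1 / H ^ (D n).N * Real.exp (ε * (D n).N) :=
      e1.trans (mul_le_mul_of_nonneg_right e3 (Real.exp_pos _).le)
    have e5 : Real.exp (2 * ε * (D n).N) = H ^ (D n).N / ((X : ℝ) ^ (d * K)) ^ (D n).N := by
      rw [hεd, mul_div_cancel₀ _ (two_ne_zero), mul_comm, Real.exp_nat_mul,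
        Real.exp_log (by positivity), div_pow]
    have e6 : Real.exp (2 * ε * (D n).N) ≤ Real.exp (ε * (D n).N) := by
      rw [e5]
      have hHN : 0 < H ^ (D n).N := by positivity
      calc H ^ (D n).N / ((X : ℝ) ^ (d * K)) ^ (D n).N
          = H ^ (D n).N * (1 / ((X : ℝ) ^ (d * K)) ^ (D n).N) := by ring
        _ ≤ H ^ (D n).N * (1 / H ^ (D n).N * Real.exp (ε * (D n).N)) := by gcongr
        _ = Real.exp (ε * (D n).N) := by field_simp
    rw [Real.exp_le_exp] at e6
    nlinarith
  obtain ⟨_, hf⟩ := h5.exists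
  exact hf

/-- the total coefficient of the index `v` -/
def tot {d m : ℕ} (W : ℕ) (f : Fin m → ℕ → Fin d → ℕ) (a : Fin m → ℕ → ℤ) (v : Fin d → ℕ) : ℤ :=
  ∑ s, ∑ i ∈ range (W + 1), if f s i = v then a s i else 0

/-- **Families of progressions.** -/
theorem red (d m B K : ℕ) : ∃ X : ℕ, 1 ≤ X ∧ ∀ M : ℕ, X ≤ M → ∀ H : ℝ, (X : ℝ) ^ (d * K) < H →
    ∃ δ : ℝ, 0 < δ ∧ ∃ P : ℕ, ∀ (N W : ℕ) (r : Fin m → ℕ) (f : Fin m → ℕ → Fin d → ℕ)
      (V : Fin m → Fin d → ℤ) (a : Fin m → ℕ → ℤ), P ≤ N → (W : ℝ) ≤ δ * N → (∀ s, r s ≤ d) →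
      (∀ s, ∀ i ≤ W, ∀ k : Fin d, (k : ℕ) < r s → N ≤ f s i k) →
      (∀ s, ∀ i ≤ W, ∀ k, f s i k ≤ K * N) →
      (∀ s, ∀ i ≤ W, ∀ k : Fin d, r s ≤ (k : ℕ) → f s i k = 0) →
      (∀ s, ∀ i ≤ W, ∀ k, (f s i k : ℤ) = f s 0 k + i * V s k) →
      (∀ s, ∀ i ≤ W, ∀ j ≤ W, ∀ k, (f s i k : ℝ) ≤ f s j k + δ * N) →
      (∀ s, ∀ i ≤ W, |a s i| ≤ (B : ℤ)) → (∃ v, tot W f a v ≠ 0) →
      1 / H ^ N < |∑ s, ∑ i ∈ range (W + 1), (a s i : ℝ) * ∑ y ∈ DY d (r s) M, un (f s i) y| := by
  classical
  obtain ⟨X, hX1, h⟩ := fin d m (m * B + 1) K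
  refine ⟨X, hX1, fun M hM H hH => ?_⟩
  obtain ⟨δ, hδ, P, hP⟩ := h M hM H hH
  obtain ⟨P1, hP1⟩ := ev_small (4 * (m * (B + 1))) δ (by positivity) hδ
  refine ⟨min δ 1, lt_min hδ one_pos, max P (max P1 1), ?_⟩
  intro N W r f V a hPN hW hr hlo hup hze hV hcl ha hne
  simp only [max_le_iff] at hPN
  obtain ⟨hPN, hP1N, hN1⟩ := hPN
  have hN0 : (0 : ℝ) ≤ N := Nat.cast_nonneg _
  have hWN : (W : ℝ) ≤ N := by
    have := hW.trans (mul_le_mul_of_nonneg_right (min_le_right _ _) hN0)
    rwa [one_mul] at this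
  have hδN : min δ 1 * N ≤ δ * N := mul_le_mul_of_nonneg_right (min_le_left _ _) hN0
  -- the bound for the number of terms
  have hbig : (m : ℝ) * (B + 1) * (N + 1) ≤ Real.exp (δ * N) := by
    have e1 := hP1 N (by exact_mod_cast hP1N)
    rw [Real.exp_neg, ← div_eq_mul_inv, div_le_iff₀ (Real.exp_pos _)] at e1
    have e2 : 0 < Real.exp (δ * N) := Real.exp_pos _
    have e3 : 4 * ((m : ℝ) * (B + 1)) * (N + 1) = 4 * ((m : ℝ) * (B + 1) * (N + 1)) := by ring
    rw [e3] at e1
    linarith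
  -- the labels
  have hlabex : ∀ v : Fin d → ℕ, ∃ s : Fin m, (∃ s', ∃ i ≤ W, f s' i = v) →
      (∃ i ≤ W, f s i = v) ∧ (V s = 0 ∨ ∀ s', V s' = 0 → ∀ i ≤ W, f s' i ≠ v) := by
    intro v
    by_cases hv : ∃ s', ∃ i ≤ W, f s' i = v
    · by_cases h0 : ∃ s', V s' = 0 ∧ ∃ i ≤ W, f s' i = v
      · obtain ⟨s, hs, hi⟩ := h0
        exact ⟨s, fun _ => ⟨hi, Or.inl hs⟩⟩
      · push Not at h0
        obtain ⟨s, hs⟩ := hv
        exact ⟨s, fun _ => ⟨hs, Or.inr h0⟩⟩
    · obtain ⟨v', hv'⟩ := hne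
      have : 0 < m := by
        by_contra hm
        have hm0 : m = 0 := by omega
        subst hm0
        apply hv'
        unfold tot
        simp
      exact ⟨⟨0, this⟩, fun h => absurd h hv⟩
  choose lab hlab using hlabex
  set c := tot W f a with hc
  set U : Finset (Fin d → ℕ) :=
    (univ.biUnion fun s => (range (W + 1)).image (f s)).filter fun v => c v ≠ 0 with hU
  have hUmem : ∀ v, v ∈ U → (∃ s, ∃ i ≤ W, f s i = v) ∧ c v ≠ 0 := by
    intro v hv
    rw [hU, mem_filter, mem_biUnion] at hv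
    obtain ⟨⟨s, _, hs⟩, h2⟩ := hv
    rw [mem_image] at hs
    obtain ⟨i, hi, hiv⟩ := hs
    rw [mem_range] at hi
    exact ⟨⟨s, i, by omega, hiv⟩, h2⟩
  have hUof : ∀ v, (∃ s, ∃ i ≤ W, f s i = v) → c v ≠ 0 → v ∈ U := by
    intro v h1 h2
    obtain ⟨s, i, hi, hiv⟩ := h1
    rw [hU, mem_filter, mem_biUnion]
    exact ⟨⟨s, mem_univ _, mem_image.2 ⟨i, mem_range.2 (by omega), hiv⟩⟩, h2⟩
  have hcne : ∀ v, c v ≠ 0 → ∃ s, ∃ i ≤ W, f s i = v := by
    intro v hv
    by_contra hno
    push Not at hno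
    apply hv
    rw [hc]
    unfold tot
    refine sum_eq_zero fun s _ => sum_eq_zero fun i hi => ?_
    rw [mem_range] at hi
    rw [if_neg (hno s i (by omega))]
  -- the depth is determined by the index
  have hdep : ∀ s s' i i', i ≤ W → i' ≤ W → f s i = f s' i' → r s = r s' := by
    intro s s' i i' hi hi' h
    by_contra hne
    rcases lt_or_gt_of_ne hne with h1 | h1
    · have hk : r s < d := lt_of_lt_of_le h1 (hr s')
      have e1 := hze s i hi ⟨r s, hk⟩ le_rfl
      have e2 := hlo s' i' hi' ⟨r s, hk⟩ h1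
      rw [h] at e1
      omega
    · have hk : r s' < d := lt_of_lt_of_le h1 (hr s)
      have e1 := hze s' i' hi' ⟨r s', hk⟩ le_rfl
      have e2 := hlo s i hi ⟨r s', hk⟩ h1
      rw [← h] at e1
      omega
  -- the bound for the coefficients
  have hcB : ∀ v, |c v| ≤ m * ((W + 1) * B) := by
    intro v
    rw [hc]
    unfold tot
    refine (abs_sum_le_sum_abs _ _).trans ?_
    have e1 : ∀ s ∈ (univ : Finset (Fin m)), |∑ i ∈ range (W + 1), if f s i = v then a s i else 0| ≤
        ((W + 1) * B : ℤ) := by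
      intro s _
      refine (abs_sum_le_sum_abs _ _).trans ?_
      have e2 : ∀ i ∈ range (W + 1), |if f s i = v then a s i else 0| ≤ (B : ℤ) := by
        intro i hi
        rw [mem_range] at hi
        split_ifs
        · exact ha s i (by omega)
        · simp
      refine (sum_le_sum e2).trans (le_of_eq ?_)
      rw [sum_const, card_range, nsmul_eq_mul]
      push_cast
      ring
    refine (sum_le_sum e1).trans (le_of_eq ?_)
    rw [sum_const, card_univ, Fintype.card_fin, nsmul_eq_mul]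
  have hcB' : ∀ v, (∀ s', V s' = 0 → ∀ i ≤ W, f s' i ≠ v) → |c v| ≤ m * B := by
    intro v hv
    rw [hc]
    unfold tot
    refine (abs_sum_le_sum_abs _ _).trans ?_
    have e1 : ∀ s ∈ (univ : Finset (Fin m)), |∑ i ∈ range (W + 1), if f s i = v then a s i else 0| ≤
        (B : ℤ) := by
      intro s _
      by_cases hVs : V s = 0
      · have e2 : ∑ i ∈ range (W + 1), (if f s i = v then a s i else 0) = 0 := by
          refine sum_eq_zero fun i hi => ?_
          rw [mem_range] at hi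
          rw [if_neg (hv s hVs i (by omega))]
        rw [e2]
        simp
      · by_cases hex : ∃ i ≤ W, f s i = v
        · obtain ⟨i0, hi0, hi0v⟩ := hex
          have e2 : ∑ i ∈ range (W + 1), (if f s i = v then a s i else 0) = a s i0 := by
            rw [sum_eq_single i0]
            · rw [if_pos hi0v]
            · intro i hi hii
              rw [mem_range] at hi
              rw [if_neg]
              intro h2
              apply hVs
              funext k
              have e3 := hV s i (by omega) k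
              have e4 := hV s i0 hi0 k
              rw [h2] at e3
              rw [hi0v] at e4
              have e5 : ((i : ℤ) - i0) * V s k = 0 := by linarith
              rcases mul_eq_zero.1 e5 with h6 | h6
              · exact absurd (by omega) hii
              · exact h6
            · intro h2
              rw [mem_range] at h2
              omega
          rw [e2]
          exact ha s i0 hi0
        · push Not at hex
          have e2 : ∑ i ∈ range (W + 1), (if f s i = v then a s i else 0) = 0 := by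
            refine sum_eq_zero fun i hi => ?_
            rw [mem_range] at hi
            rw [if_neg (hex i (by omega))]
          rw [e2]
          simp
    refine (sum_le_sum e1).trans (le_of_eq ?_)
    rw [sum_const, card_univ, Fintype.card_fin, nsmul_eq_mul]
  set D : Dat d m := ⟨N, U, c, lab, V, r⟩ with hD
  have hOk : Ok (m * B + 1) K δ D := by
    refine ⟨hr, ?_, ?_, ?_, ?_, ?_, ?_, ?_, ?_, ?_, ?_⟩
    · intro u hu k hk
      obtain ⟨⟨i, hi, hiu⟩, _⟩ := hlab u (hUmem u hu).1
      rw [← hiu]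
      exact hlo _ i hi k hk
    · intro u hu k
      obtain ⟨⟨i, hi, hiu⟩, _⟩ := hlab u (hUmem u hu).1
      rw [← hiu]
      exact hup _ i hi k
    · intro u hu k hk
      obtain ⟨⟨i, hi, hiu⟩, _⟩ := hlab u (hUmem u hu).1
      rw [← hiu]
      exact hze _ i hi k hk
    · intro u hu
      exact (hUmem u hu).2
    · intro u _
      have e1 := hcB u
      have e2 : |(c u : ℝ)| ≤ m * ((W + 1) * B) := by exact_mod_cast e1
      refine e2.trans (le_trans ?_ hbig)
      have e3 : (0 : ℝ) ≤ m := Nat.cast_nonneg _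
      have e4 : (0 : ℝ) ≤ B := Nat.cast_nonneg _
      calc (m : ℝ) * ((W + 1) * B) ≤ m * ((N + 1) * (B + 1)) := by gcongr; linarith
        _ = _ := by ring
    · intro u hu u' hu' huu
      have e1 := hlab u (hUmem u hu).1
      have e2 := hlab u' (hUmem u' hu').1
      change lab u = lab u' at huu
      change |c u'| ≤ ((m * B + 1 : ℕ) : ℤ) * |c u|
      have hcu : 1 ≤ |c u| := Int.one_le_abs (hUmem u hu).2
      rcases e2.2 with h0 | h0
      · -- constant family
        have e3 : u = u' := by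
          obtain ⟨i, hi, hiu⟩ := e1.1
          obtain ⟨i', hi', hiu'⟩ := e2.1
          rw [huu] at hiu
          funext k
          have e4 := hV (lab u') i hi k
          have e5 := hV (lab u') i' hi' k
          have e6 := congrFun hiu k
          have e7 := congrFun hiu' k
          rw [h0] at e4 e5
          simp only [Pi.zero_apply, mul_zero, add_zero] at e4 e5
          omega
        rw [e3]
        rw [e3] at hcu
        push_cast
        have e4 : (0 : ℤ) ≤ m * B := by positivity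
        nlinarith
      · have e3 := hcB' u' h0
        push_cast
        have e4 : (0 : ℤ) ≤ m * B := by positivity
        nlinarith
    · intro u hu u' hu' huu k
      obtain ⟨⟨i, hi, hiu⟩, _⟩ := hlab u (hUmem u hu).1
      obtain ⟨⟨i', hi', hiu'⟩, _⟩ := hlab u' (hUmem u' hu').1
      change lab u = lab u' at huu
      have e1 := hcl (lab u) i hi i' hi' k
      rw [hiu] at e1
      rw [huu, hiu'] at e1
      change (u k : ℝ) ≤ u' k + δ * N
      linarith
    · intro u hu u' hu' huu
      obtain ⟨⟨i, hi, hiu⟩, _⟩ := hlab u (hUmem u hu).1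
      obtain ⟨⟨i', hi', hiu'⟩, _⟩ := hlab u' (hUmem u' hu').1
      change lab u = lab u' at huu
      refine ⟨(i : ℤ) - i', fun k => ?_⟩
      change (u k : ℤ) = u' k + ((i : ℤ) - i') * V (lab u) k
      have e1 := hV (lab u) i hi k
      have e2 := hV (lab u') i' hi' k
      rw [hiu] at e1
      rw [hiu', ← huu] at e2
      linarith
    · change (U.card : ℝ) ≤ Real.exp (δ * N)
      refine le_trans ?_ hbig
      have e1 : U.card ≤ m * (W + 1) := by
        refine (card_filter_le _ _).trans (card_biUnion_le.trans ?_)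
        have e2 : ∀ s ∈ (univ : Finset (Fin m)), ((range (W + 1)).image (f s)).card ≤ W + 1 := by
          intro s _
          exact card_image_le.trans (by rw [card_range])
        refine (sum_le_sum e2).trans (le_of_eq ?_)
        rw [sum_const, card_univ, Fintype.card_fin, smul_eq_mul]
      have e2 : (U.card : ℝ) ≤ m * (W + 1) := by exact_mod_cast e1
      have e3 : (0 : ℝ) ≤ m := Nat.cast_nonneg _
      have e4 : (0 : ℝ) ≤ B := Nat.cast_nonneg _
      calc (U.card : ℝ) ≤ m * (W + 1) := e2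
        _ ≤ m * (N + 1) := by gcongr
        _ = m * 1 * (N + 1) := by ring
        _ ≤ m * (B + 1) * (N + 1) := by gcongr; linarith
    · obtain ⟨v, hv⟩ := hne
      exact ⟨v, hUof v (hcne v hv) hv⟩
  have key := hP D hPN hOk
  have hsum : D.S M = ∑ s, ∑ i ∈ range (W + 1), (a s i : ℝ) * ∑ y ∈ DY d (r s) M, un (f s i) y := by
    set g : (Fin d → ℕ) → ℝ := fun v => ∑ y ∈ DY d (r (lab v)) M, un v y with hg
    have e1 : ∀ s, ∀ i ∈ range (W + 1), (a s i : ℝ) * ∑ y ∈ DY d (r s) M, un (f s i) y =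
        (a s i : ℝ) * g (f s i) := by
      intro s i hi
      rw [mem_range] at hi
      rw [hg]
      simp only
      obtain ⟨⟨i', hi', hiu⟩, _⟩ := hlab (f s i) ⟨s, i, by omega, rfl⟩
      rw [hdep s (lab (f s i)) i i' (by omega) hi' hiu.symm]
    rw [sum_congr rfl fun s _ => sum_congr rfl (e1 s)]
    have e2 : ∀ s, ∀ i ∈ range (W + 1), (a s i : ℝ) * g (f s i) =
        ∑ v ∈ (univ.biUnion fun s => (range (W + 1)).image (f s)),
          (if f s i = v then (a s i : ℝ) else 0) * g v := by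
      intro s i hi
      rw [sum_eq_single (f s i)]
      · rw [if_pos rfl]
      · intro v _ hv
        rw [if_neg (Ne.symm hv), zero_mul]
      · intro h
        exact absurd (mem_biUnion.2 ⟨s, mem_univ _, mem_image_of_mem _ hi⟩) h
    rw [sum_congr rfl fun s _ => sum_congr rfl (e2 s)]
    have e3 : ∑ s, ∑ i ∈ range (W + 1), ∑ v ∈ (univ.biUnion fun s => (range (W + 1)).image (f s)),
          (if f s i = v then (a s i : ℝ) else 0) * g v =
        ∑ v ∈ (univ.biUnion fun s => (range (W + 1)).image (f s)), (c v : ℝ) * g v := by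
      rw [sum_congr rfl fun s _ => sum_comm, sum_comm]
      refine sum_congr rfl fun v _ => ?_
      rw [hc]
      unfold tot
      push_cast
      rw [sum_mul]
      refine sum_congr rfl fun s _ => ?_
      rw [sum_mul]
    rw [e3]
    change ∑ v ∈ U, (c v : ℝ) * g v = _
    rw [hU, sum_filter]
    refine sum_congr rfl fun v _ => ?_
    split_ifs with h0
    · rfl
    · rw [not_not] at h0
      rw [h0]
      simp
  rw [hsum] at key
  exact key

end Pool.Agent.D0H51.AP
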