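import Mathlib
import Pool.Agent.D0H51.AP.Fam

/-!
# Linear relations between multiple zeta values along boundedly many progressions
-/

set_option autoImplicit false

namespace Pool.Agent.D0H51.AP

open Finset
open Pool.Agent.D0H51.DR (un)
open Pool.Agent.D0H51.DZ (ev_small)

lemma pad_inj {d : ℕ} {l l' : List ℕ} (h1 : l.length ≤ d) (h1' : l'.length ≤ d)
    (h2 : ∀ x ∈ l, 1 ≤ x) (h2' : ∀ x ∈ l', 1 ≤ x) (h : pad d l = pad d l') : l = l' := by
  have key : ∀ {a b : List ℕ}, a.length ≤ d → b.length ≤ d → (∀ x ∈ b, 1 ≤ x) → pad d a = pad d b →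
      b.length ≤ a.length := by
    intro a b ha hb hbp hab
    by_contra hcon
    push Not at hcon
    have h3 := congrFun hab ⟨a.length, by omega⟩
    unfold pad at h3
    simp only at h3
    rw [List.getD_eq_default _ _ le_rfl, List.getD_eq_getElem _ _ hcon] at h3
    have := hbp _ (List.getElem_mem hcon)
    omega
  have hlen : l.length = l'.length := le_antisymm (key h1' h1 h2 h.symm) (key h1 h1' h2' h)
  refine List.ext_getElem hlen fun k hk hk' => ?_
  have h3 := congrFun h ⟨k, by omega⟩
  unfold pad at h3
  simp only at h3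
  rw [List.getD_eq_getElem _ _ hk, List.getD_eq_getElem _ _ hk'] at h3
  exact h3

lemma getD_dropLast (l : List ℕ) (k : ℕ) :
    l.dropLast.getD k 0 = if k + 1 < l.length then l.getD k 0 else 0 := by
  split_ifs with h
  · rw [List.getD_eq_getElem _ _ (by rw [List.length_dropLast]; omega),
      List.getD_eq_getElem _ _ (by omega), List.getElem_dropLast]
  · rw [List.getD_eq_default _ _ (by rw [List.length_dropLast]; omega)]

lemma cases2 {m : ℕ} {α : Type} (g g' : Fin m → α) : ∃ f : Fin (m + m) → α,
    (∀ t, f (Fin.castAdd m t) = g t) ∧ ∀ t, f (Fin.natAdd m t) = g' t :=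
  ⟨Fin.addCases g g', fun _ => Fin.addCases_left _, fun _ => Fin.addCases_right _⟩

/-- the coefficient of the index `u` -/
def totL {m : ℕ} (W : ℕ) (w : Fin m → ℕ → List ℕ) (a : Fin m → ℕ → ℤ) (u : List ℕ) : ℤ :=
  ∑ t, ∑ i ∈ range (W + 1), if w t i = u then a t i else 0

/-- **Families of indices.** -/
theorem core (d m B κ : ℕ) : ∃ (δ : ℝ) (C P : ℕ), 0 < δ ∧ 0 < C ∧
    ∀ (N W : ℕ) (r : Fin m → ℕ) (w : Fin m → ℕ → List ℕ) (V : Fin m → ℕ → ℤ) (a : Fin m → ℕ → ℤ),
      P ≤ N → (W : ℝ) ≤ δ * N → (∀ t, r t ≤ d) → (∀ t, ∀ i ≤ W, (w t i).length = r t) →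
      (∀ t, ∀ i ≤ W, ∀ x ∈ w t i, N ≤ x ∧ x ≤ κ * N) →
      (∀ t, ∀ i ≤ W, ∀ k, ((w t i).getD k 0 : ℤ) = (w t 0).getD k 0 + i * V t k) →
      (∀ t, ∀ i ≤ W, ∀ j ≤ W, ∀ k, ((w t i).getD k 0 : ℝ) ≤ (w t j).getD k 0 + δ * N) →
      (∀ t, ∀ i ≤ W, |a t i| ≤ (B : ℤ)) → (∃ u, totL W w a u ≠ 0) →
      1 / (C : ℝ) ^ N < |∑ t, ∑ i ∈ range (W + 1), (a t i : ℝ) * mzv (w t i)| := by
  classical
  obtain ⟨X, hX1, h⟩ := red d (m + m) B κ
  set H : ℕ := X ^ (d * κ) + 1 with hH
  set M : ℕ := max X (2 * H) with hM
  obtain ⟨δ, hδ, P, h⟩ := h M (le_max_left _ _) H (by rw [hH]; push_cast; linarith)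
  set CM : ℕ := ∑ r ∈ range (d + 1), DR.CC r with hCM
  obtain ⟨P1, hP1⟩ := ev_small (4 * (m * B * (2 * CM * ((M : ℝ) + 1) ^ 2))) (Real.log 2) (by positivity)
    (Real.log_pos one_lt_two)
  refine ⟨min δ 1, 2 * H, max P (max P1 2), lt_min hδ one_pos, by omega, ?_⟩
  intro N W r w V a hPN hW hr hlen hent hV hcl ha hne
  simp only [max_le_iff] at hPN
  obtain ⟨hPN, hP1N, hN2⟩ := hPN
  have hN0 : (0 : ℝ) ≤ N := Nat.cast_nonneg _
  have hWN : (W : ℝ) ≤ N := by
    have := hW.trans (mul_le_mul_of_nonneg_right (min_le_right _ _) hN0)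
    rwa [one_mul] at this
  have hδN : min δ 1 * N ≤ δ * N := mul_le_mul_of_nonneg_right (min_le_left _ _) hN0
  -- the families
  obtain ⟨r', er1, er2⟩ := cases2 (fun t : Fin m => r t) (fun t => r t - 1)
  obtain ⟨f, ef1, ef2⟩ := cases2 (fun (t : Fin m) (i : ℕ) => pad d (w t i))
    (fun t i => pad d (w t i).dropLast)
  obtain ⟨V', ev1, ev2⟩ := cases2 (fun (t : Fin m) (k : Fin d) => V t k)
    (fun t k => if (k : ℕ) + 1 < r t then V t k else 0)
  obtain ⟨a', ea1, ea2⟩ := cases2 (fun (t : Fin m) (i : ℕ) => a t i)
    (fun t i => if r t = 0 then 0 else a t i)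
  have hpad1 : ∀ (t : Fin m) i, i ≤ W → ∀ k : Fin d, (k : ℕ) < r t →
      N ≤ pad d (w t i) k ∧ pad d (w t i) k ≤ κ * N := by
    intro t i hi k hk
    unfold pad
    rw [List.getD_eq_getElem _ _ (by rw [hlen t i hi]; exact hk)]
    exact hent t i hi _ (List.getElem_mem _)
  have hpad0 : ∀ (t : Fin m) i, i ≤ W → ∀ k : Fin d, r t ≤ (k : ℕ) → pad d (w t i) k = 0 := by
    intro t i hi k hk
    unfold pad
    rw [List.getD_eq_default _ _ (by rw [hlen t i hi]; exact hk)]
  have hpad2 : ∀ (t : Fin m) i, i ≤ W → ∀ k : Fin d,
      pad d (w t i).dropLast k = if (k : ℕ) + 1 < r t then pad d (w t i) k else 0 := by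
    intro t i hi k
    unfold pad
    rw [getD_dropLast, hlen t i hi]
  have hent1 : ∀ (t : Fin m) i, i ≤ W → ∀ x ∈ w t i, 1 ≤ x := by
    intro t i hi x hx
    have := (hent t i hi x hx).1
    omega
  -- the nonvanishing of the total coefficient
  have htot : ∃ v, tot W f a' v ≠ 0 := by
    by_contra hno
    push Not at hno
    obtain ⟨u0, hu0⟩ := hne
    apply hu0
    -- the total coefficient
    have hsplit : ∀ u : List ℕ, (∃ t, ∃ i ≤ W, w t i = u) →
        totL W w a u + ∑ x ∈ range (κ * N + 1), totL W w a (u ++ [x]) = 0 := by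
      intro u hu
      obtain ⟨t0, i0, hi0, htu⟩ := hu
      have hud : u.length ≤ d := by rw [← htu, hlen t0 i0 hi0]; exact hr t0
      have hu1 : ∀ x ∈ u, 1 ≤ x := by rw [← htu]; exact hent1 t0 i0 hi0
      have h0 := hno (pad d u)
      unfold tot at h0
      rw [Fin.sum_univ_add] at h0
      rw [← h0]
      congr 1
      · unfold totL
        refine sum_congr rfl fun t _ => sum_congr rfl fun i hi => ?_
        rw [mem_range] at hi
        rw [ef1, ea1]
        simp only
        by_cases h1 : w t i = u
        · rw [if_pos h1, if_pos (by rw [h1])]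
        · rw [if_neg h1, if_neg]
          intro h2
          exact h1 (pad_inj (by rw [hlen t i (by omega)]; exact hr t) hud (hent1 t i (by omega)) hu1 h2)
      · unfold totL
        rw [sum_comm]
        refine sum_congr rfl fun t _ => ?_
        rw [sum_comm]
        refine sum_congr rfl fun i hi => ?_
        rw [mem_range] at hi
        rw [ef2, ea2]
        simp only
        by_cases hrt : r t = 0
        · rw [if_pos hrt, ite_self]
          refine sum_eq_zero fun x _ => ?_
          rw [if_neg]
          intro h1
          have h2 := hlen t i (by omega)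
          rw [h1, hrt] at h2
          simp at h2
        · rw [if_neg hrt]
          have hwne : w t i ≠ [] := by
            intro h1
            have h2 := hlen t i (by omega)
            rw [h1] at h2
            exact hrt h2.symm
          by_cases h1 : (w t i).dropLast = u
          · rw [if_pos (by rw [h1]), sum_eq_single ((w t i).getLast hwne)]
            · rw [if_pos]
              rw [← h1]
              exact (List.dropLast_append_getLast hwne).symm
            · intro x _ hx
              rw [if_neg]
              intro h2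
              apply hx
              have h3 : (w t i).getLast hwne = (u ++ [x]).getLast (by simp) := by
                congr 1
              rw [h3, List.getLast_append_singleton]
            · intro h2
              exfalso
              apply h2
              rw [mem_range]
              have := (hent t i (by omega) _ (List.getLast_mem hwne)).2
              omega
          · rw [if_neg]
            · refine sum_eq_zero fun x _ => ?_
              rw [if_neg]
              intro h2
              apply h1
              rw [h2, List.dropLast_concat]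
            · intro h2
              apply h1
              refine pad_inj ?_ hud ?_ hu1 h2
              · rw [List.length_dropLast, hlen t i (by omega)]
                have := hr t
                omega
              · intro x hx
                exact hent1 t i (by omega) x (List.mem_of_mem_dropLast hx)
    have hnone : ∀ u : List ℕ, (¬ ∃ t, ∃ i ≤ W, w t i = u) → totL W w a u = 0 := by
      intro u hu
      push Not at hu
      unfold totL
      refine sum_eq_zero fun t _ => sum_eq_zero fun i hi => ?_
      rw [mem_range] at hi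
      rw [if_neg (hu t i (by omega))]
    have hind : ∀ n : ℕ, ∀ u : List ℕ, d < u.length + n → totL W w a u = 0 := by
      intro n
      induction n with
      | zero =>
        intro u hu
        apply hnone
        rintro ⟨t, i, hi, htu⟩
        have h1 := hlen t i hi
        have h2 := hr t
        rw [htu] at h1
        omega
      | succ n ih =>
        intro u hu
        by_cases hex : ∃ t, ∃ i ≤ W, w t i = u
        · have h1 := hsplit u hex
          have h2 : ∑ x ∈ range (κ * N + 1), totL W w a (u ++ [x]) = 0 := by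
            refine sum_eq_zero fun x _ => ih _ ?_
            rw [List.length_append, List.length_singleton]
            omega
          rw [h2, add_zero] at h1
          exact h1
        · exact hnone u hex
    exact hind (d + 1) u0 (by omega)
  -- the truncated sum
  have hred := h N W r' f V' a' hPN (hW.trans hδN) ?_ ?_ ?_ ?_ ?_ ?_ ?_ htot
  · set Λ := ∑ t, ∑ i ∈ range (W + 1), (a t i : ℝ) * mzv (w t i) with hΛ
    have hS : ∑ s, ∑ i ∈ range (W + 1), (a' s i : ℝ) * ∑ y ∈ DY d (r' s) M, un (f s i) y =
        ∑ t, ∑ i ∈ range (W + 1), (a t i : ℝ) * trunc (w t i) (M + 1) := by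
      rw [Fin.sum_univ_add, ← sum_add_distrib]
      refine sum_congr rfl fun t _ => ?_
      rw [← sum_add_distrib]
      refine sum_congr rfl fun i hi => ?_
      rw [mem_range] at hi
      rw [ef1, ef2, ea1, ea2, er1, er2]
      simp only
      have e1 := tr2_eq (w t i) d M (by rw [hlen t i (by omega)]; exact hr t)
      rw [hlen t i (by omega)] at e1
      rw [← e1]
      by_cases hrt : r t = 0
      · rw [if_pos hrt]
        have h1 : w t i = [] := by
          have := hlen t i (by omega)
          rw [hrt] at this
          exact List.eq_nil_of_length_eq_zero this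
        rw [h1, trunc, tr2]
        push_cast
        ring
      · rw [if_neg hrt]
        have hwne : w t i ≠ [] := by
          intro h1
          have h2 := hlen t i (by omega)
          rw [h1] at h2
          exact hrt h2.symm
        have e2 := tr2_eq (w t i).dropLast d M (by
          rw [List.length_dropLast, hlen t i (by omega)]
          have := hr t
          omega)
        rw [List.length_dropLast, hlen t i (by omega)] at e2
        rw [← e2, trunc_eq_tr2 _ hwne _ (by omega)]
        ring
    rw [hS] at hred
    set S := ∑ t, ∑ i ∈ range (W + 1), (a t i : ℝ) * trunc (w t i) (M + 1) with hSd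
    have hMH : 2 * (H : ℝ) ≤ (M : ℝ) + 1 := by
      have : 2 * H ≤ M := le_max_right _ _
      have h2 : (2 * H : ℝ) ≤ M := by exact_mod_cast this
      linarith
    have hH0 : (0 : ℝ) < H := by
      have : 0 < H := by omega
      exact_mod_cast this
    have herr : |Λ - S| ≤ m * B * (2 * CM * ((M : ℝ) + 1) ^ 2) * (N + 1) / (2 * (H : ℝ)) ^ N := by
      rw [hΛ, hSd, ← sum_sub_distrib]
      refine (abs_sum_le_sum_abs _ _).trans ?_
      have e1 : ∀ t ∈ (univ : Finset (Fin m)), |∑ i ∈ range (W + 1), (a t i : ℝ) * mzv (w t i) -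
          ∑ i ∈ range (W + 1), (a t i : ℝ) * trunc (w t i) (M + 1)| ≤
          B * (2 * CM * ((M : ℝ) + 1) ^ 2) * (N + 1) / (2 * (H : ℝ)) ^ N := by
        intro t _
        rw [← sum_sub_distrib]
        refine (abs_sum_le_sum_abs _ _).trans ?_
        have e2 : ∀ i ∈ range (W + 1), |(a t i : ℝ) * mzv (w t i) - (a t i : ℝ) * trunc (w t i) (M + 1)| ≤
            B * (2 * CM * ((M : ℝ) + 1) ^ 2) / (2 * (H : ℝ)) ^ N := by
          intro i hi
          rw [mem_range] at hi
          rw [← mul_sub, abs_mul]
          have e3 : |(a t i : ℝ)| ≤ B := by exact_mod_cast ha t i (by omega)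
          have e4 : |mzv (w t i) - trunc (w t i) (M + 1)| ≤
              2 * CM * ((M : ℝ) + 1) ^ 2 / (2 * (H : ℝ)) ^ N := by
            by_cases hw : w t i = []
            · rw [hw, mzv, trunc, sub_self, abs_zero]
              positivity
            · refine (mzv_err (w t i) hw (fun s hs => hN2.trans (hent t i (by omega) s hs).1) M N
                (fun s hs => (hent t i (by omega) s hs).1)).trans ?_
              have e5 : (DR.CC (w t i).length : ℝ) ≤ CM := by
                have : DR.CC (w t i).length ≤ CM := by
                  rw [hCM]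
                  refine single_le_sum (f := DR.CC) (fun _ _ => Nat.zero_le _) ?_
                  rw [mem_range, hlen t i (by omega)]
                  have := hr t
                  omega
                exact_mod_cast this
              rw [mul_div_assoc]
              gcongr
          calc |(a t i : ℝ)| * |mzv (w t i) - trunc (w t i) (M + 1)|
              ≤ B * (2 * CM * ((M : ℝ) + 1) ^ 2 / (2 * (H : ℝ)) ^ N) := by gcongr
            _ = _ := by ring
        refine (sum_le_sum e2).trans ?_
        rw [sum_const, card_range, nsmul_eq_mul]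
        calc ((W + 1 : ℕ) : ℝ) * (B * (2 * CM * ((M : ℝ) + 1) ^ 2) / (2 * (H : ℝ)) ^ N)
            ≤ ((N : ℝ) + 1) * (B * (2 * CM * ((M : ℝ) + 1) ^ 2) / (2 * (H : ℝ)) ^ N) := by
              gcongr
              push_cast
              linarith
          _ = _ := by ring
      refine (sum_le_sum e1).trans (le_of_eq ?_)
      rw [sum_const, card_univ, Fintype.card_fin, nsmul_eq_mul]
      ring
    have hhalf : m * B * (2 * CM * ((M : ℝ) + 1) ^ 2) * (N + 1) / (2 * (H : ℝ)) ^ N ≤
        1 / 2 * (1 / (H : ℝ) ^ N) := by
      have e1 := hP1 N (by exact_mod_cast hP1N)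
      have e2 : Real.exp (-(Real.log 2 * N)) = 1 / 2 ^ N := by
        rw [Real.exp_neg, mul_comm, Real.exp_nat_mul, Real.exp_log two_pos, one_div]
      rw [e2] at e1
      have e3 : m * B * (2 * CM * ((M : ℝ) + 1) ^ 2) * (N + 1) / (2 * (H : ℝ)) ^ N =
          (4 * (m * B * (2 * CM * ((M : ℝ) + 1) ^ 2)) * ((N : ℝ) + 1) * (1 / 2 ^ N)) *
            (1 / 4 * (1 / (H : ℝ) ^ N)) := by
        rw [mul_pow]
        field_simp
      rw [e3]
      have e4 : 0 < 1 / 4 * (1 / (H : ℝ) ^ N) := by positivity
      nlinarith
    have hfin : 1 / 2 * (1 / (H : ℝ) ^ N) < |Λ| := by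
      have e1 : |S| ≤ |Λ| + |Λ - S| := by
        have e2 : S = Λ - (Λ - S) := by ring
        calc |S| = |Λ - (Λ - S)| := by rw [← e2]
          _ ≤ _ := abs_sub _ _
      linarith
    refine lt_of_le_of_lt ?_ hfin
    have e1 : (2 : ℝ) ≤ 2 ^ N := by
      calc (2 : ℝ) = 2 ^ 1 := (pow_one _).symm
        _ ≤ 2 ^ N := pow_le_pow_right₀ (by norm_num) (by omega)
    push_cast
    rw [mul_pow]
    have e2 : 1 / 2 * (1 / (H : ℝ) ^ N) = 1 / (2 * (H : ℝ) ^ N) := by field_simp
    rw [e2]
    apply one_div_le_one_div_of_le (by positivity)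
    gcongr
  · intro s
    refine Fin.addCases (fun t => ?_) (fun t => ?_) s
    · rw [er1]; exact hr t
    · rw [er2]; have := hr t; omega
  · intro s
    refine Fin.addCases (fun t => ?_) (fun t => ?_) s
    · intro i hi k hk
      rw [er1] at hk
      rw [ef1]
      exact (hpad1 t i hi k hk).1
    · intro i hi k hk
      rw [er2] at hk
      rw [ef2]
      simp only
      rw [hpad2 t i hi, if_pos (by omega)]
      exact (hpad1 t i hi k (by omega)).1
  · intro s
    refine Fin.addCases (fun t => ?_) (fun t => ?_) s
    · intro i hi k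
      rw [ef1]
      simp only
      by_cases hk : (k : ℕ) < r t
      · exact (hpad1 t i hi k hk).2
      · rw [hpad0 t i hi k (by omega)]
        exact Nat.zero_le _
    · intro i hi k
      rw [ef2]
      simp only
      rw [hpad2 t i hi]
      split_ifs with hk
      · exact (hpad1 t i hi k (by omega)).2
      · exact Nat.zero_le _
  · intro s
    refine Fin.addCases (fun t => ?_) (fun t => ?_) s
    · intro i hi k hk
      rw [er1] at hk
      rw [ef1]
      exact hpad0 t i hi k hk
    · intro i hi k hk
      rw [er2] at hk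
      rw [ef2]
      simp only
      rw [hpad2 t i hi, if_neg (by omega)]
  · intro s
    refine Fin.addCases (fun t => ?_) (fun t => ?_) s
    · intro i hi k
      rw [ef1, ev1]
      exact hV t i hi k
    · intro i hi k
      rw [ef2, ev2]
      simp only
      rw [hpad2 t i hi, hpad2 t 0 (Nat.zero_le _)]
      split_ifs with hk
      · exact hV t i hi k
      · simp
  · intro s
    refine Fin.addCases (fun t => ?_) (fun t => ?_) s
    · intro i hi j hj k
      rw [ef1]
      have e9 := hcl t i hi j hj k
      change (((w t i).getD k 0 : ℕ) : ℝ) ≤ (((w t j).getD k 0 : ℕ) : ℝ) + δ * N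
      linarith
    · intro i hi j hj k
      rw [ef2]
      simp only
      rw [hpad2 t i hi, hpad2 t j hj]
      split_ifs with hk
      · have e9 := hcl t i hi j hj k
        change (((w t i).getD k 0 : ℕ) : ℝ) ≤ (((w t j).getD k 0 : ℕ) : ℝ) + δ * N
        linarith
      · push_cast
        positivity
  · intro s
    refine Fin.addCases (fun t => ?_) (fun t => ?_) s
    · intro i hi
      rw [ea1]
      exact ha t i hi
    · intro i hi
      rw [ea2]
      simp only
      split_ifs
      · simp
      · exact ha t i hi

end Pool.Agent.D0H51.AP
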