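import Mathlib
import Pool.Agent.D0H51.AP.Tup2

/-!
# The stuffle product
-/

set_option autoImplicit false

namespace Pool.Agent.D0H51.AP

open Finset Filter Topology

/-- the indices in the stuffle product of two indices, letters in a semigroup -/
def stg {α : Type} [Add α] : List α → List α → List (List α)
  | [], v => [v]
  | x :: u, [] => [x :: u]
  | x :: u, y :: v => (stg u (y :: v)).map (x :: ·) ++ (stg (x :: u) v).map (y :: ·) ++
      (stg u v).map ((x + y) :: ·)
termination_by k l => k.length + l.length

section gen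

variable {α : Type} [Add α]

lemma stg_map {β : Type} [Add β] (φ : α → β) (hφ : ∀ x y, φ (x + y) = φ x + φ y) :
    ∀ u v : List α, stg (u.map φ) (v.map φ) = (stg u v).map (List.map φ) := by
  intro u v
  induction u, v using stg.induct with
  | case1 v => rw [List.map_nil, stg, stg, List.map_singleton]
  | case2 x u => rw [List.map_cons, List.map_nil, stg, stg, List.map_singleton, List.map_cons]
  | case3 x u y v ih1 ih2 ih3 =>
    rw [List.map_cons, List.map_cons, stg, stg]
    rw [List.map_cons] at ih1 ih2
    rw [ih1, ih2, ih3]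
    simp only [List.map_append, List.map_map]
    congr 1
    congr 1
    funext w
    simp [hφ]

lemma stg_len (u v : List α) : ∀ w ∈ stg u v, w.length ≤ u.length + v.length := by
  induction u, v using stg.induct with
  | case1 v =>
    intro w hw
    rw [stg, List.mem_singleton] at hw
    rw [hw]
    simp
  | case2 x u =>
    intro w hw
    rw [stg, List.mem_singleton] at hw
    rw [hw]
    simp
  | case3 x u y v ih1 ih2 ih3 =>
    intro w hw
    rw [stg] at hw
    simp only [List.mem_append, List.mem_map] at hw
    simp only [List.length_cons] at ih1 ih2 ih3 ⊢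
    rcases hw with (⟨z, hz, rfl⟩ | ⟨z, hz, rfl⟩) | ⟨z, hz, rfl⟩
    · have := ih1 z hz
      rw [List.length_cons]
      omega
    · have := ih2 z hz
      rw [List.length_cons]
      omega
    · have := ih3 z hz
      rw [List.length_cons]
      omega

lemma stg_card (u v : List α) : (stg u v).length ≤ 3 ^ (u.length + v.length) := by
  induction u, v using stg.induct with
  | case1 v =>
    rw [stg, List.length_singleton]
    exact Nat.one_le_pow _ _ (by norm_num)
  | case2 x u =>
    rw [stg, List.length_singleton]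
    exact Nat.one_le_pow _ _ (by norm_num)
  | case3 x u y v ih1 ih2 ih3 =>
    rw [stg]
    simp only [List.length_append, List.length_map, List.length_cons] at ih1 ih2 ih3 ⊢
    have e1 : 3 ^ (u.length + 1 + (v.length + 1)) = 9 * 3 ^ (u.length + v.length) := by ring
    have e2 : 3 ^ (u.length + (v.length + 1)) = 3 * 3 ^ (u.length + v.length) := by ring
    have e3 : 3 ^ (u.length + 1 + v.length) = 3 * 3 ^ (u.length + v.length) := by ring
    rw [e2] at ih1
    rw [e3] at ih2
    rw [e1]
    omega

lemma stg_ne (u v : List α) (h : u ≠ [] ∨ v ≠ []) : ∀ w ∈ stg u v, w ≠ [] := by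
  induction u, v using stg.induct with
  | case1 v =>
    intro w hw
    rw [stg, List.mem_singleton] at hw
    rw [hw]
    exact h.resolve_left fun h' => h' rfl
  | case2 x u =>
    intro w hw
    rw [stg, List.mem_singleton] at hw
    rw [hw]
    exact List.cons_ne_nil _ _
  | case3 x u y v _ _ _ =>
    intro w hw
    rw [stg] at hw
    simp only [List.mem_append, List.mem_map] at hw
    rcases hw with (⟨z, _, rfl⟩ | ⟨z, _, rfl⟩) | ⟨z, _, rfl⟩ <;> exact List.cons_ne_nil _ _

lemma stg_letters (Q : ℕ → α → Prop) (hm : ∀ a b x, Q a x → Q (a + b) x)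
    (hm' : ∀ a b x, Q b x → Q (a + b) x)
    (ha : ∀ a b x y, Q a x → Q b y → Q (a + b) (x + y)) (a b : ℕ) (u v : List α) :
    (∀ x ∈ u, Q a x) → (∀ x ∈ v, Q b x) → ∀ w ∈ stg u v, ∀ x ∈ w, Q (a + b) x := by
  induction u, v using stg.induct with
  | case1 v =>
    intro _ h2 w hw x hx
    rw [stg, List.mem_singleton] at hw
    rw [hw] at hx
    exact hm' a b x (h2 x hx)
  | case2 y u =>
    intro h1 _ w hw x hx
    rw [stg, List.mem_singleton] at hw
    rw [hw] at hx
    exact hm a b x (h1 x hx)
  | case3 x u y v ih1 ih2 ih3 =>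
    intro h1 h2 w hw z hz
    rw [stg] at hw
    simp only [List.mem_append, List.mem_map] at hw
    rcases hw with (⟨q, hq, rfl⟩ | ⟨q, hq, rfl⟩) | ⟨q, hq, rfl⟩
    · rcases List.mem_cons.1 hz with rfl | hz
      · exact hm a b _ (h1 _ List.mem_cons_self)
      · exact ih1 (fun x hx => h1 x (List.mem_cons_of_mem _ hx)) h2 q hq z hz
    · rcases List.mem_cons.1 hz with rfl | hz
      · exact hm' a b _ (h2 _ List.mem_cons_self)
      · exact ih2 h1 (fun x hx => h2 x (List.mem_cons_of_mem _ hx)) q hq z hz
    · rcases List.mem_cons.1 hz with rfl | hz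
      · exact ha a b _ _ (h1 _ List.mem_cons_self) (h2 _ List.mem_cons_self)
      · exact ih3 (fun x hx => h1 x (List.mem_cons_of_mem _ hx))
          (fun x hx => h2 x (List.mem_cons_of_mem _ hx)) q hq z hz

/-- the stuffle product of several indices -/
def prodW : List (List α) → List (List α)
  | [] => [[]]
  | u :: M => (prodW M).flatMap (stg u)

lemma prodW_map {β : Type} [Add β] (φ : α → β) (hφ : ∀ x y, φ (x + y) = φ x + φ y)
    (M : List (List α)) : prodW (M.map (List.map φ)) = (prodW M).map (List.map φ) := by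
  induction M with
  | nil => simp [prodW]
  | cons u M ih =>
    rw [List.map_cons, prodW, prodW, ih, List.flatMap_map, List.map_flatMap]
    congr 1
    funext w
    exact stg_map φ hφ u w

lemma prodW_len (d : ℕ) (M : List (List α)) (hM : ∀ u ∈ M, u.length ≤ d) :
    ∀ w ∈ prodW M, w.length ≤ M.length * d := by
  induction M with
  | nil =>
    intro w hw
    rw [prodW, List.mem_singleton] at hw
    rw [hw]
    simp
  | cons u M ih =>
    intro w hw
    rw [prodW, List.mem_flatMap] at hw
    obtain ⟨z, hz, hw⟩ := hw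
    have h1 := ih (fun u hu => hM u (List.mem_cons_of_mem _ hu)) z hz
    have h2 := stg_len u z w hw
    have h3 := hM u List.mem_cons_self
    rw [List.length_cons, Nat.add_mul, one_mul]
    omega

lemma prodW_card (d : ℕ) (M : List (List α)) (hM : ∀ u ∈ M, u.length ≤ d) :
    (prodW M).length ≤ 3 ^ ((M.length * d) * M.length) := by
  induction M with
  | nil => simp [prodW]
  | cons u M ih =>
    have h1 := ih (fun u hu => hM u (List.mem_cons_of_mem _ hu))
    rw [prodW, List.length_flatMap]
    have h2 : ∀ z ∈ (prodW M).map (fun z => (stg u z).length), z ≤ 3 ^ ((M.length + 1) * d) := by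
      intro z hz
      rw [List.mem_map] at hz
      obtain ⟨w, hw, rfl⟩ := hz
      refine (stg_card u w).trans (Nat.pow_le_pow_right (by norm_num) ?_)
      have h3 := prodW_len d M (fun u hu => hM u (List.mem_cons_of_mem _ hu)) w hw
      have h4 := hM u List.mem_cons_self
      rw [Nat.add_mul, one_mul]
      omega
    have h3 := List.sum_le_card_nsmul _ _ h2
    rw [List.length_map, smul_eq_mul] at h3
    refine h3.trans ?_
    rw [List.length_cons]
    calc (prodW M).length * 3 ^ ((M.length + 1) * d)
        ≤ 3 ^ (M.length * d * M.length) * 3 ^ ((M.length + 1) * d) := Nat.mul_le_mul_right _ h1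
      _ = 3 ^ (M.length * d * M.length + (M.length + 1) * d) := by rw [pow_add]
      _ ≤ 3 ^ ((M.length + 1) * d * (M.length + 1)) := by
          apply Nat.pow_le_pow_right (by norm_num)
          have : (M.length + 1) * d * (M.length + 1) =
            M.length * d * M.length + (M.length + 1) * d + M.length * d := by ring
          omega

lemma prodW_letters (Q : ℕ → α → Prop) (hm : ∀ a b x, Q a x → Q (a + b) x)
    (hm' : ∀ a b x, Q b x → Q (a + b) x)
    (ha : ∀ a b x y, Q a x → Q b y → Q (a + b) (x + y)) (M : List (List α))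
    (hM : ∀ u ∈ M, ∀ x ∈ u, Q 1 x) : ∀ w ∈ prodW M, ∀ x ∈ w, Q M.length x := by
  induction M with
  | nil =>
    intro w hw x hx
    rw [prodW, List.mem_singleton] at hw
    rw [hw] at hx
    exact absurd hx List.not_mem_nil
  | cons u M ih =>
    intro w hw x hx
    rw [prodW, List.mem_flatMap] at hw
    obtain ⟨z, hz, hw⟩ := hw
    rw [List.length_cons, add_comm]
    exact stg_letters Q hm hm' ha 1 M.length u z (hM u List.mem_cons_self)
      (ih (fun u hu => hM u (List.mem_cons_of_mem _ hu)) z hz) w hw x hx

end gen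

/-- admissible indices -/
def Adm : List ℕ → Prop
  | [] => False
  | s :: l => 2 ≤ s ∧ ∀ t ∈ l, 1 ≤ t

/-- nonempty lists of letters at least two -/
def Ge2 (u : List ℕ) : Prop := u ≠ [] ∧ ∀ x ∈ u, 2 ≤ x

lemma Ge2.adm {u : List ℕ} (h : Ge2 u) : Adm u := by
  cases u with
  | nil => exact absurd rfl h.1
  | cons x u =>
    exact ⟨h.2 x List.mem_cons_self, fun y hy => by
      have := h.2 y (List.mem_cons_of_mem _ hy)
      omega⟩

/-- the extension to the empty index -/
def zp {A : Type} [One A] (Z : List ℕ → A) (u : List ℕ) : A := if u = [] then 1 else Z u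

lemma zp_mul {A : Type} [CommRing A] {Z : List ℕ → A}
    (hZ : ∀ u v, Ge2 u → Ge2 v → Z u * Z v = ((stg u v).map Z).sum) (u v : List ℕ)
    (hu : Ge2 u ∨ u = []) (hv : Ge2 v ∨ v = []) : zp Z u * zp Z v = ((stg u v).map (zp Z)).sum := by
  rcases hu with hu | rfl
  · have hune : u ≠ [] := hu.1
    rcases hv with hv | rfl
    · have hvne : v ≠ [] := hv.1
      unfold zp
      rw [if_neg hune, if_neg hvne, hZ u v hu hv]
      congr 1
      refine List.map_congr_left fun w hw => ?_
      rw [if_neg (stg_ne u v (Or.inl hune) w hw)]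
    · cases u with
      | nil => exact absurd rfl hune
      | cons x u =>
        rw [stg]
        simp [zp]
  · rw [stg]
    simp [zp]

lemma ge2_of {u : List ℕ} (h : ∀ x ∈ u, 2 ≤ x) : Ge2 u ∨ u = [] := by
  by_cases hu : u = []
  · exact Or.inr hu
  · exact Or.inl ⟨hu, h⟩

lemma prodW_zp {A : Type} [CommRing A] {Z : List ℕ → A}
    (hZ : ∀ u v, Ge2 u → Ge2 v → Z u * Z v = ((stg u v).map Z).sum) (M : List (List ℕ))
    (hM : ∀ u ∈ M, ∀ x ∈ u, 2 ≤ x) : (M.map (zp Z)).prod = ((prodW M).map (zp Z)).sum := by
  induction M with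
  | nil => simp [prodW, zp]
  | cons u M ih =>
    have hM' : ∀ u ∈ M, ∀ x ∈ u, 2 ≤ x := fun u hu => hM u (List.mem_cons_of_mem _ hu)
    have hl := prodW_letters (fun _ x => 2 ≤ x) (fun _ _ _ h => h) (fun _ _ _ h => h)
      (fun _ _ x y h1 h2 => by omega) M hM'
    rw [List.map_cons, List.prod_cons, ih hM', prodW]
    have h1 : ∀ L : List (List ℕ), (∀ w ∈ L, ∀ x ∈ w, 2 ≤ x) →
        zp Z u * (L.map (zp Z)).sum = ((L.flatMap (stg u)).map (zp Z)).sum := by
      intro L
      induction L with
      | nil => intro _; simp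
      | cons w L ihL =>
        intro hL
        rw [List.map_cons, List.sum_cons, mul_add, ihL (fun w hw => hL w (List.mem_cons_of_mem _ hw)),
          List.flatMap_cons, List.map_append, List.sum_append,
          zp_mul hZ u w (ge2_of (hM u List.mem_cons_self)) (ge2_of (hL w List.mem_cons_self))]
    exact h1 _ hl

/-! ## real multiple zeta values -/

lemma trunc_zero_cons (s : ℕ) (l : List ℕ) {m : ℕ} (hm : m ≤ 1) : trunc (s :: l) m = 0 := by
  rw [trunc]
  apply sum_eq_zero
  intro j hj
  rw [mem_Ico] at hj
  omega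

lemma trunc_succ (s : ℕ) (l : List ℕ) {m : ℕ} (hm : 1 ≤ m) :
    trunc (s :: l) (m + 1) = trunc (s :: l) m + trunc l m / (m : ℝ) ^ s := by
  rw [trunc, trunc, sum_Ico_succ_top hm]

lemma sum_map_cons_succ (s m : ℕ) (hm : 1 ≤ m) (L : List (List ℕ)) :
    ((L.map (s :: ·)).map fun w => trunc w (m + 1)).sum =
      ((L.map (s :: ·)).map fun w => trunc w m).sum + (L.map fun w => trunc w m).sum / (m : ℝ) ^ s := by
  induction L with
  | nil => simp
  | cons w L ih =>
    simp only [List.map_cons, List.sum_cons]
    rw [ih, trunc_succ _ _ hm]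
    ring

lemma sum_map_cons_zero (s m : ℕ) (hm : m ≤ 1) (L : List (List ℕ)) :
    ((L.map (s :: ·)).map fun w => trunc w m).sum = 0 := by
  induction L with
  | nil => simp
  | cons w L ih =>
    simp only [List.map_cons, List.sum_cons]
    rw [ih, trunc_zero_cons _ _ hm, add_zero]

/-- the stuffle product of truncated sums -/
lemma trunc_mul (u v : List ℕ) : ∀ m, trunc u m * trunc v m = ((stg u v).map fun w => trunc w m).sum := by
  induction u, v using stg.induct with
  | case1 v => intro m; rw [stg, trunc]; simp
  | case2 x u => intro m; rw [stg]; simp [trunc]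
  | case3 x u y v ih1 ih2 ih3 =>
    intro m
    induction m with
    | zero =>
      rw [trunc_zero_cons _ _ (Nat.zero_le _), zero_mul, stg, List.map_append, List.map_append,
        List.sum_append, List.sum_append, sum_map_cons_zero _ _ (Nat.zero_le _),
        sum_map_cons_zero _ _ (Nat.zero_le _), sum_map_cons_zero _ _ (Nat.zero_le _)]
      ring
    | succ m ihm =>
      by_cases hm : m = 0
      · subst hm
        rw [trunc_zero_cons _ _ (by norm_num), zero_mul, stg, List.map_append, List.map_append,
          List.sum_append, List.sum_append, sum_map_cons_zero _ _ (by norm_num),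
          sum_map_cons_zero _ _ (by norm_num), sum_map_cons_zero _ _ (by norm_num)]
        ring
      · have hm1 : 1 ≤ m := by omega
        rw [stg, List.map_append, List.map_append, List.sum_append, List.sum_append] at ihm ⊢
        rw [sum_map_cons_succ _ _ hm1, sum_map_cons_succ _ _ hm1, sum_map_cons_succ _ _ hm1,
          ← ih1 m, ← ih2 m, ← ih3 m, trunc_succ x u hm1, trunc_succ y v hm1]
        have e1 : (m : ℝ) ^ (x + y) = (m : ℝ) ^ x * (m : ℝ) ^ y := pow_add _ _ _
        rw [e1]
        have hm0 : (m : ℝ) ≠ 0 := by exact_mod_cast hm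
        have e2 : ((stg u (y :: v)).map (x :: ·) |>.map fun w => trunc w m).sum +
          ((stg (x :: u) v).map (y :: ·) |>.map fun w => trunc w m).sum +
          ((stg u v).map ((x + y) :: ·) |>.map fun w => trunc w m).sum =
          trunc (x :: u) m * trunc (y :: v) m := ihm.symm
        field_simp
        field_simp at e2
        linear_combination (-(m : ℝ) ^ x * (m : ℝ) ^ y) * e2

lemma tendsto_trunc {u : List ℕ} (hu : ∀ x ∈ u, 2 ≤ x) :
    Tendsto (fun m => trunc u m) atTop (𝓝 (mzv u)) := by
  cases u with
  | nil =>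
    have h1 : (fun m => trunc [] m) = fun _ => (1 : ℝ) := by
      funext m
      rw [trunc]
    rw [h1, mzv]
    exact tendsto_const_nhds
  | cons s l =>
    have e3 : ∀ k, 2 ≤ (s :: l).get k := fun k => hu _ (List.get_mem _ _)
    have hsum := DR.summable_mzF (R := l.length) (s := (s :: l).get) e3
    have h1 : Summable fun m : ℕ => trunc l (m + 1) / ((m + 1 : ℕ) : ℝ) ^ s := by
      refine hsum.congr fun m => ?_
      rw [trunc_eq_trF]
      rfl
    have h2 := h1.hasSum.tendsto_sum_nat
    rw [mzv]
    have h3 : Tendsto (fun m => trunc (s :: l) (m + 1)) atTop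
        (𝓝 (∑' m : ℕ, trunc l (m + 1) / ((m + 1 : ℕ) : ℝ) ^ s)) := by
      refine h2.congr fun M => ?_
      rw [trunc, sum_Ico_eq_sum_range]
      simp only [Nat.add_sub_cancel]
      refine sum_congr rfl fun m _ => ?_
      rw [add_comm 1 m]
    exact (tendsto_add_atTop_iff_nat 1).1 h3

/-- **the stuffle product of real multiple zeta values** -/
theorem mzv_mul (u v : List ℕ) (hu : Ge2 u) (hv : Ge2 v) :
    mzv u * mzv v = ((stg u v).map mzv).sum := by
  have h0 : ∀ w ∈ stg u v, ∀ x ∈ w, 2 ≤ x :=
    stg_letters (fun _ x => 2 ≤ x) (fun _ _ _ h => h) (fun _ _ _ h => h)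
      (fun _ _ x y h1 h2 => by omega) 0 0 u v hu.2 hv.2
  have h1 : ∀ L : List (List ℕ), (∀ w ∈ L, ∀ x ∈ w, 2 ≤ x) →
      Tendsto (fun m => (L.map fun w => trunc w m).sum) atTop (𝓝 (L.map mzv).sum) := by
    intro L
    induction L with
    | nil => intro _; simp
    | cons w L ih =>
      intro hL
      simp only [List.map_cons, List.sum_cons]
      exact (tendsto_trunc (hL w List.mem_cons_self)).add
        (ih fun w' hw' => hL w' (List.mem_cons_of_mem _ hw'))
  refine tendsto_nhds_unique ((tendsto_trunc hu.2).mul (tendsto_trunc hv.2))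
    ((h1 (stg u v) h0).congr fun m => ?_)
  rw [trunc_mul]

end Pool.Agent.D0H51.AP
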