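import Mathlib
import Pool.Agent.D0H51.AP.Core
import Pool.Agent.D0H51.AP.Stf

/-!
# Polynomial relations between multiple zeta values along progressions
-/

set_option autoImplicit false

namespace Pool.Agent.D0H51.AP

open Finset

/-- the statement of `core` for `m` families -/
def StC (d B κ m : ℕ) (δ : ℝ) (C P : ℕ) : Prop :=
    ∀ (N W : ℕ) (r : Fin m → ℕ) (w : Fin m → ℕ → List ℕ) (V : Fin m → ℕ → ℤ) (a : Fin m → ℕ → ℤ),
      P ≤ N → (W : ℝ) ≤ δ * N → (∀ t, r t ≤ d) → (∀ t, ∀ i ≤ W, (w t i).length = r t) →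
      (∀ t, ∀ i ≤ W, ∀ x ∈ w t i, N ≤ x ∧ x ≤ κ * N) →
      (∀ t, ∀ i ≤ W, ∀ k, ((w t i).getD k 0 : ℤ) = (w t 0).getD k 0 + i * V t k) →
      (∀ t, ∀ i ≤ W, ∀ j ≤ W, ∀ k, ((w t i).getD k 0 : ℝ) ≤ (w t j).getD k 0 + δ * N) →
      (∀ t, ∀ i ≤ W, |a t i| ≤ (B : ℤ)) → (∃ u, totL W w a u ≠ 0) →
      1 / (C : ℝ) ^ N < |∑ t, ∑ i ∈ range (W + 1), (a t i : ℝ) * mzv (w t i)|

lemma StC.mono {d B κ m : ℕ} {δ δ' : ℝ} {C C' P P' : ℕ} (h : StC d B κ m δ C P) (hC0 : 0 < C)
    (hδ : δ' ≤ δ) (hC : C ≤ C') (hP : P ≤ P') : StC d B κ m δ' C' P' := by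
  intro N W r w V a hPN hW hr hlen hent hV hcl ha hne
  have hN0 : (0 : ℝ) ≤ N := Nat.cast_nonneg _
  have hδN : δ' * N ≤ δ * N := mul_le_mul_of_nonneg_right hδ hN0
  have h1 := h N W r w V a (hP.trans hPN) (hW.trans hδN) hr hlen hent hV
    (fun t i hi j hj k => (hcl t i hi j hj k).trans (by linarith)) ha hne
  refine lt_of_le_of_lt ?_ h1
  have hC0' : (0 : ℝ) < C := by exact_mod_cast hC0
  have hCC : (C : ℝ) ≤ C' := by exact_mod_cast hC
  apply one_div_le_one_div_of_le (by positivity)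
  gcongr

lemma core_le (d m B κ : ℕ) : ∃ (δ : ℝ) (C P : ℕ), 0 < δ ∧ 0 < C ∧ ∀ m' ≤ m, StC d B κ m' δ C P := by
  induction m with
  | zero =>
    obtain ⟨δ, C, P, h1, h2, h⟩ := core d 0 B κ
    refine ⟨δ, C, P, h1, h2, fun m' hm' => ?_⟩
    obtain rfl : m' = 0 := by omega
    exact h
  | succ m ih =>
    obtain ⟨δ, C, P, h1, h2, h⟩ := ih
    obtain ⟨δ', C', P', h1', h2', h'⟩ := core d (m + 1) B κ
    refine ⟨min δ δ', max C C', max P P', lt_min h1 h1', lt_of_lt_of_le h2 (le_max_left _ _),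
      fun m' hm' => ?_⟩
    rcases Nat.lt_or_ge m' (m + 1) with h3 | h3
    · exact (h m' (by omega)).mono h2 (min_le_left _ _) (le_max_left _ _) (le_max_left _ _)
    · obtain rfl : m' = m + 1 := by omega
      exact StC.mono (δ := δ') (C := C') (P := P') h' h2' (min_le_right _ _) (le_max_right _ _)
        (le_max_right _ _)

/-- if all the total coefficients vanish the sum is zero for every function -/
lemma sum_of_totL {m W : ℕ} {w : Fin m → ℕ → List ℕ} {a : Fin m → ℕ → ℤ}
    (h : ∀ u, totL W w a u = 0) {A : Type} [CommRing A] (g : List ℕ → A) :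
    ∑ t, ∑ i ∈ range (W + 1), (a t i : A) * g (w t i) = 0 := by
  classical
  set I : Finset (List ℕ) := univ.biUnion fun t => (range (W + 1)).image (w t) with hI
  have e1 : ∀ t, ∀ i ∈ range (W + 1), (a t i : A) * g (w t i) =
      ∑ u ∈ I, ((if w t i = u then a t i else 0 : ℤ) : A) * g u := by
    intro t i hi
    rw [sum_eq_single (w t i)]
    · rw [if_pos rfl]
    · intro u _ hu
      rw [if_neg (Ne.symm hu)]
      simp
    · intro h'
      exact absurd (mem_biUnion.2 ⟨t, mem_univ _, mem_image_of_mem _ hi⟩) h'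
  rw [sum_congr rfl fun t _ => sum_congr rfl (e1 t), sum_congr rfl fun t _ => sum_comm, sum_comm]
  refine sum_eq_zero fun u _ => ?_
  have e2 := h u
  unfold totL at e2
  have e3 : ∑ t, ∑ i ∈ range (W + 1), ((if w t i = u then a t i else 0 : ℤ) : A) * g u =
      ((∑ t, ∑ i ∈ range (W + 1), if w t i = u then a t i else 0 : ℤ) : A) * g u := by
    push_cast
    rw [sum_mul]
    refine sum_congr rfl fun t _ => ?_
    rw [sum_mul]
  rw [e3, e2]
  simp

/-- the monomials of degree at most `D` -/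
def Mon (k D : ℕ) : Finset (Fin k →₀ ℕ) :=
  (range (D + 1)).biUnion fun n => (univ : Finset (Fin k)).finsuppAntidiag n

lemma mem_Mon {k D : ℕ} {e : Fin k →₀ ℕ} : e ∈ Mon k D ↔ ∑ l, e l ≤ D := by
  unfold Mon
  rw [mem_biUnion]
  simp only [mem_range, Finset.mem_finsuppAntidiag]
  constructor
  · rintro ⟨n, hn, h1, _⟩
    have h2 : ∑ l, e l = n := h1
    rw [h2]
    omega
  · intro h
    exact ⟨∑ l, e l, by omega, rfl, subset_univ _⟩

/-- the list of the factors of a monomial -/
def ms {k : ℕ} {α : Type} (w : Fin k → List α) (e : Fin k →₀ ℕ) : List (List α) :=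
  (List.finRange k).flatMap fun l => List.replicate (e l) (w l)

lemma mem_ms {k : ℕ} {α : Type} {w : Fin k → List α} {e : Fin k →₀ ℕ} {u : List α}
    (hu : u ∈ ms w e) : ∃ l, u = w l := by
  unfold ms at hu
  rw [List.mem_flatMap] at hu
  obtain ⟨l, _, h⟩ := hu
  exact ⟨l, List.eq_of_mem_replicate h⟩

lemma ms_length {k : ℕ} {α : Type} (w : Fin k → List α) (e : Fin k →₀ ℕ) :
    (ms w e).length = ∑ l, e l := by
  unfold ms
  rw [List.length_flatMap, Fin.sum_univ_def]
  congr 1
  refine List.map_congr_left fun l _ => ?_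
  rw [List.length_replicate]

lemma ms_map {k : ℕ} {α β : Type} (φ : α → β) (w : Fin k → List α) (e : Fin k →₀ ℕ) :
    (ms w e).map (List.map φ) = ms (fun l => (w l).map φ) e := by
  unfold ms
  rw [List.map_flatMap]
  congr 1
  funext l
  rw [List.map_replicate]

lemma ms_prod {k : ℕ} {A : Type} [CommRing A] (w : Fin k → List ℕ) (hw : ∀ l, w l ≠ [])
    (Z : List ℕ → A) (e : Fin k →₀ ℕ) : ((ms w e).map (zp Z)).prod = ∏ l, Z (w l) ^ (e l) := by
  unfold ms
  rw [Fin.prod_univ_def, List.map_flatMap]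
  have h1 : ∀ L : List (Fin k), (L.flatMap fun l => (List.replicate (e l) (w l)).map (zp Z)).prod =
      (L.map fun l => Z (w l) ^ (e l)).prod := by
    intro L
    induction L with
    | nil => simp
    | cons l L ih =>
      rw [List.flatMap_cons, List.prod_append, ih, List.map_cons, List.prod_cons, List.map_replicate,
        List.prod_replicate, zp, if_neg (hw l)]
  exact h1 _

/-- the expansion of a polynomial -/
lemma aeval_eq {k D : ℕ} {A : Type} [CommRing A] (f : MvPolynomial (Fin k) ℤ) (hf : f.totalDegree ≤ D)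
    (x : Fin k → A) : MvPolynomial.aeval x f = ∑ e ∈ Mon k D, ((f.coeff e : ℤ) : A) * ∏ l, x l ^ (e l) := by
  rw [MvPolynomial.aeval_def, MvPolynomial.eval₂_eq']
  simp only [algebraMap_int_eq, eq_intCast]
  apply sum_subset
  · intro e he
    rw [mem_Mon]
    have h1 := MvPolynomial.le_totalDegree he
    rw [Finsupp.sum_fintype _ _ (fun _ => rfl)] at h1
    exact h1.trans hf
  · intro e _ he
    rw [MvPolynomial.notMem_support_iff] at he
    rw [he]
    simp

/-- the list of the families -/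
noncomputable def Fml {k : ℕ} {α : Type} [Add α] (D : ℕ) (w : Fin k → List α) :
    List ((Fin k →₀ ℕ) × List α) :=
  (Mon k D).toList.flatMap fun e => (prodW (ms w e)).map fun x => (e, x)

lemma Fml_length {k : ℕ} {α : Type} [Add α] (D d : ℕ) (w : Fin k → List α) (hw : ∀ l, (w l).length ≤ d) :
    (Fml D w).length ≤ (Mon k D).card * 3 ^ (D * d * D) := by
  unfold Fml
  rw [List.length_flatMap]
  have h1 : ∀ z ∈ (Mon k D).toList.map (fun e => ((prodW (ms w e)).map fun x => (e, x)).length),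
      z ≤ 3 ^ (D * d * D) := by
    intro z hz
    rw [List.mem_map] at hz
    obtain ⟨e, he, rfl⟩ := hz
    rw [Finset.mem_toList, mem_Mon] at he
    rw [List.length_map]
    refine (prodW_card d (ms w e) (fun u hu => by
      obtain ⟨l, rfl⟩ := mem_ms hu
      exact hw l)).trans ?_
    rw [ms_length]
    apply Nat.pow_le_pow_right (by norm_num)
    gcongr
  have h2 := List.sum_le_card_nsmul _ _ h1
  rw [List.length_map, smul_eq_mul, Finset.length_toList] at h2
  exact h2

lemma sum_Fml {k D : ℕ} {A : Type} [CommRing A] (f : MvPolynomial (Fin k) ℤ) (hf : f.totalDegree ≤ D)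
    (w : Fin k → List (ℕ → ℕ)) (hw : ∀ l, w l ≠ []) (i : ℕ) (hi : ∀ l, ∀ x ∈ w l, 2 ≤ x i)
    (Z : List ℕ → A) (hZ : ∀ u v, Ge2 u → Ge2 v → Z u * Z v = ((stg u v).map Z).sum) :
    MvPolynomial.aeval (fun l => Z ((w l).map fun x => x i)) f =
      ((Fml D w).map fun q => ((f.coeff q.1 : ℤ) : A) * zp Z (q.2.map fun x => x i)).sum := by
  rw [aeval_eq f hf]
  unfold Fml
  rw [← Finset.sum_map_toList]
  have h1 : ∀ L : List (Fin k →₀ ℕ),
      (L.map fun e => ((f.coeff e : ℤ) : A) * ∏ l, Z ((w l).map fun x => x i) ^ (e l)).sum =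
      ((L.flatMap fun e => (prodW (ms w e)).map fun x => (e, x)).map
        fun q => ((f.coeff q.1 : ℤ) : A) * zp Z (q.2.map fun x => x i)).sum := by
    intro L
    induction L with
    | nil => simp
    | cons e L ih =>
      rw [List.map_cons, List.sum_cons, ih, List.flatMap_cons, List.map_append, List.sum_append]
      congr 1
      rw [← ms_prod (fun l => (w l).map fun x => x i) (fun l => by
        rw [Ne, List.map_eq_nil_iff]
        exact hw l) Z e, ← ms_map (fun x : ℕ → ℕ => x i) w e,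
        prodW_zp hZ, prodW_map (fun x : ℕ → ℕ => x i) (fun _ _ => rfl), List.map_map, List.map_map]
      · rw [← List.sum_map_mul_left]
        rfl
      · intro u hu x hx
        rw [List.mem_map] at hu
        obtain ⟨v, hv, rfl⟩ := hu
        obtain ⟨l, rfl⟩ := mem_ms hv
        rw [List.mem_map] at hx
        obtain ⟨y, hy, rfl⟩ := hx
        exact hi l y hy
  exact h1 _

/-- **Polynomial relations along progressions.** -/
theorem poly (k d D B κ : ℕ) : ∃ (δ : ℝ) (C P : ℕ), 0 < δ ∧ 0 < C ∧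
    ∀ (N W : ℕ) (w : Fin k → List (ℕ → ℕ)) (f : ℕ → MvPolynomial (Fin k) ℤ), P ≤ N →
      (W : ℝ) ≤ δ * N → (∀ l, w l ≠ []) → (∀ l, (w l).length ≤ d) →
      (∀ l, ∀ x ∈ w l, ∀ i ≤ W, N ≤ x i ∧ x i ≤ κ * N) →
      (∀ l, ∀ x ∈ w l, ∃ v : ℤ, ∀ i ≤ W, (x i : ℤ) = x 0 + i * v) →
      (∀ l, ∀ x ∈ w l, ∀ i ≤ W, ∀ j ≤ W, (x i : ℝ) ≤ x j + δ * N) →
      (∀ i ≤ W, (f i).totalDegree ≤ D) → (∀ i ≤ W, ∀ e, |(f i).coeff e| ≤ (B : ℤ)) →
      |∑ i ∈ range (W + 1), MvPolynomial.aeval (fun l => mzv ((w l).map fun x => x i)) (f i)| ≤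
        1 / (C : ℝ) ^ N →
      ∀ (A : Type) [CommRing A] (Z : List ℕ → A),
        (∀ u v, Ge2 u → Ge2 v → Z u * Z v = ((stg u v).map Z).sum) →
        ∑ i ∈ range (W + 1), MvPolynomial.aeval (fun l => Z ((w l).map fun x => x i)) (f i) = 0 := by
  classical
  obtain ⟨δ, C, P, hδ, hC, h⟩ := core_le (D * d) ((Mon k D).card * 3 ^ (D * d * D)) B (D * κ)
  refine ⟨δ / (D + 1), C, max P 2, by positivity, hC, ?_⟩
  intro N W w f hPN hW hw hlen hent hdir hcl hdeg hcoef hsmall A _ Z hZ
  rw [max_le_iff] at hPN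
  obtain ⟨hPN, hN2⟩ := hPN
  have hN0 : (0 : ℝ) ≤ N := Nat.cast_nonneg _
  have hD0 : (0 : ℝ) ≤ D := Nat.cast_nonneg _
  have hδ1 : δ / (D + 1) * N ≤ δ * N := by
    apply mul_le_mul_of_nonneg_right _ hN0
    exact div_le_self hδ.le (by linarith)
  have hδD : (D : ℝ) * (δ / (D + 1) * N) ≤ δ * N := by
    have e1 : (D : ℝ) * (δ / (D + 1) * N) = (D / (D + 1)) * (δ * N) := by ring
    rw [e1]
    have e2 : (D : ℝ) / (D + 1) ≤ 1 := by
      rw [div_le_one (by positivity)]
      linarith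
    exact mul_le_of_le_one_left (by positivity) e2
  set L := Fml D w with hL
  -- the letters of the products
  set Q : ℕ → (ℕ → ℕ) → Prop := fun n x => (∀ i ≤ W, N ≤ x i ∧ x i ≤ n * (κ * N)) ∧
    (∃ v : ℤ, ∀ i ≤ W, (x i : ℤ) = x 0 + i * v) ∧
    (∀ i ≤ W, ∀ j ≤ W, (x i : ℝ) ≤ x j + n * (δ / (D + 1) * N)) with hQ
  have hδN0 : 0 ≤ δ / (D + 1) * N := by positivity
  have hm : ∀ a b x, Q a x → Q (a + b) x := by
    intro a b x h
    refine ⟨fun i hi => ⟨(h.1 i hi).1, (h.1 i hi).2.trans (by gcongr; omega)⟩, h.2.1,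
      fun i hi j hj => (h.2.2 i hi j hj).trans ?_⟩
    push_cast
    have : (0 : ℝ) ≤ b := Nat.cast_nonneg _
    nlinarith
  have hm' : ∀ a b x, Q b x → Q (a + b) x := by
    intro a b x h
    rw [add_comm]
    exact hm b a x h
  have ha : ∀ a b x y, Q a x → Q b y → Q (a + b) (x + y) := by
    intro a b x y hx hy
    refine ⟨fun i hi => ⟨?_, ?_⟩, ?_, fun i hi j hj => ?_⟩
    · have := (hx.1 i hi).1
      change N ≤ x i + y i
      omega
    · have e1 := (hx.1 i hi).2
      have e2 := (hy.1 i hi).2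
      change x i + y i ≤ _
      rw [Nat.add_mul]
      omega
    · obtain ⟨v, hv⟩ := hx.2.1
      obtain ⟨v', hv'⟩ := hy.2.1
      refine ⟨v + v', fun i hi => ?_⟩
      change ((x i + y i : ℕ) : ℤ) = ((x 0 + y 0 : ℕ) : ℤ) + i * (v + v')
      push_cast
      rw [hv i hi, hv' i hi]
      ring
    · have e1 := hx.2.2 i hi j hj
      have e2 := hy.2.2 i hi j hj
      change ((x i + y i : ℕ) : ℝ) ≤ ((x j + y j : ℕ) : ℝ) + _
      push_cast
      linarith
  have hQw : ∀ q ∈ L, ∀ x ∈ q.2, Q D x := by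
    intro q hq x hx
    rw [hL, Fml, List.mem_flatMap] at hq
    obtain ⟨e, he, hq⟩ := hq
    rw [Finset.mem_toList, mem_Mon] at he
    rw [List.mem_map] at hq
    obtain ⟨z, hz, rfl⟩ := hq
    have h1 := prodW_letters Q hm hm' ha (ms w e) (fun u hu x hx => by
      obtain ⟨l, rfl⟩ := mem_ms hu
      refine ⟨fun i hi => ⟨(hent l x hx i hi).1, ?_⟩, hdir l x hx, fun i hi j hj => ?_⟩
      · rw [one_mul]
        exact (hent l x hx i hi).2
      · rw [Nat.cast_one, one_mul]
        exact hcl l x hx i hi j hj) z hz x hx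
    rw [ms_length] at h1
    obtain ⟨n, rfl⟩ := Nat.exists_eq_add_of_le he
    exact hm _ _ _ h1
  have hLlen : ∀ q ∈ L, q.2.length ≤ D * d := by
    intro q hq
    rw [hL, Fml, List.mem_flatMap] at hq
    obtain ⟨e, he, hq⟩ := hq
    rw [Finset.mem_toList, mem_Mon] at he
    rw [List.mem_map] at hq
    obtain ⟨z, hz, rfl⟩ := hq
    have h1 := prodW_len d (ms w e) (fun u hu => by
      obtain ⟨l, rfl⟩ := mem_ms hu
      exact hlen l) z hz
    rw [ms_length] at h1
    exact h1.trans (Nat.mul_le_mul_right _ he)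
  -- the directions
  have hdx : ∀ x : ℕ → ℕ, ∃ v : ℤ, Q D x → ∀ i ≤ W, (x i : ℤ) = x 0 + i * v := by
    intro x
    by_cases hx : Q D x
    · obtain ⟨v, hv⟩ := hx.2.1
      exact ⟨v, fun _ => hv⟩
    · exact ⟨0, fun h => absurd h hx⟩
  choose vd hvd using hdx
  set wt : Fin L.length → ℕ → List ℕ := fun t i => (L.get t).2.map fun x => x i with hwt
  set at' : Fin L.length → ℕ → ℤ := fun t i => (f i).coeff (L.get t).1 with hat
  have hmem : ∀ t : Fin L.length, L.get t ∈ L := fun t => List.get_mem _ _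
  have hgetD : ∀ (t : Fin L.length) i k, (wt t i).getD k 0 = if h : k < (L.get t).2.length then
      ((L.get t).2[k]) i else 0 := by
    intro t i k
    rw [hwt]
    simp only
    split_ifs with h
    · rw [List.getD_eq_getElem _ _ (by rw [List.length_map]; exact h), List.getElem_map]
    · rw [List.getD_eq_default _ _ (by rw [List.length_map]; omega)]
  -- the sums
  have hsum : ∀ (A : Type) [CommRing A] (Z : List ℕ → A),
      (∀ u v, Ge2 u → Ge2 v → Z u * Z v = ((stg u v).map Z).sum) →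
      ∑ i ∈ range (W + 1), MvPolynomial.aeval (fun l => Z ((w l).map fun x => x i)) (f i) =
      ∑ t, ∑ i ∈ range (W + 1), ((at' t i : ℤ) : A) * zp Z (wt t i) := by
    intro A _ Z hZ
    rw [sum_comm]
    refine sum_congr rfl fun i hi => ?_
    rw [mem_range] at hi
    rw [sum_Fml (f i) (hdeg i (by omega)) w hw i (fun l x hx => hN2.trans (hent l x hx i (by omega)).1)
      Z hZ, ← hL]
    exact (Fin.sum_univ_fun_getElem L
      fun q => (((f i).coeff q.1 : ℤ) : A) * zp Z (q.2.map fun x => x i)).symm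
  have hall : ∀ u, totL W wt at' u = 0 := by
    by_contra hno
    push Not at hno
    have h1 := h L.length (Fml_length D d w hlen) N W (fun t => (L.get t).2.length) wt
      (fun t k => if h : k < (L.get t).2.length then vd ((L.get t).2[k]) else 0) at' hPN
      (hW.trans hδ1) (fun t => hLlen _ (hmem t)) (fun t i _ => by
        rw [hwt]
        simp only [List.length_map]) (fun t i hi x hx => by
        rw [hwt] at hx
        simp only [List.mem_map] at hx
        obtain ⟨y, hy, rfl⟩ := hx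
        have := (hQw _ (hmem t) y hy).1 i hi
        rw [← mul_assoc] at this
        exact this) (fun t i hi k => by
        rw [hgetD, hgetD]
        split_ifs with h
        · exact hvd _ (hQw _ (hmem t) _ (List.getElem_mem h)) i hi
        · simp) (fun t i hi j hj k => by
        rw [hgetD, hgetD]
        split_ifs with h
        · have := (hQw _ (hmem t) _ (List.getElem_mem h)).2.2 i hi j hj
          linarith
        · push_cast
          positivity) (fun t i hi => hcoef i hi _) hno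
    have h2 := hsum ℝ mzv mzv_mul
    have h3 : zp mzv = mzv := by
      funext u
      unfold zp
      split_ifs with hu
      · rw [hu, mzv]
      · rfl
    rw [h3] at h2
    rw [h2] at hsmall
    linarith
  rw [hsum A Z hZ]
  exact sum_of_totL hall (zp Z)

end Pool.Agent.D0H51.AP
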