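import Mathlib
import Pool.Agent.D0H51.AP.Poly
import Pool.Agent.D0H51.DR.MainR

/-!
# Sums of polynomials in multiple zeta values with large arguments are close to integers
-/

set_option autoImplicit false

namespace Pool.Agent.D0H51.AP

open Finset

/-- the limit of the multiple zeta values when the arguments are large -/
def bz (u : List ℕ) : ℤ := if u.length = 1 then 1 else 0

lemma CC_mono : Monotone DR.CC := by
  refine monotone_nat_of_le_succ fun R => ?_
  rw [DR.CC]
  nlinarith [DR.CC_pos R, Nat.zero_le (R ^ 2 * DR.CC R), Nat.zero_le (R * DR.CC R)]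

lemma trunc_two (u : List ℕ) (hu : u ≠ []) : trunc u 2 = (bz u : ℝ) := by
  unfold bz
  cases u with
  | nil => exact absurd rfl hu
  | cons s l =>
    rw [trunc, show Ico 1 2 = {1} from rfl, sum_singleton]
    simp only [Nat.cast_one, one_pow, div_one, List.length_cons]
    cases l with
    | nil => simp [trunc]
    | cons t l =>
      rw [trunc_one (List.cons_ne_nil _ _) le_rfl, if_neg (by rw [List.length_cons]; omega)]
      simp

lemma mzv_near (d N : ℕ) (hN : 2 ≤ N) (u : List ℕ) (hu : u ≠ []) (hd : u.length ≤ d) (hs : ∀ s ∈ u, N ≤ s) :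
    |mzv u - bz u| ≤ 8 * DR.CC d / 2 ^ N := by
  have h1 := mzv_err u hu (fun s hs' => hN.trans (hs s hs')) 1 N hs
  rw [trunc_two u hu] at h1
  refine h1.trans ?_
  have h2 : (DR.CC u.length : ℝ) ≤ DR.CC d := by exact_mod_cast CC_mono hd
  have h3 : ((1 : ℕ) : ℝ) + 1 = 2 := by norm_num
  rw [h3]
  have h4 : (0 : ℝ) < 2 ^ N := by positivity
  rw [show (2 : ℝ) * DR.CC u.length * (2 ^ 2 / 2 ^ N) = 8 * DR.CC u.length / 2 ^ N by ring]
  gcongr

lemma abs_bz (u : List ℕ) : |(bz u : ℝ)| ≤ 1 := by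
  unfold bz
  split_ifs <;> simp

/-- the product of numbers close to integers -/
lemma prod_near {α : Type} (x b : α → ℝ) (R ε : ℝ) (hR : 1 ≤ R) (hε : 0 ≤ ε) (L : List α)
    (hx : ∀ u ∈ L, |x u| ≤ R) (hb : ∀ u ∈ L, |b u| ≤ 1) (hxb : ∀ u ∈ L, |x u - b u| ≤ ε) :
    |(L.map x).prod - (L.map b).prod| ≤ L.length * R ^ L.length * ε ∧ |(L.map b).prod| ≤ 1 := by
  induction L with
  | nil => simp
  | cons u L ih =>
    obtain ⟨h1, h2⟩ := ih (fun v hv => hx v (List.mem_cons_of_mem _ hv))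
      (fun v hv => hb v (List.mem_cons_of_mem _ hv)) (fun v hv => hxb v (List.mem_cons_of_mem _ hv))
    have h3 := hx u List.mem_cons_self
    have h4 := hb u List.mem_cons_self
    have h5 := hxb u List.mem_cons_self
    rw [List.map_cons, List.map_cons, List.prod_cons, List.prod_cons, List.length_cons]
    constructor
    · have h6 : x u * (L.map x).prod - b u * (L.map b).prod =
          x u * ((L.map x).prod - (L.map b).prod) + (x u - b u) * (L.map b).prod := by ring
      rw [h6]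
      refine (abs_add_le _ _).trans ?_
      rw [abs_mul, abs_mul]
      have h7 : |x u| * |(L.map x).prod - (L.map b).prod| ≤ R * (L.length * R ^ L.length * ε) := by
        gcongr
      have h8 : |x u - b u| * |(L.map b).prod| ≤ ε * 1 := by gcongr
      have h9 : ε * 1 ≤ R ^ (L.length + 1) * ε := by
        rw [mul_one]
        exact le_mul_of_one_le_left hε (one_le_pow₀ hR)
      push_cast
      have h10 : R * (L.length * R ^ L.length * ε) = L.length * (R ^ (L.length + 1) * ε) := by ring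
      nlinarith
    · rw [abs_mul]
      exact mul_le_one₀ h4 (abs_nonneg _) h2

/-- the sums are close to integers -/
lemma near (k d D B : ℕ) : ∃ K : ℕ, ∀ (N W : ℕ) (v : ℕ → Fin k → List ℕ) (f : ℕ → MvPolynomial (Fin k) ℤ),
    2 ≤ N → (∀ i ≤ W, ∀ l, v i l ≠ [] ∧ (v i l).length ≤ d ∧ ∀ s ∈ v i l, N ≤ s) →
    (∀ i ≤ W, (f i).totalDegree ≤ D ∧ ∀ e, |(f i).coeff e| ≤ (B : ℤ)) →
    ∃ n : ℤ, |∑ i ∈ range (W + 1), MvPolynomial.aeval (fun l => mzv (v i l)) (f i) - n| ≤
      ((W : ℝ) + 1) * (K / 2 ^ N) := by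
  set R : ℝ := 1 + 8 * DR.CC d with hR
  have hR1 : 1 ≤ R := by
    rw [hR]
    have : (0 : ℝ) ≤ DR.CC d := Nat.cast_nonneg _
    linarith
  obtain ⟨K, hK⟩ := exists_nat_ge ((Mon k D).card * (B * (D * R ^ D * (8 * DR.CC d))))
  refine ⟨K, fun N W v f hN hv hf => ?_⟩
  refine ⟨∑ i ∈ range (W + 1), MvPolynomial.aeval (fun l => bz (v i l)) (f i), ?_⟩
  have h2N : (1 : ℝ) ≤ 2 ^ N := one_le_pow₀ (by norm_num)
  have hC0 : (0 : ℝ) ≤ DR.CC d := Nat.cast_nonneg _
  set ε : ℝ := 8 * DR.CC d / 2 ^ N with hε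
  have hε0 : 0 ≤ ε := by positivity
  have hε1 : ε ≤ 8 * DR.CC d := div_le_self (by positivity) h2N
  push_cast
  rw [← sum_sub_distrib]
  refine (abs_sum_le_sum_abs _ _).trans ?_
  have hterm : ∀ i ∈ range (W + 1), |MvPolynomial.aeval (fun l => mzv (v i l)) (f i) -
      ((MvPolynomial.aeval (fun l => bz (v i l)) (f i) : ℤ) : ℝ)| ≤ K / 2 ^ N := by
    intro i hi
    rw [mem_range] at hi
    have hi' : i ≤ W := by omega
    rw [aeval_eq (f i) (hf i hi').1, aeval_eq (f i) (hf i hi').1]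
    push_cast
    rw [← sum_sub_distrib]
    refine (abs_sum_le_sum_abs _ _).trans ?_
    have h1 : ∀ e ∈ Mon k D, |(((f i).coeff e : ℤ) : ℝ) * ∏ l, mzv (v i l) ^ (e l) -
        (((f i).coeff e : ℤ) : ℝ) * ∏ l, (bz (v i l) : ℝ) ^ (e l)| ≤ B * (D * R ^ D * ε) := by
      intro e he
      rw [mem_Mon] at he
      rw [← mul_sub, abs_mul]
      have h2 : |(((f i).coeff e : ℤ) : ℝ)| ≤ B := by exact_mod_cast (hf i hi').2 e
      have h3 := prod_near (zp mzv) (zp fun u => (bz u : ℝ)) R ε hR1 hε0 (ms (v i) e) (fun u hu => by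
          obtain ⟨l, rfl⟩ := mem_ms hu
          rw [zp, if_neg (hv i hi' l).1]
          have h4 := mzv_near d N hN (v i l) (hv i hi' l).1 (hv i hi' l).2.1 (hv i hi' l).2.2
          have h5 := abs_bz (v i l)
          have h6 : mzv (v i l) = (mzv (v i l) - bz (v i l)) + bz (v i l) := by ring
          rw [h6]
          refine (abs_add_le _ _).trans ?_
          rw [← hε] at h4
          linarith) (fun u hu => by
          obtain ⟨l, rfl⟩ := mem_ms hu
          rw [zp, if_neg (hv i hi' l).1]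
          exact abs_bz _) (fun u hu => by
          obtain ⟨l, rfl⟩ := mem_ms hu
          rw [zp, if_neg (hv i hi' l).1, zp, if_neg (hv i hi' l).1]
          exact mzv_near d N hN (v i l) (hv i hi' l).1 (hv i hi' l).2.1 (hv i hi' l).2.2)
      rw [ms_prod (v i) (fun l => (hv i hi' l).1) mzv e, ms_prod (v i) (fun l => (hv i hi' l).1) _ e,
        ms_length] at h3
      have h4 : ((∑ l, e l : ℕ) : ℝ) * R ^ (∑ l, e l) * ε ≤ D * R ^ D * ε := by
        have h5 : ((∑ l, e l : ℕ) : ℝ) ≤ D := by exact_mod_cast he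
        gcongr
      exact mul_le_mul h2 (h3.1.trans h4) (abs_nonneg _) (Nat.cast_nonneg _)
    refine (sum_le_card_nsmul _ _ _ h1).trans ?_
    rw [nsmul_eq_mul]
    have h2 : ((Mon k D).card : ℝ) * (B * (D * R ^ D * ε)) =
        ((Mon k D).card * (B * (D * R ^ D * (8 * DR.CC d)))) / 2 ^ N := by
      rw [hε]
      ring
    rw [h2]
    gcongr
  refine (sum_le_card_nsmul _ _ _ hterm).trans ?_
  rw [nsmul_eq_mul, card_range]
  push_cast
  exact le_rfl

end Pool.Agent.D0H51.AP
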