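import Mathlib
import Pool.Agent.D0H51.AP.Near

/-!
# Relations between the powers of `2 π i` and linearly many multiple zeta values
-/

set_option autoImplicit false

namespace Pool.Agent.D0H51.AP

open Finset

open DR (mu)

lemma mu_sq : mu ^ 2 = ((-(4 * Real.pi ^ 2) : ℝ) : ℂ) := by
  unfold mu
  push_cast
  linear_combination (4 * (Real.pi : ℂ) ^ 2) * Complex.I_sq

lemma norm_mu : ‖mu‖ = 2 * Real.pi := by
  unfold mu
  rw [norm_mul, norm_mul, Complex.norm_I, Complex.norm_real, Real.norm_eq_abs, abs_of_pos Real.pi_pos]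
  simp

lemma norm_mu_le : ‖mu‖ ≤ 7 := by
  rw [norm_mu]
  have := Real.pi_lt_d2
  linarith

lemma one_le_norm_mu : 1 ≤ ‖mu‖ := by
  rw [norm_mu]
  have := Real.pi_gt_three
  linarith

lemma mu_even {a : ℕ} (ha : Even a) : mu ^ a = (((-(4 * Real.pi ^ 2)) ^ (a / 2) : ℝ) : ℂ) := by
  obtain ⟨c, rfl⟩ := ha
  rw [← two_mul, pow_mul, mu_sq, Nat.mul_div_cancel_left _ two_pos]
  push_cast
  rfl

lemma mu_odd {b : ℕ} (hb : Odd b) :
    mu ^ b = (((-(4 * Real.pi ^ 2)) ^ (b / 2) * (2 * Real.pi) : ℝ) : ℂ) * Complex.I := by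
  obtain ⟨c, rfl⟩ := hb
  have h1 : (2 * c + 1) / 2 = c := by omega
  rw [pow_succ, pow_mul, mu_sq, h1]
  unfold mu
  push_cast
  ring

/-- the real part and the imaginary part -/
lemma parts {a b : ℕ} (ha : Even a) (hb : Odd b) (F G : ℝ) :
    |F| ≤ ‖mu ^ a * F + mu ^ b * G‖ ∧ |G| ≤ ‖mu ^ a * F + mu ^ b * G‖ := by
  have hp1 : 1 ≤ |(-(4 * Real.pi ^ 2))| := by
    rw [abs_neg, abs_of_pos (by positivity)]
    have := Real.pi_gt_three
    nlinarith
  constructor
  · refine le_trans ?_ (Complex.abs_re_le_norm _)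
    have h1 : (mu ^ a * F + mu ^ b * G).re = (-(4 * Real.pi ^ 2)) ^ (a / 2) * F := by
      rw [mu_even ha, mu_odd hb]
      simp only [Complex.add_re, Complex.mul_re, Complex.ofReal_re, Complex.ofReal_im, Complex.I_re,
        Complex.I_im, Complex.mul_im]
      ring
    rw [h1, abs_mul, abs_pow]
    exact le_mul_of_one_le_left (abs_nonneg _) (one_le_pow₀ hp1)
  · refine le_trans ?_ (Complex.abs_im_le_norm _)
    have h1 : (mu ^ a * F + mu ^ b * G).im = (-(4 * Real.pi ^ 2)) ^ (b / 2) * (2 * Real.pi) * G := by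
      rw [mu_even ha, mu_odd hb]
      simp only [Complex.add_im, Complex.mul_re, Complex.ofReal_re, Complex.ofReal_im, Complex.I_re,
        Complex.I_im, Complex.mul_im]
      ring
    rw [h1, abs_mul, abs_mul, abs_pow]
    have h2 : 1 ≤ |2 * Real.pi| := by
      rw [abs_of_pos (by positivity)]
      have := Real.pi_gt_three
      linarith
    apply le_mul_of_one_le_left (abs_nonneg _)
    exact one_le_mul_of_one_le_of_one_le (one_le_pow₀ hp1) h2

lemma norm_aeval_le (B : ℕ) (G : Polynomial ℤ) (h1 : G.natDegree ≤ B) (h2 : ∀ n, |G.coeff n| ≤ (B : ℤ)) :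
    ‖Polynomial.aeval mu G‖ ≤ ((B + 1) * (B * 7 ^ B) : ℕ) := by
  rw [Polynomial.aeval_eq_sum_range' (show G.natDegree < B + 1 by omega)]
  refine (norm_sum_le _ _).trans ?_
  have h3 : ∀ i ∈ range (B + 1), ‖G.coeff i • mu ^ i‖ ≤ (B : ℝ) * 7 ^ B := by
    intro i hi
    rw [mem_range] at hi
    rw [zsmul_eq_mul, norm_mul, norm_pow]
    have h4 : ‖((G.coeff i : ℤ) : ℂ)‖ ≤ B := by
      rw [Complex.norm_intCast]
      exact_mod_cast h2 i
    have h5 : ‖mu‖ ^ i ≤ 7 ^ B :=
      (pow_le_pow_left₀ (norm_nonneg _) norm_mu_le i).trans (pow_le_pow_right₀ (by norm_num) (by omega))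
    gcongr
  refine (sum_le_card_nsmul _ _ _ h3).trans ?_
  rw [nsmul_eq_mul, card_range]
  push_cast
  exact le_rfl

/-- integers near the sums -/
lemma int_part (B a b : ℕ) (ha : Even a) (hb : Odd b) : ∃ c0 : ℝ, 0 < c0 ∧ ∀ (n m : ℤ) (G : Polynomial ℤ),
    G.natDegree ≤ B → (∀ j, |G.coeff j| ≤ (B : ℤ)) →
    ‖mu ^ a * ((n : ℝ) : ℂ) + mu ^ b * ((m : ℝ) : ℂ) + Polynomial.aeval mu G‖ < c0 →
    G = Polynomial.C (-n) * Polynomial.X ^ a + Polynomial.C (-m) * Polynomial.X ^ b := by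
  set K : ℕ := (B + 1) * (B * 7 ^ B) with hK
  obtain ⟨c0, hc0, h⟩ := DR.poly_low (B + 2 * (K + 1) + a + b)
  refine ⟨min c0 1, lt_min hc0 one_pos, fun n m G h1 h2 h3 => ?_⟩
  have hG := norm_aeval_le B G h1 h2
  rw [← hK] at hG
  have h4 := parts ha hb n m
  have h5 : ‖mu ^ a * ((n : ℝ) : ℂ) + mu ^ b * ((m : ℝ) : ℂ)‖ ≤ K + 1 := by
    have e1 : mu ^ a * ((n : ℝ) : ℂ) + mu ^ b * ((m : ℝ) : ℂ) =
        (mu ^ a * ((n : ℝ) : ℂ) + mu ^ b * ((m : ℝ) : ℂ) + Polynomial.aeval mu G) - Polynomial.aeval mu G := by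
      ring
    rw [e1]
    refine (norm_sub_le _ _).trans ?_
    have := h3.trans_le (min_le_right _ _)
    linarith
  have hn : |n| ≤ ((K + 1 : ℕ) : ℤ) := by
    have := h4.1.trans h5
    exact_mod_cast this
  have hm : |m| ≤ ((K + 1 : ℕ) : ℤ) := by
    have := h4.2.trans h5
    exact_mod_cast this
  set Q : Polynomial ℤ := Polynomial.C n * Polynomial.X ^ a + Polynomial.C m * Polynomial.X ^ b + G with hQ
  have hQ0 : Q = 0 := by
    by_contra hne
    have h6 := h Q (by
      rw [hQ]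
      refine (Polynomial.natDegree_add_le _ _).trans (max_le ((Polynomial.natDegree_add_le _ _).trans
        (max_le ?_ ?_)) (by omega))
      · exact (Polynomial.natDegree_C_mul_X_pow_le _ _).trans (by omega)
      · exact (Polynomial.natDegree_C_mul_X_pow_le _ _).trans (by omega)) (fun j => by
      rw [hQ, Polynomial.coeff_add, Polynomial.coeff_add, Polynomial.coeff_C_mul_X_pow,
        Polynomial.coeff_C_mul_X_pow]
      have e1 : |(if j = a then n else 0)| ≤ |n| := by split_ifs <;> simp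
      have e2 : |(if j = b then m else 0)| ≤ |m| := by split_ifs <;> simp
      have e3 := abs_add_le ((if j = a then n else 0) + (if j = b then m else 0)) (G.coeff j)
      have e4 := abs_add_le (if j = a then n else 0) (if j = b then m else 0)
      have e5 := h2 j
      push_cast at hn hm ⊢
      omega) hne
    have h7 : Polynomial.aeval mu Q =
        mu ^ a * ((n : ℝ) : ℂ) + mu ^ b * ((m : ℝ) : ℂ) + Polynomial.aeval mu G := by
      rw [hQ]
      simp only [map_add, map_mul, map_pow, Polynomial.aeval_X, Polynomial.aeval_C]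
      simp
      ring
    rw [h7] at h6
    have := h3.trans_le (min_le_left _ _)
    linarith
  have h8 : G = Q - (Polynomial.C n * Polynomial.X ^ a + Polynomial.C m * Polynomial.X ^ b) := by
    rw [hQ]
    ring
  rw [h8, hQ0, Polynomial.C_neg, Polynomial.C_neg]
  ring

end Pool.Agent.D0H51.AP
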