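import Mathlib
import Pool.Agent.D0H51.AP.Mu

/-!
# Polynomial relations between `2 π i` and linearly many multiple zeta values
-/

set_option autoImplicit false

namespace Pool.Agent.D0H51.AP

open Finset

open DR (mu)

/-- a polynomial sequence with a changed constant -/
noncomputable def chg {k : ℕ} (f : ℕ → MvPolynomial (Fin k) ℤ) (g : ℤ) (i : ℕ) : MvPolynomial (Fin k) ℤ :=
  f i + MvPolynomial.C (if i = 0 then g else 0)

lemma chg_deg {k D : ℕ} (f : ℕ → MvPolynomial (Fin k) ℤ) (g : ℤ) (i : ℕ) (h : (f i).totalDegree ≤ D) :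
    (chg f g i).totalDegree ≤ D := by
  unfold chg
  refine (MvPolynomial.totalDegree_add _ _).trans (max_le h ?_)
  rw [MvPolynomial.totalDegree_C]
  exact Nat.zero_le _

lemma chg_coeff {k B : ℕ} (f : ℕ → MvPolynomial (Fin k) ℤ) (g : ℤ) (i : ℕ)
    (h : ∀ e, |(f i).coeff e| ≤ (B : ℤ)) (hg : |g| ≤ (B : ℤ)) (e : Fin k →₀ ℕ) :
    |(chg f g i).coeff e| ≤ ((2 * B : ℕ) : ℤ) := by
  unfold chg
  rw [MvPolynomial.coeff_add, MvPolynomial.coeff_C]
  have h1 := h e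
  have h2 : |(if (0 : Fin k →₀ ℕ) = e then (if i = 0 then g else 0) else 0)| ≤ |g| := by
    split_ifs <;> simp
  have h3 := abs_add_le ((f i).coeff e) (if (0 : Fin k →₀ ℕ) = e then (if i = 0 then g else 0) else 0)
  push_cast
  linarith

lemma chg_sum {k W : ℕ} {A : Type} [CommRing A] (f : ℕ → MvPolynomial (Fin k) ℤ) (g : ℤ) (x : ℕ → Fin k → A) :
    ∑ i ∈ range (W + 1), MvPolynomial.aeval (x i) (chg f g i) =
      ∑ i ∈ range (W + 1), MvPolynomial.aeval (x i) (f i) + (g : A) := by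
  unfold chg
  simp only [map_add, MvPolynomial.aeval_C, sum_add_distrib]
  congr 1
  rw [sum_eq_single 0]
  · rw [if_pos rfl]
    simp
  · intro j _ hj
    rw [if_neg hj, map_zero]
  · intro h
    exact absurd (mem_range.2 (Nat.succ_pos W)) h

lemma small_of (K W0 C : ℕ) (hC : 2 ≤ C) (c0 : ℝ) (hc0 : 0 < c0) (δ : ℝ) : ∃ P : ℕ, ∀ N : ℕ, P ≤ N → ∀ W : ℝ,
    0 ≤ W → W ≤ δ * N → (W + 1) * (K / 2 ^ N) * W0 + 1 / (C : ℝ) ^ N < c0 := by
  have h1 : Filter.Tendsto (fun N : ℕ => ((|δ| * N + 1) * (K * W0) + 1) * (1 / 2 : ℝ) ^ N) Filter.atTop (nhds 0) := by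
    have e1 := tendsto_self_mul_const_pow_of_lt_one (r := (1 / 2 : ℝ)) (by norm_num) (by norm_num)
    have e2 := tendsto_pow_atTop_nhds_zero_of_lt_one (r := (1 / 2 : ℝ)) (by norm_num) (by norm_num)
    have e3 := (e1.const_mul (|δ| * (K * W0))).add (e2.const_mul ((K : ℝ) * W0 + 1))
    rw [mul_zero, mul_zero, add_zero] at e3
    refine e3.congr fun N => ?_
    ring
  have h2 := (h1.eventually (gt_mem_nhds hc0))
  obtain ⟨P, hP⟩ := Filter.eventually_atTop.1 h2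
  refine ⟨P, fun N hN W hW0 hW => ?_⟩
  have h3 := hP N hN
  refine lt_of_le_of_lt ?_ h3
  have h4 : W ≤ |δ| * N := hW.trans (by
    have := le_abs_self δ
    gcongr)
  have h5 : (1 : ℝ) / (C : ℝ) ^ N ≤ 1 / 2 ^ N := by
    have : (2 : ℝ) ≤ C := by exact_mod_cast hC
    gcongr
  have h6 : (W + 1) * ((K : ℝ) / 2 ^ N) * W0 ≤ (|δ| * N + 1) * (K / 2 ^ N) * W0 := by gcongr
  have h7 : ((|δ| * N + 1) * (K * W0) + 1) * (1 / 2 : ℝ) ^ N =
      (|δ| * N + 1) * (K / 2 ^ N) * W0 + 1 / 2 ^ N := by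
    rw [one_div_pow]
    ring
  rw [h7]
  linarith

/-- **Relations between the powers of `2 π i` and linearly many multiple zeta values.** -/
theorem polymu (k d D B κ a b : ℕ) (ha : Even a) (hb : Odd b) : ∃ (δ : ℝ) (C P : ℕ), 0 < δ ∧ 0 < C ∧
    ∀ (N W : ℕ) (w : Fin k → List (ℕ → ℕ)) (f g : ℕ → MvPolynomial (Fin k) ℤ) (G : Polynomial ℤ), P ≤ N →
      (W : ℝ) ≤ δ * N → (∀ l, w l ≠ []) → (∀ l, (w l).length ≤ d) →
      (∀ l, ∀ x ∈ w l, ∀ i ≤ W, N ≤ x i ∧ x i ≤ κ * N) →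
      (∀ l, ∀ x ∈ w l, ∃ v : ℤ, ∀ i ≤ W, (x i : ℤ) = x 0 + i * v) →
      (∀ l, ∀ x ∈ w l, ∀ i ≤ W, ∀ j ≤ W, (x i : ℝ) ≤ x j + δ * N) →
      (∀ i ≤ W, (f i).totalDegree ≤ D ∧ ∀ e, |(f i).coeff e| ≤ (B : ℤ)) →
      (∀ i ≤ W, (g i).totalDegree ≤ D ∧ ∀ e, |(g i).coeff e| ≤ (B : ℤ)) →
      G.natDegree ≤ B → (∀ j, |G.coeff j| ≤ (B : ℤ)) →
      ‖mu ^ a * ((∑ i ∈ range (W + 1), MvPolynomial.aeval (fun l => mzv ((w l).map fun x => x i)) (f i) : ℝ) : ℂ) +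
        mu ^ b * ((∑ i ∈ range (W + 1), MvPolynomial.aeval (fun l => mzv ((w l).map fun x => x i)) (g i) : ℝ) : ℂ) +
        Polynomial.aeval mu G‖ ≤ 1 / (C : ℝ) ^ N →
      ∀ (A : Type) [CommRing A] (y : A) (Z : List ℕ → A),
        (∀ u v, Ge2 u → Ge2 v → Z u * Z v = ((stg u v).map Z).sum) →
        y ^ a * ∑ i ∈ range (W + 1), MvPolynomial.aeval (fun l => Z ((w l).map fun x => x i)) (f i) +
          y ^ b * ∑ i ∈ range (W + 1), MvPolynomial.aeval (fun l => Z ((w l).map fun x => x i)) (g i) +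
          Polynomial.aeval y G = 0 := by
  obtain ⟨δ, C, P, hδ, hC, h⟩ := poly k d D (2 * B) κ
  obtain ⟨K, hK⟩ := near k d D B
  obtain ⟨c0, hc0, hint⟩ := int_part B a b ha hb
  obtain ⟨P1, hP1⟩ := small_of K (7 ^ a + 7 ^ b) (max C 2) (le_max_right _ _) c0 hc0 δ
  refine ⟨δ, max C 2, max (max P P1) 2, hδ, lt_of_lt_of_le hC (le_max_left _ _), ?_⟩
  intro N W w f g G hPN hW hw hlen hent hdir hcl hf hg hG1 hG2 hsmall A _ y Z hZ
  rw [max_le_iff, max_le_iff] at hPN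
  obtain ⟨⟨hPN, hP1N⟩, hN2⟩ := hPN
  have hv : ∀ i ≤ W, ∀ l, ((w l).map fun x => x i) ≠ [] ∧ ((w l).map fun x => x i).length ≤ d ∧
      ∀ s ∈ ((w l).map fun x => x i), N ≤ s := by
    intro i hi l
    refine ⟨by rw [Ne, List.map_eq_nil_iff]; exact hw l, by rw [List.length_map]; exact hlen l, ?_⟩
    intro s hs
    rw [List.mem_map] at hs
    obtain ⟨x, hx, rfl⟩ := hs
    exact (hent l x hx i hi).1
  obtain ⟨n, hn⟩ := hK N W (fun i l => (w l).map fun x => x i) f hN2 hv hf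
  obtain ⟨m, hm⟩ := hK N W (fun i l => (w l).map fun x => x i) g hN2 hv hg
  set F : ℝ := ∑ i ∈ range (W + 1), MvPolynomial.aeval (fun l => mzv ((w l).map fun x => x i)) (f i) with hF
  set F' : ℝ := ∑ i ∈ range (W + 1), MvPolynomial.aeval (fun l => mzv ((w l).map fun x => x i)) (g i) with hF'
  have h1 : ‖mu ^ a * ((n : ℝ) : ℂ) + mu ^ b * ((m : ℝ) : ℂ) + Polynomial.aeval mu G‖ < c0 := by
    have e1 : mu ^ a * ((n : ℝ) : ℂ) + mu ^ b * ((m : ℝ) : ℂ) + Polynomial.aeval mu G =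
        (mu ^ a * (F : ℂ) + mu ^ b * (F' : ℂ) + Polynomial.aeval mu G) -
        (mu ^ a * ((F - n : ℝ) : ℂ) + mu ^ b * ((F' - m : ℝ) : ℂ)) := by
      push_cast
      ring
    rw [e1]
    refine lt_of_le_of_lt (norm_sub_le _ _) ?_
    have e2 : ‖mu ^ a * ((F - n : ℝ) : ℂ) + mu ^ b * ((F' - m : ℝ) : ℂ)‖ ≤
        ((W : ℝ) + 1) * (K / 2 ^ N) * ((7 ^ a + 7 ^ b : ℕ) : ℝ) := by
      refine (norm_add_le _ _).trans ?_
      rw [norm_mul, norm_mul, norm_pow, norm_pow, Complex.norm_real, Complex.norm_real, Real.norm_eq_abs,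
        Real.norm_eq_abs]
      have e3 : ‖mu‖ ^ a ≤ 7 ^ a := pow_le_pow_left₀ (norm_nonneg _) norm_mu_le a
      have e4 : ‖mu‖ ^ b ≤ 7 ^ b := pow_le_pow_left₀ (norm_nonneg _) norm_mu_le b
      have e5 : ‖mu‖ ^ a * |F - n| ≤ 7 ^ a * (((W : ℝ) + 1) * (K / 2 ^ N)) := by gcongr
      have e6 : ‖mu‖ ^ b * |F' - m| ≤ 7 ^ b * (((W : ℝ) + 1) * (K / 2 ^ N)) := by gcongr
      push_cast
      linarith
    have e3 := hP1 N hP1N W (Nat.cast_nonneg _) hW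
    linarith
  have hG := hint n m G hG1 hG2 h1
  have hab : a ≠ b := by
    rintro rfl
    exact (Nat.not_even_iff_odd.2 hb) ha
  have hna : G.coeff a = -n := by
    rw [hG, Polynomial.coeff_add, Polynomial.coeff_C_mul_X_pow, Polynomial.coeff_C_mul_X_pow, if_pos rfl,
      if_neg hab, add_zero]
  have hmb : G.coeff b = -m := by
    rw [hG, Polynomial.coeff_add, Polynomial.coeff_C_mul_X_pow, Polynomial.coeff_C_mul_X_pow, if_pos rfl,
      if_neg hab.symm, zero_add]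
  have hnB : |-n| ≤ (B : ℤ) := by rw [← hna]; exact hG2 a
  have hmB : |-m| ≤ (B : ℤ) := by rw [← hmb]; exact hG2 b
  have hGe : ∀ {A : Type} [CommRing A] (z : A), Polynomial.aeval z G =
      z ^ a * ((-n : ℤ) : A) + z ^ b * ((-m : ℤ) : A) := by
    intro A _ z
    rw [hG]
    simp only [map_add, map_mul, map_pow, Polynomial.aeval_X, Polynomial.aeval_C]
    simp
    ring
  have hsp : ‖mu ^ a * ((F + ((-n : ℤ) : ℝ) : ℝ) : ℂ) + mu ^ b * ((F' + ((-m : ℤ) : ℝ) : ℝ) : ℂ)‖ ≤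
      1 / ((max C 2 : ℕ) : ℝ) ^ N := by
    rw [hGe] at hsmall
    refine le_trans (le_of_eq ?_) hsmall
    congr 1
    push_cast
    ring
  have hCC : (1 : ℝ) / ((max C 2 : ℕ) : ℝ) ^ N ≤ 1 / (C : ℝ) ^ N := by
    have e1 : (0 : ℝ) < C := by exact_mod_cast hC
    have e2 : (C : ℝ) ≤ ((max C 2 : ℕ) : ℝ) := by exact_mod_cast le_max_left _ _
    gcongr
  have hpt := parts ha hb (F + ((-n : ℤ) : ℝ)) (F' + ((-m : ℤ) : ℝ))
  have k1 := h N W w (chg f (-n)) hPN hW hw hlen hent hdir hcl (fun i hi => chg_deg f _ i (hf i hi).1)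
    (fun i hi e => chg_coeff f _ i (hf i hi).2 hnB e) (by
      rw [chg_sum, ← hF]
      exact (hpt.1.trans hsp).trans hCC) A Z hZ
  have k2 := h N W w (chg g (-m)) hPN hW hw hlen hent hdir hcl (fun i hi => chg_deg g _ i (hg i hi).1)
    (fun i hi e => chg_coeff g _ i (hg i hi).2 hmB e) (by
      rw [chg_sum, ← hF']
      exact (hpt.2.trans hsp).trans hCC) A Z hZ
  rw [chg_sum] at k1 k2
  rw [hGe]
  linear_combination y ^ a * k1 + y ^ b * k2

end Pool.Agent.D0H51.AP
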